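import Mathlib

/-! Counting words: a Chernoff bound, and a lower bound for the number of words with trivial
product. -/

set_option autoImplicit false

namespace Pool.Agent.U282.PW

open Finset

theorem chernoff {B : Type*} [Fintype B] [Nonempty B] (f : B → ℝ) (hf : ∑ x, f x < 0) :
    ∃ ρ : ℝ, 0 < ρ ∧ ρ < 1 ∧ ∀ n : ℕ,
      ((Nat.card {c : Fin n → B | 0 ≤ ∑ i, f (c i)} : ℕ) : ℝ) ≤ (ρ * Fintype.card B) ^ n := by
  classical
  have hb : (0 : ℝ) < Fintype.card B := by exact_mod_cast Fintype.card_pos
  -- a bound for `f`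
  set M : ℝ := ∑ x, |f x| + 1 with hM
  have hMf : ∀ x, |f x| ≤ M := fun x => by
    have := Finset.single_le_sum (f := fun x => |f x|) (fun _ _ => abs_nonneg _)
      (Finset.mem_univ x)
    linarith
  have hM0 : 0 < M := by
    have : 0 ≤ ∑ x, |f x| := Finset.sum_nonneg fun _ _ => abs_nonneg _
    linarith
  set A : ℝ := -∑ x, f x with hA
  have hA0 : 0 < A := by linarith
  set t : ℝ := min (1 / M) (A / (2 * M ^ 2 * Fintype.card B)) with ht
  have ht0 : 0 < t := lt_min (by positivity) (by positivity)
  have ht1 : t * M ≤ 1 := by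
    have : t ≤ 1 / M := min_le_left _ _
    rwa [le_div_iff₀ hM0] at this
  have ht2 : t * (2 * M ^ 2 * Fintype.card B) ≤ A := by
    have : t ≤ A / (2 * M ^ 2 * Fintype.card B) := min_le_right _ _
    rwa [le_div_iff₀ (by positivity)] at this
  set S : ℝ := ∑ x, Real.exp (t * f x) with hS
  have hS0 : 0 < S := Finset.sum_pos (fun _ _ => Real.exp_pos _) Finset.univ_nonempty
  have hS1 : S < Fintype.card B := by
    have h1 : ∀ x, Real.exp (t * f x) ≤ 1 + t * f x + t ^ 2 * M ^ 2 := by
      intro x
      have h2 : |t * f x| ≤ 1 := by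
        rw [abs_mul, abs_of_pos ht0]
        exact (mul_le_mul_of_nonneg_left (hMf x) ht0.le).trans ht1
      have h3 := (abs_le.1 (Real.abs_exp_sub_one_sub_id_le h2)).2
      have h4 : (t * f x) ^ 2 ≤ t ^ 2 * M ^ 2 := by
        rw [mul_pow]
        apply mul_le_mul_of_nonneg_left _ (sq_nonneg t)
        exact sq_le_sq' (abs_le.1 (hMf x)).1 (abs_le.1 (hMf x)).2
      linarith
    have h5 : S ≤ ∑ x, (1 + t * f x + t ^ 2 * M ^ 2) := Finset.sum_le_sum fun x _ => h1 x
    rw [Finset.sum_add_distrib, Finset.sum_add_distrib, ← Finset.mul_sum] at h5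
    simp only [Finset.sum_const, Finset.card_univ, nsmul_eq_mul, mul_one] at h5
    have h6 : ∑ x, f x = -A := by rw [hA, neg_neg]
    rw [h6] at h5
    have h7 : t * (t * (2 * M ^ 2 * Fintype.card B)) ≤ t * A :=
      mul_le_mul_of_nonneg_left ht2 ht0.le
    have h8 : 0 < t * A := by positivity
    nlinarith
  refine ⟨S / Fintype.card B, by positivity, by rwa [div_lt_one hb], fun n => ?_⟩
  rw [div_mul_cancel₀ _ hb.ne', hS, Fintype.sum_pow]
  rw [Nat.card_eq_fintype_card, Fintype.card_subtype, Finset.card_eq_sum_ones]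
  push_cast
  rw [Finset.sum_filter]
  apply Finset.sum_le_sum
  intro c _
  rw [← Real.exp_sum, ← Finset.mul_sum]
  split_ifs with h
  · have h1 : 0 ≤ ∑ i, f (c i) := h
    exact Real.one_le_exp (mul_nonneg ht0.le h1)
  · exact (Real.exp_pos _).le

section lower

variable {B G : Type*} [Fintype B] [CommGroup G]

/-- The number of words of length `n` with trivial product. -/
noncomputable def triv (χ : B → G) (n : ℕ) : ℕ := Nat.card {c : Fin n → B | ∏ i, χ (c i) = 1}

theorem triv_succ (χ : B → G) (x0 : B) (h0 : χ x0 = 1) (n : ℕ) : triv χ n ≤ triv χ (n + 1) := by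
  unfold triv
  apply Nat.card_le_card_of_injective
    (fun c : {c : Fin n → B | ∏ i, χ (c i) = 1} =>
      (⟨Fin.cons x0 c.1, by
        have := c.2
        change ∏ i, χ ((Fin.cons x0 c.1 : Fin (n + 1) → B) i) = 1
        rw [Fin.prod_univ_succ]
        simp only [Fin.cons_zero, Fin.cons_succ, h0, one_mul]
        exact this⟩ : {c : Fin (n + 1) → B | ∏ i, χ (c i) = 1}))
  intro c c' h
  have h1 : (Fin.cons x0 c.1 : Fin (n + 1) → B) = Fin.cons x0 c'.1 := congrArg Subtype.val h
  exact Subtype.ext (Fin.cons_right_injective (α := fun _ => B) x0 h1)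

theorem image_card [DecidableEq G] (χ : B → G) (m : ℕ) :
    ((Finset.univ : Finset (Fin m → B)).image fun c => ∏ i, χ (c i)).card ≤
      (m + 1) ^ Fintype.card B := by
  classical
  have h1 : ((Finset.univ : Finset (Fin m → B)).image fun c => ∏ i, χ (c i)) ⊆
      (Finset.univ : Finset (B → Fin (m + 1))).image fun p => ∏ x, χ x ^ (p x : ℕ) := by
    intro g hg
    obtain ⟨c, -, rfl⟩ := Finset.mem_image.1 hg
    rw [Finset.mem_image]
    refine ⟨fun x => ⟨(Finset.univ.filter fun i => c i = x).card, ?_⟩, Finset.mem_univ _, ?_⟩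
    · refine Nat.lt_succ_of_le ((Finset.card_le_univ _).trans ?_)
      simp
    · simp only
      rw [← Finset.prod_fiberwise_of_maps_to (s := (Finset.univ : Finset (Fin m)))
        (t := (Finset.univ : Finset B)) (g := c) (fun i _ => Finset.mem_univ _)]
      apply Finset.prod_congr rfl
      intro x _
      rw [Finset.prod_congr rfl (g := fun _ => χ x)
        (fun i hi => by rw [(Finset.mem_filter.1 hi).2]), Finset.prod_const]
  calc _ ≤ _ := Finset.card_le_card h1
    _ ≤ (Finset.univ : Finset (B → Fin (m + 1))).card := Finset.card_image_le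
    _ = _ := by simp

theorem triv_even (χ : B → G) (σ : B → B) (hσ : Function.Injective σ)
    (hχ : ∀ x, χ (σ x) = (χ x)⁻¹) (m : ℕ) :
    (Fintype.card B) ^ (m + m) ≤ (m + 1) ^ Fintype.card B * triv χ (m + m) := by
  classical
  set X : (Fin m → B) → G := fun c => ∏ i, χ (c i) with hX
  set I := (Finset.univ : Finset (Fin m → B)).image X with hI
  set N : G → ℕ := fun g => (Finset.univ.filter fun c : Fin m → B => X c = g).card with hN
  have h1 : ∑ g ∈ I, N g = (Fintype.card B) ^ m := by
    rw [hN]
    simp only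
    rw [← Finset.card_eq_sum_card_fiberwise (fun c _ => Finset.mem_coe.2
      (Finset.mem_image_of_mem X (Finset.mem_univ c)))]
    simp
  have h2 := sq_sum_le_card_mul_sum_sq (s := I) (f := N)
  rw [h1] at h2
  have h3 : ∑ g ∈ I, N g ^ 2 ≤ triv χ (m + m) := by
    have h4 : ∑ g ∈ I, N g ^ 2 =
        ((Finset.univ : Finset ((Fin m → B) × (Fin m → B))).filter
          fun p => X p.1 = X p.2).card := by
      rw [Finset.card_eq_sum_card_fiberwise (f := fun p : (Fin m → B) × (Fin m → B) => X p.1)
        (t := I) (fun p _ => Finset.mem_coe.2 (Finset.mem_image_of_mem X (Finset.mem_univ _)))]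
      apply Finset.sum_congr rfl
      intro g _
      rw [sq, hN]
      simp only
      rw [← Finset.card_product]
      congr 1
      ext p
      simp only [Finset.mem_product, Finset.mem_filter, Finset.mem_univ, true_and]
      constructor
      · rintro ⟨h5, h6⟩
        exact ⟨h5.trans h6.symm, h5⟩
      · rintro ⟨h5, h6⟩
        exact ⟨h6, h5 ▸ h6⟩
    rw [h4]
    unfold triv
    rw [← Fintype.card_coe, ← Nat.card_eq_fintype_card]
    apply Nat.card_le_card_of_injective
      (fun p : ((Finset.univ : Finset ((Fin m → B) × (Fin m → B))).filter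
          fun p => X p.1 = X p.2) =>
        (⟨Fin.append p.1.1 (σ ∘ p.1.2), by
          have h5 := (Finset.mem_filter.1 p.2).2
          change ∏ i, χ (Fin.append p.1.1 (σ ∘ p.1.2) i) = 1
          rw [Fin.prod_univ_add]
          simp only [Fin.append_left, Fin.append_right, Function.comp_apply, hχ]
          rw [Finset.prod_inv_distrib]
          rw [show ∏ i, χ (p.1.1 i) = ∏ i, χ (p.1.2 i) from h5]
          exact mul_inv_cancel _⟩ : {c : Fin (m + m) → B | ∏ i, χ (c i) = 1}))
    intro p p' h
    have h6 : Fin.append p.1.1 (σ ∘ p.1.2) = Fin.append p'.1.1 (σ ∘ p'.1.2) :=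
      congrArg Subtype.val h
    apply Subtype.ext
    apply Prod.ext
    · funext i
      have := congrFun h6 (Fin.castAdd m i)
      rwa [Fin.append_left, Fin.append_left] at this
    · funext i
      have := congrFun h6 (Fin.natAdd m i)
      rw [Fin.append_right, Fin.append_right] at this
      exact hσ this
  calc (Fintype.card B) ^ (m + m) = ((Fintype.card B) ^ m) ^ 2 := by rw [sq, pow_add]
    _ ≤ I.card * ∑ g ∈ I, N g ^ 2 := h2
    _ ≤ (m + 1) ^ Fintype.card B * triv χ (m + m) := Nat.mul_le_mul (image_card χ m) h3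

/-- The lower bound for the number of words with trivial product. -/
theorem triv_lower (χ : B → G) (σ : B → B) (hσ : Function.Injective σ)
    (hχ : ∀ x, χ (σ x) = (χ x)⁻¹) (x0 : B) (h0 : χ x0 = 1) (n : ℕ) :
    (Fintype.card B) ^ n ≤ (Fintype.card B * (n + 1) ^ Fintype.card B) * triv χ n := by
  have hb : 1 ≤ Fintype.card B := Fintype.card_pos_iff.2 ⟨x0⟩
  rcases Nat.even_or_odd n with ⟨m, rfl⟩ | ⟨m, rfl⟩
  · refine (triv_even χ σ hσ hχ m).trans ?_
    apply Nat.mul_le_mul_right
    calc (m + 1) ^ Fintype.card B ≤ (m + m + 1) ^ Fintype.card B :=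
          Nat.pow_le_pow_left (by omega) _
      _ ≤ _ := Nat.le_mul_of_pos_left _ hb
  · have h1 := triv_even χ σ hσ hχ m
    have h2 := triv_succ χ x0 h0 (m + m)
    rw [← two_mul] at h1 h2
    calc (Fintype.card B) ^ (2 * m + 1) = Fintype.card B * (Fintype.card B) ^ (2 * m) := by
          rw [pow_succ, mul_comm]
      _ ≤ Fintype.card B * ((m + 1) ^ Fintype.card B * triv χ (2 * m)) :=
          Nat.mul_le_mul_left _ h1
      _ ≤ Fintype.card B * ((2 * m + 1 + 1) ^ Fintype.card B * triv χ (2 * m + 1)) := by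
          apply Nat.mul_le_mul_left
          exact Nat.mul_le_mul (Nat.pow_le_pow_left (by omega) _) h2
      _ = _ := by ring

end lower

end Pool.Agent.U282.PW
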