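import Mathlib

/-! The characteristic function of the weights of a Jordan block. -/

set_option autoImplicit false

namespace Pool.Agent.U282.PW

open Real Filter MeasureTheory

/-- The normalised character of the representation of dimension `s`. -/
noncomputable def phi (s : ℕ) (t : ℝ) : ℝ :=
  (∑ a : Fin s, Real.cos (((s : ℝ) - 1 - 2 * ((a : ℕ) : ℝ)) * t)) / s

/-- The variance of the weights of the representation of dimension `s`. -/
noncomputable def vv (s : ℕ) : ℝ := (∑ a : Fin s, ((s : ℝ) - 1 - 2 * ((a : ℕ) : ℝ)) ^ 2) / s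

theorem w_abs {s : ℕ} (a : Fin s) : |(s : ℝ) - 1 - 2 * ((a : ℕ) : ℝ)| ≤ s := by
  have h1 : ((a : ℕ) : ℝ) + 1 ≤ s := by exact_mod_cast a.2
  have h2 : (0 : ℝ) ≤ ((a : ℕ) : ℝ) := Nat.cast_nonneg _
  rw [abs_le]
  constructor <;> linarith

theorem phi_abs {s : ℕ} (hs : 0 < s) (t : ℝ) : |phi s t| ≤ 1 := by
  have hs' : (0 : ℝ) < s := by exact_mod_cast hs
  rw [phi, abs_div, abs_of_pos hs', div_le_one hs']
  calc |∑ a : Fin s, Real.cos (((s : ℝ) - 1 - 2 * ((a : ℕ) : ℝ)) * t)|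
      ≤ ∑ a : Fin s, |Real.cos (((s : ℝ) - 1 - 2 * ((a : ℕ) : ℝ)) * t)| :=
        Finset.abs_sum_le_sum_abs _ _
    _ ≤ ∑ _a : Fin s, (1 : ℝ) := Finset.sum_le_sum fun a _ => Real.abs_cos_le_one _
    _ = s := by simp

theorem vv_nonneg (s : ℕ) : 0 ≤ vv s :=
  div_nonneg (Finset.sum_nonneg fun _ _ => sq_nonneg _) (Nat.cast_nonneg _)

theorem vv_le (s : ℕ) : vv s ≤ (s : ℝ) ^ 2 := by
  rcases Nat.eq_zero_or_pos s with h | hs
  · subst h; simp [vv]
  have hs' : (0 : ℝ) < s := by exact_mod_cast hs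
  rw [vv, div_le_iff₀ hs']
  calc ∑ a : Fin s, ((s : ℝ) - 1 - 2 * ((a : ℕ) : ℝ)) ^ 2 ≤ ∑ _a : Fin s, (s : ℝ) ^ 2 :=
        Finset.sum_le_sum fun a _ => sq_le_sq' (abs_le.1 (w_abs a)).1 (abs_le.1 (w_abs a)).2
    _ = (s : ℝ) ^ 2 * s := by simp; ring

theorem vv_one : vv 1 = 0 := by simp [vv]

theorem vv_pos {s : ℕ} (hs : 2 ≤ s) : 0 < vv s := by
  have hs' : (0 : ℝ) < s := by exact_mod_cast (by omega : 0 < s)
  apply div_pos _ hs'
  have h0 : 0 < s := by omega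
  have h1 : (0 : ℝ) < ((s : ℝ) - 1 - 2 * (((⟨0, h0⟩ : Fin s) : ℕ) : ℝ)) ^ 2 := by
    have : (2 : ℝ) ≤ s := by exact_mod_cast hs
    simp only [Nat.cast_zero, mul_zero, sub_zero]
    nlinarith
  exact lt_of_lt_of_le h1 (Finset.single_le_sum
    (f := fun a : Fin s => ((s : ℝ) - 1 - 2 * ((a : ℕ) : ℝ)) ^ 2)
    (fun _ _ => sq_nonneg _) (Finset.mem_univ _))

theorem phi_decay {s L : ℕ} (hs : 0 < s) (hL : s ≤ L) {t : ℝ} (ht : |t| ≤ π / 2) :
    |phi s t| ≤ Real.exp (-(4 / (π ^ 2 * (L : ℝ) ^ 3) * vv s * t ^ 2)) := by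
  have hpi := Real.pi_pos
  rcases Nat.lt_or_ge s 2 with h2 | h2
  · have : s = 1 := by omega
    subst this
    rw [vv_one]
    simpa using phi_abs hs t
  · obtain ⟨r, rfl⟩ := Nat.exists_eq_add_of_le' h2
    have hs' : (0 : ℝ) < ((r + 2 : ℕ) : ℝ) := by positivity
    have hL' : (0 : ℝ) < (L : ℝ) := lt_of_lt_of_le hs' (by exact_mod_cast hL)
    have hcos : 0 ≤ Real.cos t := by
      apply Real.cos_nonneg_of_neg_pi_div_two_le_of_le
      · linarith [(abs_le.1 ht).1]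
      · linarith [(abs_le.1 ht).2]
    have hcos2 : Real.cos t ≤ 1 - 2 / π ^ 2 * t ^ 2 :=
      Real.cos_le_one_sub_mul_cos_sq (ht.trans (by linarith))
    have h3 : |phi (r + 2) t| ≤ 1 - 4 / (π ^ 2 * ((r + 2 : ℕ) : ℝ)) * t ^ 2 := by
      rw [phi, abs_div, abs_of_pos hs', div_le_iff₀ hs', Fin.sum_univ_succ, Fin.sum_univ_succ,
        ← add_assoc]
      set x : ℝ := ((r + 2 : ℕ) : ℝ) - 2 with hx
      have e1 : Real.cos ((((r + 2 : ℕ) : ℝ) - 1 - 2 * (((0 : Fin (r + 2)) : ℕ) : ℝ)) * t) +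
          Real.cos ((((r + 2 : ℕ) : ℝ) - 1 - 2 * (((Fin.succ (0 : Fin (r + 1)) : Fin (r + 2)) : ℕ) :
            ℝ)) * t) = 2 * (Real.cos (x * t) * Real.cos t) := by
        have a1 : (((r + 2 : ℕ) : ℝ) - 1 - 2 * (((0 : Fin (r + 2)) : ℕ) : ℝ)) * t = x * t + t := by
          rw [hx]; simp; ring
        have a2 : (((r + 2 : ℕ) : ℝ) - 1 - 2 * (((Fin.succ (0 : Fin (r + 1)) : Fin (r + 2)) : ℕ) :
            ℝ)) * t = x * t - t := by
          rw [hx]; simp; ring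
        rw [a1, a2, Real.cos_add, Real.cos_sub]
        ring
      rw [e1]
      have e2 : |2 * (Real.cos (x * t) * Real.cos t)| ≤ 2 * Real.cos t := by
        rw [abs_mul, abs_mul, abs_of_nonneg hcos, abs_two]
        have := Real.abs_cos_le_one (x * t)
        nlinarith
      have e3 : |∑ i : Fin r, Real.cos ((((r + 2 : ℕ) : ℝ) - 1 -
          2 * ((((i.succ).succ : Fin (r + 2)) : ℕ) : ℝ)) * t)| ≤ r := by
        calc _ ≤ ∑ i : Fin r, |Real.cos ((((r + 2 : ℕ) : ℝ) - 1 -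
              2 * ((((i.succ).succ : Fin (r + 2)) : ℕ) : ℝ)) * t)| :=
              Finset.abs_sum_le_sum_abs _ _
          _ ≤ ∑ _i : Fin r, (1 : ℝ) := Finset.sum_le_sum fun a _ => Real.abs_cos_le_one _
          _ = r := by simp
      refine (abs_add_le _ _).trans ((add_le_add e2 e3).trans ?_)
      have e4 : (1 - 4 / (π ^ 2 * ((r + 2 : ℕ) : ℝ)) * t ^ 2) * ((r + 2 : ℕ) : ℝ) =
          ((r + 2 : ℕ) : ℝ) - 2 * (2 / π ^ 2 * t ^ 2) := by
        field_simp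
        ring
      rw [e4]
      push_cast
      linarith
    refine h3.trans ?_
    have h4 : 1 - 4 / (π ^ 2 * ((r + 2 : ℕ) : ℝ)) * t ^ 2 ≤
        Real.exp (-(4 / (π ^ 2 * ((r + 2 : ℕ) : ℝ)) * t ^ 2)) := by
      have := Real.add_one_le_exp (-(4 / (π ^ 2 * ((r + 2 : ℕ) : ℝ)) * t ^ 2))
      linarith
    refine h4.trans (Real.exp_le_exp.2 (neg_le_neg ?_))
    apply mul_le_mul_of_nonneg_right _ (sq_nonneg t)
    rw [div_mul_eq_mul_div, div_le_div_iff₀ (by positivity) (by positivity)]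
    have h5 : vv (r + 2) * ((r + 2 : ℕ) : ℝ) ≤ (L : ℝ) ^ 3 := by
      calc vv (r + 2) * ((r + 2 : ℕ) : ℝ) ≤ ((r + 2 : ℕ) : ℝ) ^ 2 * ((r + 2 : ℕ) : ℝ) :=
            mul_le_mul_of_nonneg_right (vv_le _) hs'.le
        _ = ((r + 2 : ℕ) : ℝ) ^ 3 := by ring
        _ ≤ (L : ℝ) ^ 3 := by
          apply pow_le_pow_left₀ hs'.le
          exact_mod_cast hL
    have h6 : (0 : ℝ) < 4 * π ^ 2 := by positivity
    nlinarith

theorem cos_bound' (x : ℝ) : |Real.cos x - (1 - x ^ 2 / 2)| ≤ x ^ 4 := by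
  rcases le_or_gt |x| 1 with h | h
  · refine (Real.cos_bound h).trans ?_
    rw [show |x| ^ 4 = x ^ 4 from by
      rw [← abs_pow, abs_of_nonneg (by positivity)]]
    have : 0 ≤ x ^ 4 := by positivity
    linarith
  · have h1 := Real.one_sub_sq_div_two_le_cos (x := x)
    have h2 := Real.cos_le_one x
    have h3 : 1 < x ^ 2 := by
      rw [← sq_abs]; nlinarith
    rw [abs_le]
    constructor <;> nlinarith

theorem exp_bound' {y : ℝ} (hy : 0 ≤ y) : |Real.exp (-y) - (1 - y)| ≤ y ^ 2 := by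
  rcases le_or_gt y 1 with h | h
  · have := Real.abs_exp_sub_one_sub_id_le (x := -y) (by rw [abs_neg, abs_of_nonneg hy]; exact h)
    rw [neg_sq] at this
    convert this using 2
    ring
  · have h1 := Real.add_one_le_exp (-y)
    have h2 : Real.exp (-y) ≤ 1 := Real.exp_le_one_iff.2 (by linarith)
    rw [abs_le]
    constructor <;> nlinarith

theorem phi_expand {s L : ℕ} (hs : 0 < s) (hL : s ≤ L) (t : ℝ) :
    |phi s t - Real.exp (-(vv s * t ^ 2 / 2))| ≤ 2 * (L : ℝ) ^ 4 * t ^ 4 := by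
  have hs' : (0 : ℝ) < s := by exact_mod_cast hs
  have hsL : (s : ℝ) ≤ L := by exact_mod_cast hL
  have h1 : |phi s t - (1 - vv s * t ^ 2 / 2)| ≤ (L : ℝ) ^ 4 * t ^ 4 := by
    have e : phi s t - (1 - vv s * t ^ 2 / 2) = (∑ a : Fin s,
        (Real.cos (((s : ℝ) - 1 - 2 * ((a : ℕ) : ℝ)) * t) -
          (1 - (((s : ℝ) - 1 - 2 * ((a : ℕ) : ℝ)) * t) ^ 2 / 2))) / s := by
      rw [Finset.sum_sub_distrib, Finset.sum_sub_distrib, phi, vv]
      simp only [mul_pow]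
      rw [← Finset.sum_div, ← Finset.sum_mul]
      simp only [Finset.sum_const, Finset.card_univ, Fintype.card_fin, nsmul_eq_mul, mul_one]
      generalize (∑ a : Fin s, Real.cos (((s : ℝ) - 1 - 2 * ((a : ℕ) : ℝ)) * t)) = A
      field_simp
    rw [e, abs_div, abs_of_pos hs', div_le_iff₀ hs']
    calc _ ≤ ∑ a : Fin s, |Real.cos (((s : ℝ) - 1 - 2 * ((a : ℕ) : ℝ)) * t) -
          (1 - (((s : ℝ) - 1 - 2 * ((a : ℕ) : ℝ)) * t) ^ 2 / 2)| := Finset.abs_sum_le_sum_abs _ _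
      _ ≤ ∑ _a : Fin s, (L : ℝ) ^ 4 * t ^ 4 := by
        apply Finset.sum_le_sum
        intro a _
        refine (cos_bound' _).trans ?_
        rw [mul_pow]
        apply mul_le_mul_of_nonneg_right _ (by positivity)
        rw [← abs_of_nonneg (show (0 : ℝ) ≤ ((s : ℝ) - 1 - 2 * ((a : ℕ) : ℝ)) ^ 4 by positivity),
          abs_pow]
        exact pow_le_pow_left₀ (abs_nonneg _) ((w_abs a).trans hsL) 4
      _ = (L : ℝ) ^ 4 * t ^ 4 * s := by simp; ring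
  have h2 : |Real.exp (-(vv s * t ^ 2 / 2)) - (1 - vv s * t ^ 2 / 2)| ≤ (L : ℝ) ^ 4 * t ^ 4 := by
    have h3 : 0 ≤ vv s * t ^ 2 / 2 := by
      have := vv_nonneg s
      positivity
    refine (exp_bound' h3).trans ?_
    have h4 : vv s ≤ (L : ℝ) ^ 2 := (vv_le s).trans (pow_le_pow_left₀ hs'.le hsL 2)
    have h5 := vv_nonneg s
    have h6 : vv s ^ 2 ≤ (L : ℝ) ^ 4 := by
      calc vv s ^ 2 ≤ ((L : ℝ) ^ 2) ^ 2 := pow_le_pow_left₀ h5 h4 2
        _ = (L : ℝ) ^ 4 := by ring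
    calc (vv s * t ^ 2 / 2) ^ 2 = vv s ^ 2 * t ^ 4 / 4 := by ring
      _ ≤ (L : ℝ) ^ 4 * t ^ 4 / 4 := by
        apply div_le_div_of_nonneg_right _ (by norm_num)
        exact mul_le_mul_of_nonneg_right h6 (by positivity)
      _ ≤ (L : ℝ) ^ 4 * t ^ 4 := by
        have : 0 ≤ (L : ℝ) ^ 4 * t ^ 4 := by positivity
        linarith
  calc |phi s t - Real.exp (-(vv s * t ^ 2 / 2))|
      = |(phi s t - (1 - vv s * t ^ 2 / 2)) -
          (Real.exp (-(vv s * t ^ 2 / 2)) - (1 - vv s * t ^ 2 / 2))| := by congr 1; ring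
    _ ≤ |phi s t - (1 - vv s * t ^ 2 / 2)| +
          |Real.exp (-(vv s * t ^ 2 / 2)) - (1 - vv s * t ^ 2 / 2)| := abs_sub _ _
    _ ≤ _ := by linarith

theorem abs_prod_sub {ι : Type*} (S : Finset ι) (f g : ι → ℝ) (hf : ∀ i, |f i| ≤ 1)
    (hg : ∀ i, |g i| ≤ 1) : |∏ i ∈ S, f i - ∏ i ∈ S, g i| ≤ ∑ i ∈ S, |f i - g i| := by
  classical
  induction S using Finset.induction_on with
  | empty => simp
  | insert j S hj ih =>
    rw [Finset.prod_insert hj, Finset.prod_insert hj, Finset.sum_insert hj]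
    have h1 : |∏ i ∈ S, f i| ≤ 1 := by
      rw [Finset.abs_prod]
      exact Finset.prod_le_one (fun i _ => abs_nonneg _) (fun i _ => hf i)
    calc |f j * ∏ i ∈ S, f i - g j * ∏ i ∈ S, g i|
        = |(f j - g j) * ∏ i ∈ S, f i + g j * (∏ i ∈ S, f i - ∏ i ∈ S, g i)| := by
          congr 1; ring
      _ ≤ |(f j - g j) * ∏ i ∈ S, f i| + |g j * (∏ i ∈ S, f i - ∏ i ∈ S, g i)| := abs_add_le _ _
      _ ≤ |f j - g j| * 1 + 1 * |∏ i ∈ S, f i - ∏ i ∈ S, g i| := by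
        rw [abs_mul, abs_mul]
        apply add_le_add
        · exact mul_le_mul_of_nonneg_left h1 (abs_nonneg _)
        · exact mul_le_mul_of_nonneg_right (hg j) (abs_nonneg _)
      _ ≤ _ := by linarith

end Pool.Agent.U282.PW
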