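import Mathlib
import Pool.Agent.U282.PW.Loc

/-! The number of weight vectors of weight `0` or `-1` as an integral. -/

set_option autoImplicit false

namespace Pool.Agent.U282.PW

open Real Filter MeasureTheory

/-- The weight of a tuple. -/
def hh {n : ℕ} (s : Fin n → ℕ) (a : ∀ i, Fin (s i)) : ℤ :=
  ∑ i, ((s i : ℤ) - 1 - 2 * ((a i : ℕ) : ℤ))

/-- The number of tuples of weight `k` or `-k - 1`. -/
noncomputable def cnt {n : ℕ} (s : Fin n → ℕ) (k : ℕ) : ℕ :=
  Nat.card {a : ∀ i, Fin (s i) | hh s a = k} + Nat.card {a : ∀ i, Fin (s i) | hh s a = -k - 1}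

theorem int_cos (k : ℤ) (hk : Even k) :
    ∫ t in (-(π / 2))..(π / 2), Real.cos ((k : ℝ) * t) = if k = 0 then π else 0 := by
  by_cases h0 : k = 0
  · subst h0
    rw [if_pos rfl]
    simp
  · rw [if_neg h0]
    have hk0 : (k : ℝ) ≠ 0 := by exact_mod_cast h0
    rw [intervalIntegral.integral_comp_mul_left (fun x => Real.cos x) hk0, integral_cos]
    obtain ⟨l, hl⟩ := hk
    have e : (k : ℝ) * (π / 2) = (l : ℝ) * π := by
      rw [hl]; push_cast; ring
    rw [mul_neg, e, Real.sin_neg, Real.sin_int_mul_pi]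
    simp

theorem sum_sin (s : ℕ) (t : ℝ) :
    ∑ a : Fin s, Real.sin (((s : ℝ) - 1 - 2 * ((a : ℕ) : ℝ)) * t) = 0 := by
  have h1 : ∑ a : Fin s, Real.sin (((s : ℝ) - 1 - 2 * ((a : ℕ) : ℝ)) * t) =
      ∑ a : Fin s, Real.sin (((s : ℝ) - 1 - 2 * (((Fin.revPerm a : Fin s) : ℕ) : ℝ)) * t) :=
    (Equiv.sum_comp Fin.revPerm
      (fun a : Fin s => Real.sin (((s : ℝ) - 1 - 2 * ((a : ℕ) : ℝ)) * t))).symm
  have h2 : ∑ a : Fin s, Real.sin (((s : ℝ) - 1 - 2 * (((Fin.revPerm a : Fin s) : ℕ) : ℝ)) * t) =
      - ∑ a : Fin s, Real.sin (((s : ℝ) - 1 - 2 * ((a : ℕ) : ℝ)) * t) := by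
    rw [← Finset.sum_neg_distrib]
    apply Finset.sum_congr rfl
    intro a _
    rw [← Real.sin_neg]
    congr 1
    rw [Fin.revPerm_apply, Fin.val_rev]
    have h3 : ((s - (a.1 + 1) : ℕ) : ℝ) = (s : ℝ) - (a.1 + 1) := by
      rw [Nat.cast_sub a.2]; push_cast; ring
    rw [h3]
    ring
  linarith

theorem sum_cexp (s : ℕ) (hs : 0 < s) (t : ℝ) :
    ∑ a : Fin s, Complex.exp ((((s : ℝ) - 1 - 2 * ((a : ℕ) : ℝ)) * t : ℝ) * Complex.I) =
      (((s : ℝ) * phi s t : ℝ) : ℂ) := by
  have hs' : (s : ℝ) ≠ 0 := by exact_mod_cast hs.ne'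
  rw [phi, mul_div_cancel₀ _ hs']
  apply Complex.ext
  · rw [Complex.re_sum, Complex.ofReal_re]
    exact Finset.sum_congr rfl fun a _ => Complex.exp_ofReal_mul_I_re _
  · rw [Complex.im_sum, Complex.ofReal_im, ← sum_sin s t]
    exact Finset.sum_congr rfl fun a _ => Complex.exp_ofReal_mul_I_im _

theorem prod_phi {n : ℕ} (s : Fin n → ℕ) (hs : ∀ i, 0 < s i) (r : ℝ) (t : ℝ) :
    Real.cos (r * t) * ∏ i, ((s i : ℝ) * phi (s i) t) =
      ∑ a : ∀ i, Fin (s i), Real.cos (((hh s a : ℝ) + r) * t) := by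
  have h1 : ((∏ i, ((s i : ℝ) * phi (s i) t) : ℝ) : ℂ) =
      ∑ a : ∀ i, Fin (s i), Complex.exp (((hh s a : ℝ) * t : ℝ) * Complex.I) := by
    rw [Complex.ofReal_prod]
    simp only [← sum_cexp _ (hs _)]
    rw [Finset.prod_univ_sum, Fintype.piFinset_univ]
    apply Finset.sum_congr rfl
    intro a _
    rw [← Complex.exp_sum]
    congr 1
    rw [← Finset.sum_mul]
    congr 1
    rw [← Complex.ofReal_sum, ← Finset.sum_mul, hh]
    push_cast
    rfl
  have h2 : (Complex.exp ((r * t : ℝ) * Complex.I) *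
      ((∏ i, ((s i : ℝ) * phi (s i) t) : ℝ) : ℂ)).re =
      Real.cos (r * t) * ∏ i, ((s i : ℝ) * phi (s i) t) := by
    rw [mul_comm, Complex.re_ofReal_mul, Complex.exp_ofReal_mul_I_re, mul_comm]
  rw [← h2, h1, Finset.mul_sum, Complex.re_sum]
  apply Finset.sum_congr rfl
  intro a _
  rw [← Complex.exp_add, ← add_mul, ← Complex.ofReal_add, Complex.exp_ofReal_mul_I_re]
  congr 1
  ring

theorem hh_parity {n : ℕ} (s : Fin n → ℕ) (a : ∀ i, Fin (s i)) :
    hh s a = ∑ i, ((s i : ℤ) - 1) - 2 * ∑ i, ((a i : ℕ) : ℤ) := by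
  rw [hh, Finset.sum_sub_distrib, Finset.mul_sum]

theorem phi_cont (s : ℕ) : Continuous (phi s) := by
  unfold phi
  fun_prop

theorem cnt_integral {n : ℕ} (s : Fin n → ℕ) (hs : ∀ i, 0 < s i) (k : ℕ) :
    ∃ r : ℝ, |r - k| ≤ 1 ∧ (cnt s k : ℝ) / ∏ i, (s i : ℝ) =
      (1 / π) * ∫ t in (-(π / 2))..(π / 2), Real.cos (r * t) * ∏ i, phi (s i) t := by
  classical
  have hpi := Real.pi_pos
  have hP : (∏ i, (s i : ℝ)) ≠ 0 := Finset.prod_ne_zero_iff.2 fun i _ => by
    exact_mod_cast (hs i).ne'
  -- the general formula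
  have key : ∀ r : ℤ, (∀ a : ∀ i, Fin (s i), Even (hh s a + r)) →
      ((Nat.card {a : ∀ i, Fin (s i) | hh s a = -r} : ℕ) : ℝ) / ∏ i, (s i : ℝ) =
      (1 / π) * ∫ t in (-(π / 2))..(π / 2), Real.cos ((r : ℝ) * t) * ∏ i, phi (s i) t := by
    intro r hr
    have h1 : (∏ i, (s i : ℝ)) * ∫ t in (-(π / 2))..(π / 2),
        Real.cos ((r : ℝ) * t) * ∏ i, phi (s i) t =
        ∑ a : ∀ i, Fin (s i), (if hh s a + r = 0 then π else 0) := by
      rw [← intervalIntegral.integral_const_mul]
      have h2 : ∀ t : ℝ, (∏ i, (s i : ℝ)) * (Real.cos ((r : ℝ) * t) * ∏ i, phi (s i) t) =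
          ∑ a : ∀ i, Fin (s i), Real.cos (((hh s a + r : ℤ) : ℝ) * t) := by
        intro t
        rw [← mul_assoc, mul_comm (∏ i, (s i : ℝ)), mul_assoc, ← Finset.prod_mul_distrib,
          prod_phi s hs]
        push_cast
        rfl
      simp only [h2]
      rw [intervalIntegral.integral_finsetSum]
      · exact Finset.sum_congr rfl fun a _ => int_cos _ (hr a)
      · intro a _
        exact (by fun_prop : Continuous fun t : ℝ =>
          Real.cos (((hh s a + r : ℤ) : ℝ) * t)).intervalIntegrable _ _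
    have h3 : ∑ a : ∀ i, Fin (s i), (if hh s a + r = 0 then π else 0) =
        ((Nat.card {a : ∀ i, Fin (s i) | hh s a = -r} : ℕ) : ℝ) * π := by
      rw [← Finset.sum_filter, Finset.sum_const, nsmul_eq_mul]
      congr 2
      rw [Nat.card_eq_fintype_card, Fintype.card_subtype]
      apply congrArg
      ext a
      simp only [Finset.mem_filter, Finset.mem_univ, true_and]
      change hh s a + r = 0 ↔ hh s a = -r
      omega
    rw [h3] at h1
    rw [div_eq_iff hP]
    field_simp
    linarith
  by_cases hev : Even (∑ i, ((s i : ℤ) - 1) - k)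
  · refine ⟨(k : ℝ), by simp, ?_⟩
    have h6 : ∀ t : ℝ, Real.cos ((k : ℝ) * t) = Real.cos (((-(k : ℤ) : ℤ) : ℝ) * t) := by
      intro t
      push_cast
      rw [neg_mul, Real.cos_neg]
    simp only [h6]
    rw [← key (-(k : ℤ)) ?_]
    · have h4 : Nat.card {a : ∀ i, Fin (s i) | hh s a = -k - 1} = 0 := by
        rw [Nat.card_eq_zero]
        left
        constructor
        rintro ⟨a, ha⟩
        have h5 : hh s a = -k - 1 := ha
        rw [hh_parity] at h5
        obtain ⟨l, hl⟩ := hev
        omega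
      rw [cnt, h4, add_zero, neg_neg]
    · intro a
      rw [hh_parity]
      obtain ⟨l, hl⟩ := hev
      exact ⟨l - (∑ i, ((a i : ℕ) : ℤ)), by omega⟩
  · refine ⟨((k : ℝ) + 1), by simp, ?_⟩
    have h6 : ∀ t : ℝ, Real.cos (((k : ℝ) + 1) * t) = Real.cos ((((k : ℤ) + 1 : ℤ) : ℝ) * t) := by
      intro t
      push_cast
      rfl
    simp only [h6]
    rw [← key ((k : ℤ) + 1) ?_]
    · have h4 : Nat.card {a : ∀ i, Fin (s i) | hh s a = k} = 0 := by
        rw [Nat.card_eq_zero]
        left
        constructor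
        rintro ⟨a, ha⟩
        have h5 : hh s a = k := ha
        rw [hh_parity] at h5
        apply hev
        refine ⟨∑ i, ((a i : ℕ) : ℤ), by omega⟩
      rw [cnt, h4, zero_add, neg_add, sub_eq_add_neg]
    · intro a
      rw [hh_parity]
      rw [Int.not_even_iff_odd] at hev
      obtain ⟨l, hl⟩ := hev
      refine ⟨l - (∑ i, ((a i : ℕ) : ℤ)) + k + 1, by omega⟩

/-- The Fourier transform of a Gaussian. -/
theorem gauss_cos (v : ℝ) (hv : 0 < v) (x : ℝ) :
    ∫ y : ℝ, Real.cos (x * y) * Real.exp (-(v / 2) * y ^ 2) =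
      Real.sqrt (2 * π / v) * Real.exp (-(x ^ 2 / (2 * v))) := by
  have h1 := fourierIntegral_gaussian (b := ((v / 2 : ℝ) : ℂ)) (by simpa using hv) (x : ℂ)
  have h2 : ∀ y : ℝ, (Real.cos (x * y) * Real.exp (-(v / 2) * y ^ 2)) =
      (Complex.exp (Complex.I * x * y) * Complex.exp (-((v / 2 : ℝ) : ℂ) * y ^ 2)).re := by
    intro y
    have h3 : Complex.exp (-((v / 2 : ℝ) : ℂ) * (y : ℂ) ^ 2) =
        ((Real.exp (-(v / 2) * y ^ 2) : ℝ) : ℂ) := by
      push_cast
      rfl
    have h4 : Complex.exp (Complex.I * x * y) = Complex.exp (((x * y : ℝ) : ℂ) * Complex.I) := by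
      congr 1
      push_cast
      ring
    rw [h3, h4, Complex.re_mul_ofReal, Complex.exp_ofReal_mul_I_re]
  simp only [h2]
  have hint : Integrable (fun y : ℝ => Complex.exp (Complex.I * x * y) *
      Complex.exp (-((v / 2 : ℝ) : ℂ) * y ^ 2)) := by
    have := integrable_cexp_quadratic' (b := -((v / 2 : ℝ) : ℂ)) (by simpa using hv)
      (Complex.I * x) 0
    refine this.congr (Filter.Eventually.of_forall fun y => ?_)
    simp only
    rw [← Complex.exp_add]
    congr 1
    ring
  have h5 := integral_re (𝕜 := ℂ) hint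
  simp only [RCLike.re_to_complex] at h5
  rw [h5, h1]
  have h6 : ((π : ℂ) / ((v / 2 : ℝ) : ℂ)) ^ (1 / 2 : ℂ) = ((Real.sqrt (2 * π / v) : ℝ) : ℂ) := by
    have h7 : (π : ℂ) / ((v / 2 : ℝ) : ℂ) = ((2 * π / v : ℝ) : ℂ) := by
      push_cast
      field_simp
    rw [h7, Real.sqrt_eq_rpow, Complex.ofReal_cpow (by positivity)]
    push_cast
    rfl
  have h8 : Complex.exp (-(x : ℂ) ^ 2 / (4 * ((v / 2 : ℝ) : ℂ))) =
      ((Real.exp (-(x ^ 2 / (2 * v))) : ℝ) : ℂ) := by
    rw [Complex.ofReal_exp]
    congr 1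
    push_cast
    field_simp
    ring
  rw [h6, h8, ← Complex.ofReal_mul, Complex.ofReal_re]

/-- The local limit theorem. -/
theorem local_limit (L : ℕ) (u : ℕ → ℕ) (hu : Tendsto u atTop atTop)
    (s : ∀ k, Fin (u k) → ℕ) (hs : ∀ k i, 0 < s k i) (hL : ∀ k i, s k i ≤ L)
    (v : ℝ) (hv : 0 < v)
    (hlim : Tendsto (fun k => (∑ i, vv (s k i)) / (u k : ℝ)) atTop (nhds v))
    (kk : ℕ → ℕ) (z : ℝ) (hz : Tendsto (fun k => (kk k : ℝ) / Real.sqrt (u k)) atTop (nhds z)) :
    Tendsto (fun k => Real.sqrt (u k) * ((cnt (s k) (kk k) : ℝ) / ∏ i, (s k i : ℝ))) atTop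
      (nhds (Real.sqrt (2 / (π * v)) * Real.exp (-(z ^ 2 / (2 * v))))) := by
  have hpi := Real.pi_pos
  have hu' : Tendsto (fun k => (u k : ℝ)) atTop atTop := tendsto_natCast_atTop_atTop.comp hu
  have hsq : Tendsto (fun k => Real.sqrt (u k)) atTop atTop := Real.tendsto_sqrt_atTop.comp hu'
  choose r hr hint using fun k => cnt_integral (s k) (hs k) (kk k)
  set c : ℝ := 4 / (π ^ 2 * (L : ℝ) ^ 3) with hc
  have hupos : ∀ᶠ k in atTop, 0 < u k := hu.eventually_gt_atTop 0
  have hLpos : 0 < (L : ℝ) := by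
    obtain ⟨k, hk⟩ := hupos.exists
    have := (hs k ⟨0, hk⟩).trans_le (hL k ⟨0, hk⟩)
    exact_mod_cast this
  have hcpos : 0 < c := by positivity
  -- the rescaled integrand
  set G : ℕ → ℝ → ℝ := fun k x => Set.indicator
    (Set.Ioc (-(π / 2) * Real.sqrt (u k)) ((π / 2) * Real.sqrt (u k)))
    (fun x => Real.cos (r k * (x / Real.sqrt (u k))) *
      ∏ i, phi (s k i) (x / Real.sqrt (u k))) x with hG
  have h1 : ∀ᶠ k in atTop, Real.sqrt (u k) * ((cnt (s k) (kk k) : ℝ) / ∏ i, (s k i : ℝ)) =
      (1 / π) * ∫ x, G k x := by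
    filter_upwards [hupos] with k hk
    have hsk : 0 < Real.sqrt (u k) := Real.sqrt_pos.2 (by exact_mod_cast hk)
    rw [hint k]
    have h2 := intervalIntegral.integral_comp_div (a := -(π / 2) * Real.sqrt (u k))
      (b := (π / 2) * Real.sqrt (u k)) (c := Real.sqrt (u k))
      (fun t => Real.cos (r k * t) * ∏ i, phi (s k i) t) hsk.ne'
    rw [mul_div_cancel_right₀ _ hsk.ne', mul_div_cancel_right₀ _ hsk.ne'] at h2
    rw [hG]
    simp only
    rw [integral_indicator measurableSet_Ioc, ← intervalIntegral.integral_of_le, h2, smul_eq_mul]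
    · ring
    · nlinarith
  have h3 : Tendsto (fun k => ∫ x, G k x) atTop
      (nhds (∫ x, Real.cos (z * x) * Real.exp (-(v / 2) * x ^ 2))) := by
    apply tendsto_integral_filter_of_dominated_convergence
      (fun x => Real.exp (-(c * (v / 2)) * x ^ 2))
    · filter_upwards with k
      have hcont : Continuous fun x : ℝ => Real.cos (r k * (x / Real.sqrt (u k))) *
          ∏ i, phi (s k i) (x / Real.sqrt (u k)) := by
        apply Continuous.mul
        · fun_prop
        · apply continuous_finsetProd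
          intro i _
          exact (phi_cont _).comp (by fun_prop)
      exact (hcont.measurable.indicator measurableSet_Ioc).aestronglyMeasurable
    · have h4 : ∀ᶠ k in atTop, v / 2 ≤ (∑ i, vv (s k i)) / (u k : ℝ) :=
        (hlim.eventually (lt_mem_nhds (by linarith : v / 2 < v))).mono fun k hk => hk.le
      filter_upwards [hupos, h4] with k hk h4
      filter_upwards with x
      rw [hG]
      simp only
      have hk' : (0 : ℝ) < u k := by exact_mod_cast hk
      have hsk : 0 < Real.sqrt (u k) := Real.sqrt_pos.2 hk'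
      by_cases hx : x ∈ Set.Ioc (-(π / 2) * Real.sqrt (u k)) ((π / 2) * Real.sqrt (u k))
      · rw [Set.indicator_of_mem hx, Real.norm_eq_abs, abs_mul, Finset.abs_prod]
        have hxa : |x / Real.sqrt (u k)| ≤ π / 2 := by
          rw [abs_div, abs_of_pos hsk, div_le_iff₀ hsk, abs_le]
          refine ⟨?_, hx.2⟩
          have := hx.1
          linarith
        calc |Real.cos (r k * (x / Real.sqrt (u k)))| * ∏ i, |phi (s k i) (x / Real.sqrt (u k))|
            ≤ 1 * ∏ i, |phi (s k i) (x / Real.sqrt (u k))| := by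
              apply mul_le_mul_of_nonneg_right (Real.abs_cos_le_one _)
              exact Finset.prod_nonneg fun i _ => abs_nonneg _
          _ ≤ 1 * ∏ i, Real.exp (-(c * vv (s k i) * (x / Real.sqrt (u k)) ^ 2)) := by
              apply mul_le_mul_of_nonneg_left _ zero_le_one
              apply Finset.prod_le_prod (fun i _ => abs_nonneg _)
              intro i _
              exact phi_decay (hs k i) (hL k i) hxa
          _ = Real.exp (-(c * ((∑ i, vv (s k i)) / (u k : ℝ)) * x ^ 2)) := by
              rw [one_mul, ← Real.exp_sum]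
              congr 1
              rw [Finset.sum_neg_distrib, ← Finset.sum_mul, ← Finset.mul_sum, div_pow,
                Real.sq_sqrt hk'.le]
              ring
          _ ≤ Real.exp (-(c * (v / 2)) * x ^ 2) := by
              apply Real.exp_le_exp.2
              rw [neg_mul]
              apply neg_le_neg
              apply mul_le_mul_of_nonneg_right _ (sq_nonneg x)
              exact mul_le_mul_of_nonneg_left h4 hcpos.le
      · rw [Set.indicator_of_notMem hx, norm_zero]
        exact (Real.exp_pos _).le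
    · exact integrable_exp_neg_mul_sq (by positivity)
    · filter_upwards with x
      have h5 : ∀ᶠ k in atTop, G k x = Real.cos (r k * (x / Real.sqrt (u k))) *
          ∏ i, phi (s k i) (x / Real.sqrt (u k)) := by
        have h6 : ∀ᶠ k in atTop, (|x| + 1) / (π / 2) < Real.sqrt (u k) :=
          hsq.eventually_gt_atTop _
        filter_upwards [h6] with k hk
        rw [hG]
        simp only
        rw [Set.indicator_of_mem]
        rw [div_lt_iff₀ (by positivity)] at hk
        have h7 := neg_abs_le x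
        have h8 := le_abs_self x
        constructor
        · linarith
        · linarith
      rw [tendsto_congr' h5]
      have h9 : Tendsto (fun k => Real.cos (r k * (x / Real.sqrt (u k)))) atTop
          (nhds (Real.cos (z * x))) := by
        have h10 : Tendsto (fun k => r k * (x / Real.sqrt (u k))) atTop (nhds (z * x)) := by
          have h11 : Tendsto (fun k => (r k - kk k) / Real.sqrt (u k)) atTop (nhds 0) := by
            have h11' : Tendsto (fun k => 1 / Real.sqrt (u k)) atTop (nhds 0) :=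
              hsq.const_div_atTop _
            apply squeeze_zero_norm _ h11'
            intro k
            rw [Real.norm_eq_abs, abs_div, abs_of_nonneg (Real.sqrt_nonneg _)]
            exact div_le_div_of_nonneg_right (hr k) (Real.sqrt_nonneg _)
          have h11'' := (h11.add hz).mul_const x
          rw [zero_add] at h11''
          refine h11''.congr fun k => ?_
          ring
        exact (Real.continuous_cos.tendsto _).comp h10
      have h12 : Tendsto (fun k => ∏ i, phi (s k i) (x / Real.sqrt (u k))) atTop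
          (nhds (Real.exp (-(v / 2) * x ^ 2))) := by
        have h13 : Tendsto (fun k => Real.exp (-(((∑ i, vv (s k i)) / (u k : ℝ)) * x ^ 2 / 2)))
            atTop (nhds (Real.exp (-(v / 2) * x ^ 2))) := by
          apply (Real.continuous_exp.tendsto _).comp
          have := ((hlim.mul_const (x ^ 2)).div_const 2).neg
          convert this using 2
          ring
        have h14 : Tendsto (fun k => ∏ i, phi (s k i) (x / Real.sqrt (u k)) -
            Real.exp (-(((∑ i, vv (s k i)) / (u k : ℝ)) * x ^ 2 / 2))) atTop (nhds 0) := by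
          have h15 : Tendsto (fun k => (2 * (L : ℝ) ^ 4 * x ^ 4) / (u k : ℝ)) atTop (nhds 0) :=
            hu'.const_div_atTop _
          apply squeeze_zero_norm' _ h15
          filter_upwards [hupos] with k hk
          have hk' : (0 : ℝ) < u k := by exact_mod_cast hk
          have e1 : Real.exp (-(((∑ i, vv (s k i)) / (u k : ℝ)) * x ^ 2 / 2)) =
              ∏ i, Real.exp (-(vv (s k i) * (x / Real.sqrt (u k)) ^ 2 / 2)) := by
            rw [← Real.exp_sum]
            congr 1
            rw [Finset.sum_neg_distrib, ← Finset.sum_div, ← Finset.sum_mul, div_pow,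
              Real.sq_sqrt hk'.le]
            ring
          rw [e1, Real.norm_eq_abs]
          refine (abs_prod_sub _ _ _ (fun i => phi_abs (hs k i) _) (fun i => ?_)).trans ?_
          · rw [abs_of_pos (Real.exp_pos _), Real.exp_le_one_iff, neg_nonpos]
            have := vv_nonneg (s k i)
            positivity
          · calc ∑ i, |phi (s k i) (x / Real.sqrt (u k)) -
                  Real.exp (-(vv (s k i) * (x / Real.sqrt (u k)) ^ 2 / 2))|
                ≤ ∑ _i : Fin (u k), 2 * (L : ℝ) ^ 4 * (x / Real.sqrt (u k)) ^ 4 :=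
                  Finset.sum_le_sum fun i _ => phi_expand (hs k i) (hL k i) _
              _ = (2 * (L : ℝ) ^ 4 * x ^ 4) / (u k : ℝ) := by
                  rw [Finset.sum_const, Finset.card_univ, Fintype.card_fin, nsmul_eq_mul, div_pow]
                  have e2 : Real.sqrt (u k) ^ 4 = (u k : ℝ) ^ 2 := by
                    rw [show (4 : ℕ) = 2 * 2 from rfl, pow_mul, Real.sq_sqrt hk'.le]
                  rw [e2]
                  field_simp
        have := h14.add h13
        simpa using this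
      exact h9.mul h12
  rw [tendsto_congr' h1]
  have h16 := h3.const_mul (1 / π)
  rw [gauss_cos v hv] at h16
  convert h16 using 2
  rw [← mul_assoc]
  congr 1
  rw [show 2 * π / v = π ^ 2 * (2 / (π * v)) from by field_simp, Real.sqrt_mul (by positivity),
    Real.sqrt_sq hpi.le]
  field_simp

end Pool.Agent.U282.PW
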