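import Mathlib

/-! The kernel of an operator whose leading term is the lowering operator of a representation of
`sl_2`; and injectivity of the raising operator on negative weights. -/

set_option autoImplicit false

namespace Pool.Agent.U282.PW

open Module

variable {K M : Type*} [Field K] [AddCommGroup M] [Module K M]

/-- The commutation of a power of `X` with `Y`. -/
theorem pow_comm (X Y H : M →ₗ[K] M) (hXY : ∀ v, X (Y v) = Y (X v) + H v)
    (hHX : ∀ v, H (X v) = X (H v) + (2 : K) • X v) (m : ℕ) :
    ∀ (ν : K) (v : M), H v = ν • v →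
      (X ^ (m + 1)) (Y v) = Y ((X ^ (m + 1)) v) + (((m : K) + 1) * (ν + m)) • (X ^ m) v := by
  induction m with
  | zero =>
    intro ν v hv
    rw [zero_add, pow_one, hXY, hv, pow_zero, Module.End.one_apply]
    congr 2
    push_cast
    ring
  | succ m ih =>
    intro ν v hv
    have h1 : H (X v) = (ν + 2) • X v := by rw [hHX, hv, map_smul, add_smul]
    have h2 := ih (ν + 2) (X v) h1
    have e1 : (X ^ (m + 1)) (X v) = (X ^ (m + 1 + 1)) v := by
      rw [← Module.End.mul_apply, ← pow_succ]
    have e2 : (X ^ m) (X v) = (X ^ (m + 1)) v := by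
      rw [← Module.End.mul_apply, ← pow_succ]
    rw [e1, e2] at h2
    rw [pow_succ X (m + 1), Module.End.mul_apply, hXY, map_add, h2, hv, map_smul, add_assoc,
      ← add_smul, Module.End.mul_apply, e1]
    congr 2
    push_cast
    ring

/-- A vector killed by `Y` of weight at most `-m` and killed by `X ^ m` vanishes. -/
theorem low_zero [CharZero K] (X Y H : M →ₗ[K] M) (hXY : ∀ v, X (Y v) = Y (X v) + H v)
    (hHX : ∀ v, H (X v) = X (H v) + (2 : K) • X v) (m : ℕ) (ν : ℤ) (hν : ν ≤ -m) (w : M)
    (hw : H w = (ν : K) • w) (hY : Y w = 0) (hX : (X ^ m) w = 0) : w = 0 := by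
  induction m with
  | zero => simpa using hX
  | succ m ih =>
    apply ih (by push_cast at hν; omega)
    have h1 := pow_comm X Y H hXY hHX m (ν : K) w hw
    rw [hY, map_zero, hX, map_zero, zero_add] at h1
    have h2 : ((m : K) + 1) * ((ν : K) + m) ≠ 0 := by
      apply mul_ne_zero
      · exact_mod_cast Nat.succ_ne_zero m
      · intro h
        have h3 : ((ν + (m : ℤ) : ℤ) : K) = 0 := by push_cast; exact h
        have h4 : ν + (m : ℤ) = 0 := by exact_mod_cast h3
        push_cast at hν
        omega
    exact (smul_eq_zero.1 h1.symm).resolve_left h2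

/-- The power `X ^ k` is injective on the vectors of weight at most `-k`. -/
theorem raise_inj_pow [CharZero K] (X Y H : M →ₗ[K] M) (hXY : ∀ v, X (Y v) = Y (X v) + H v)
    (hHY : ∀ v, H (Y v) = Y (H v) - (2 : K) • Y v)
    (hHX : ∀ v, H (X v) = X (H v) + (2 : K) • X v) (k : ℕ) (μ : ℤ) (hμ : μ ≤ -k) (v : M)
    (hv : H v = (μ : K) • v) (hX : (X ^ k) v = 0) (N : ℕ) (hN : (Y ^ N) v = 0) : v = 0 := by
  have hw : ∀ j : ℕ, H ((Y ^ j) v) = ((μ - 2 * j : ℤ) : K) • (Y ^ j) v := by
    intro j
    induction j with
    | zero => simpa using hv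
    | succ j ih =>
      rw [pow_succ', Module.End.mul_apply, hHY, ih, map_smul, ← sub_smul]
      congr 1
      push_cast
      ring
  have hXw : ∀ j : ℕ, (X ^ (k + j)) ((Y ^ j) v) = 0 := by
    intro j
    induction j with
    | zero => simpa using hX
    | succ j ih =>
      rw [pow_succ' Y, Module.End.mul_apply, ← add_assoc, pow_comm X Y H hXY hHX _ _ _ (hw j), ih,
        smul_zero, add_zero, pow_succ', Module.End.mul_apply, ih, map_zero, map_zero]
  induction N with
  | zero => simpa using hN
  | succ N ih =>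
    apply ih
    rw [pow_succ', Module.End.mul_apply] at hN
    refine low_zero X Y H hXY hHX (k + N) (μ - 2 * N) ?_ _ (hw N) hN (hXw N)
    push_cast
    omega

/-- The kernel of an operator with a leading term of degree `-d` which is injective on the part
of degree at least `t` and surjective from the parts of degree less than `t`. -/
theorem graded_ker [FiniteDimensional K M] (A B : ℤ → Submodule K M) (R : ℕ) (d t : ℤ)
    (hd0 : 0 < d)
    (hB : ∀ m, B m = A m ⊔ B (m - 1)) (hd : ∀ m, Disjoint (A m) (B (m - 1)))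
    (hbot : ∀ m : ℤ, m < -R → B m = ⊥) (hRt : t - 1 ≤ R)
    (f D : M →ₗ[K] M) (hDA : ∀ m, ∀ x ∈ A m, D x ∈ A (m - d))
    (hfD : ∀ m, ∀ x ∈ A m, f x - D x ∈ B (m - d - 1))
    (hinj : ∀ m, t ≤ m → ∀ x ∈ A m, D x = 0 → x = 0)
    (hsur : ∀ m, m < t → ∀ y ∈ A (m - d), ∃ x ∈ A m, D x = y) :
    finrank K (B R ⊓ LinearMap.ker f : Submodule K M) + finrank K (B (t - 1 - d)) =
      finrank K (B (t - 1)) := by
  have hAB : ∀ m, A m ≤ B m := fun m => by rw [hB m]; exact le_sup_left
  have hBB : ∀ m, B (m - 1) ≤ B m := fun m => by rw [hB m]; exact le_sup_right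
  have hmono : ∀ (k : ℕ) (m : ℤ), B (m - k) ≤ B m := by
    intro k
    induction k with
    | zero => intro m; simp
    | succ k ih =>
      intro m
      have h1 : m - ((k + 1 : ℕ) : ℤ) = (m - k) - 1 := by push_cast; ring
      rw [h1]
      exact (hBB _).trans (ih m)
  have hmono' : ∀ a b : ℤ, a ≤ b → B a ≤ B b := by
    intro a b hab
    have h1 := hmono (b - a).toNat b
    have h2 : b - ((b - a).toNat : ℤ) = a := by omega
    rwa [h2] at h1
  -- `f` maps `B m` to `B (m - d)`
  have hfB : ∀ m, ∀ x ∈ B m, f x ∈ B (m - d) := by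
    have key : ∀ (k : ℕ) (m : ℤ), m ≤ k - R - 1 → ∀ x ∈ B m, f x ∈ B (m - d) := by
      intro k
      induction k with
      | zero =>
        intro m hm x hx
        rw [hbot m (by push_cast at hm; omega)] at hx
        rw [(Submodule.mem_bot K).1 hx, map_zero]
        exact Submodule.zero_mem _
      | succ k ih =>
        intro m hm x hx
        rw [hB m] at hx
        obtain ⟨a, ha, b, hb, rfl⟩ := Submodule.mem_sup.1 hx
        rw [map_add]
        apply Submodule.add_mem
        · have h1 := Submodule.add_mem _ (hmono' _ _ (by omega) (hfD m a ha))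
            (hAB _ (hDA m a ha))
          rwa [sub_add_cancel] at h1
        · exact hmono' _ _ (by omega) (ih (m - 1) (by push_cast at hm; omega) b hb)
    intro m x hx
    exact key (m + R + 1).toNat m (by omega) x hx
  -- the kernel lies in `B (t - 1)`
  have hker : ∀ x ∈ B R, f x = 0 → x ∈ B (t - 1) := by
    have key : ∀ (k : ℕ) (m : ℤ), m ≤ t - 1 + k → ∀ x ∈ B m, f x = 0 → x ∈ B (t - 1) := by
      intro k
      induction k with
      | zero =>
        intro m hm x hx _
        exact hmono' _ _ (by simpa using hm) hx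
      | succ k ih =>
        intro m hm x hx hfx
        rcases le_or_gt m (t - 1) with h0 | h0
        · exact hmono' _ _ h0 hx
        rw [hB m] at hx
        obtain ⟨a, ha, b, hb, rfl⟩ := Submodule.mem_sup.1 hx
        have h1 : D a ∈ B (m - d - 1) := by
          have e : D a = -(f a - D a) - f b + f (a + b) := by rw [map_add]; abel
          rw [e, hfx, add_zero]
          apply Submodule.sub_mem
          · exact Submodule.neg_mem _ (hfD m a ha)
          · have := hfB (m - 1) b hb
            rwa [show m - 1 - d = m - d - 1 by ring] at this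
        have h2 : D a = 0 :=
          (Submodule.disjoint_def.1 (hd (m - d))) (D a) (hDA m a ha) h1
        have h3 : a = 0 := hinj m (by omega) a ha h2
        rw [h3, zero_add]
        rw [h3, zero_add] at hfx
        exact ih (m - 1) (by push_cast at hm; omega) b hb hfx
    exact fun x hx => key (R - (t - 1)).toNat R (by omega) x hx
  -- surjectivity
  have hsu : ∀ y ∈ B (t - 1 - d), ∃ x ∈ B (t - 1), f x = y := by
    have key : ∀ (k : ℕ) (m : ℤ), m < t → m ≤ k - R - 1 → ∀ y ∈ B (m - d), ∃ x ∈ B m, f x = y := by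
      intro k
      induction k with
      | zero =>
        intro m _ hm y hy
        rw [hbot (m - d) (by push_cast at hm; omega)] at hy
        exact ⟨0, Submodule.zero_mem _, by rw [(Submodule.mem_bot K).1 hy, map_zero]⟩
      | succ k ih =>
        intro m hm0 hm y hy
        rw [hB (m - d)] at hy
        obtain ⟨a, ha, b, hb, rfl⟩ := Submodule.mem_sup.1 hy
        obtain ⟨x, hx, hxa⟩ := hsur m hm0 a ha
        have h1 : b - (f x - D x) ∈ B (m - 1 - d) := by
          rw [show m - 1 - d = m - d - 1 by ring]
          exact Submodule.sub_mem _ hb (hfD m x hx)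
        obtain ⟨z, hz, hfz⟩ := ih (m - 1) (by omega) (by push_cast at hm; omega) _ h1
        refine ⟨x + z, Submodule.add_mem _ (hAB m hx) (hBB m hz), ?_⟩
        rw [map_add, hfz, ← hxa]
        abel
    exact key (2 * R + 1) (t - 1) (by omega) (by push_cast; omega)
  have e1 : (B R ⊓ LinearMap.ker f : Submodule K M) = B (t - 1) ⊓ LinearMap.ker f := by
    apply le_antisymm
    · rintro x ⟨hx, hfx⟩
      exact ⟨hker x hx (LinearMap.mem_ker.1 hfx), hfx⟩
    · exact inf_le_inf_right _ (hmono' _ _ hRt)
  rw [e1]
  have h3 : finrank K (LinearMap.range (f.domRestrict (B (t - 1)))) +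
      finrank K (LinearMap.ker (f.domRestrict (B (t - 1)))) = finrank K (B (t - 1)) :=
    LinearMap.finrank_range_add_finrank_ker _
  have h4 : LinearMap.range (f.domRestrict (B (t - 1))) = B (t - 1 - d) := by
    ext y
    constructor
    · rintro ⟨x, rfl⟩
      exact hfB (t - 1) x.1 x.2
    · intro hy
      obtain ⟨x, hx, hxy⟩ := hsu y hy
      exact ⟨⟨x, hx⟩, hxy⟩
  have h5 : finrank K (LinearMap.ker (f.domRestrict (B (t - 1)))) =
      finrank K (B (t - 1) ⊓ LinearMap.ker f : Submodule K M) := by
    have h6 : (LinearMap.ker (f.domRestrict (B (t - 1)))).map (B (t - 1)).subtype =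
        B (t - 1) ⊓ LinearMap.ker f := by
      ext x
      constructor
      · rintro ⟨y, hy, rfl⟩
        exact ⟨y.2, hy⟩
      · rintro ⟨hx, hfx⟩
        exact ⟨⟨x, hx⟩, hfx, rfl⟩
    rw [← h6]
    exact (Submodule.equivMapOfInjective _ (Submodule.injective_subtype _) _).finrank_eq
  rw [h4, h5] at h3
  omega

end Pool.Agent.U282.PW
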