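import Mathlib

/-! Operators on tensor powers: an endomorphism acting on one factor, and the sum of these over
the factors. -/

set_option autoImplicit false

namespace Pool.Agent.U282.PW

open PiTensorProduct
open scoped TensorProduct

variable {K V : Type*} [Field K] [AddCommGroup V] [Module K V] {n : ℕ}

/-- The operator acting by `A` on the `i`-th factor. -/
noncomputable def atF (i : Fin n) (A : V →ₗ[K] V) :
    (⨂[K] _ : Fin n, V) →ₗ[K] (⨂[K] _ : Fin n, V) :=
  PiTensorProduct.map (Function.update (fun _ => LinearMap.id) i A)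

/-- The sum over the factors. -/
noncomputable def dn (n : ℕ) (A : V →ₗ[K] V) :
    (⨂[K] _ : Fin n, V) →ₗ[K] (⨂[K] _ : Fin n, V) := ∑ i, atF i A

theorem atF_tprod (i : Fin n) (A : V →ₗ[K] V) (x : Fin n → V) :
    atF i A (tprod K x) = tprod K (Function.update x i (A (x i))) := by
  rw [atF, PiTensorProduct.map_tprod]
  congr 1
  funext k
  by_cases h : k = i
  · subst h; simp
  · simp [h]

theorem atF_add (i : Fin n) (A B : V →ₗ[K] V) : atF i (A + B) = atF i A + atF i B := by
  rw [atF, PiTensorProduct.map_update_add]; rfl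

theorem atF_smul (i : Fin n) (c : K) (A : V →ₗ[K] V) : atF i (c • A) = c • atF i A := by
  rw [atF, PiTensorProduct.map_update_smul]; rfl

theorem atF_id (i : Fin n) : atF i (LinearMap.id : V →ₗ[K] V) = LinearMap.id := by
  rw [atF, Function.update_eq_self_iff.2 rfl]
  exact PiTensorProduct.map_id

theorem atF_atF (i : Fin n) (A B : V →ₗ[K] V) (t : ⨂[K] _ : Fin n, V) :
    atF i A (atF i B t) = atF i (A ∘ₗ B) t := by
  rw [atF, atF, atF, ← LinearMap.comp_apply, ← PiTensorProduct.map_comp]
  congr 2
  funext k
  by_cases h : k = i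
  · subst h; simp
  · simp [h]

theorem atF_comm {i j : Fin n} (hij : i ≠ j) (A B : V →ₗ[K] V) (t : ⨂[K] _ : Fin n, V) :
    atF i A (atF j B t) = atF j B (atF i A t) := by
  rw [atF, atF, ← LinearMap.comp_apply, ← PiTensorProduct.map_comp, ← LinearMap.comp_apply,
    ← PiTensorProduct.map_comp]
  congr 2
  funext k
  by_cases h : k = i
  · subst h; simp [hij]
  · by_cases h' : k = j
    · subst h'; simp [h]
    · simp [h, h']

theorem dn_apply (A : V →ₗ[K] V) (t : ⨂[K] _ : Fin n, V) : dn n A t = ∑ i, atF i A t := by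
  rw [dn, LinearMap.sum_apply]

theorem dn_smul (c : K) (A : V →ₗ[K] V) : dn n (c • A) = c • dn n A := by
  rw [dn, dn, Finset.smul_sum]
  exact Finset.sum_congr rfl fun i _ => atF_smul i c A

theorem dn_comm (A B C : V →ₗ[K] V) (h : ∀ v, A (B v) = B (A v) + C v)
    (t : ⨂[K] _ : Fin n, V) : dn n A (dn n B t) = dn n B (dn n A t) + dn n C t := by
  have h1 : A ∘ₗ B = B ∘ₗ A + C := LinearMap.ext h
  have h2 : ∀ i j, atF i A (atF j B t) = atF j B (atF i A t) + if i = j then atF i C t else 0 := by
    intro i j
    by_cases hij : i = j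
    · subst hij
      rw [if_pos rfl, atF_atF, atF_atF, h1, atF_add, LinearMap.add_apply]
    · rw [if_neg hij, add_zero, atF_comm hij]
  simp only [dn_apply, map_sum, h2, Finset.sum_add_distrib]
  rw [Finset.sum_comm]
  simp

/-- The tensor power of `1 + N` on a subset of the factors. -/
theorem map_insert (N : V →ₗ[K] V) (S : Finset (Fin n)) (j : Fin n) (hj : j ∉ S)
    (t : ⨂[K] _ : Fin n, V) :
    PiTensorProduct.map (fun i => if i ∈ insert j S then LinearMap.id + N else LinearMap.id) t =
      PiTensorProduct.map (fun i => if i ∈ S then LinearMap.id + N else LinearMap.id)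
        (t + atF j N t) := by
  have h1 : t + atF j N t = atF j (LinearMap.id + N) t := by
    rw [atF_add, atF_id, LinearMap.add_apply, LinearMap.id_apply]
  rw [h1, atF, ← LinearMap.comp_apply, ← PiTensorProduct.map_comp]
  congr 2
  funext k
  by_cases h : k = j
  · subst h; simp [hj]
  · simp [h]

end Pool.Agent.U282.PW
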