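import Mathlib
import Pool.Agent.U282.PW.Ker
import Pool.Agent.U282.PW.Ten

/-! The unipotent operator `u` with Jordan blocks of sizes `s j` and the kernel of `u^{⊗ n} - 1`. -/

set_option autoImplicit false

namespace Pool.Agent.U282.PW

open Module PiTensorProduct
open scoped TensorProduct

variable {K V : Type*} [Field K] [AddCommGroup V] [Module K V] {n : ℕ}
variable {J : Type*} {s : J → ℕ}

/-- The weight of a basis vector. -/
def wt (x : Σ j, Fin (s j)) : ℤ := (s x.1 : ℤ) - 1 - 2 * ((x.2 : ℕ) : ℤ)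

/-- The weight of a vector of the basis of the tensor power. -/
def ht (c : Fin n → Σ j, Fin (s j)) : ℤ := ∑ i, wt (c i)

/-- The operator moves basis vectors to multiples of basis vectors of the same block, with weight
larger by `d`. -/
def IsShift (b : Basis (Σ j, Fin (s j)) K V) (A : V →ₗ[K] V) (d : ℤ) : Prop :=
  ∀ x, ∃ (k : K) (y : Σ j, Fin (s j)), A (b x) = k • b y ∧ (k = 0 ∨ (y.1 = x.1 ∧ wt y = wt x + d))

/-- The basis of the tensor power. -/
noncomputable def tb (n : ℕ) (b : Basis (Σ j, Fin (s j)) K V) :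
    Basis (Fin n → Σ j, Fin (s j)) K (⨂[K] _ : Fin n, V) :=
  Basis.piTensorProduct (fun _ : Fin n => b)

theorem tb_apply (b : Basis (Σ j, Fin (s j)) K V) (c : Fin n → Σ j, Fin (s j)) :
    tb n b c = tprod K (fun i => b (c i)) := by
  rw [tb, Basis.piTensorProduct_apply]

/-- The span of the basis vectors of weight `m` whose tuple of blocks satisfies `P`. -/
def pA (b : Basis (Σ j, Fin (s j)) K V) (P : (Fin n → J) → Prop) (m : ℤ) :
    Submodule K (⨂[K] _ : Fin n, V) :=
  Submodule.span K ((tb n b) '' {c | P (fun i => (c i).1) ∧ ht c = m})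

/-- The span of the basis vectors of weight at most `m` whose tuple of blocks satisfies `P`. -/
def pB (b : Basis (Σ j, Fin (s j)) K V) (P : (Fin n → J) → Prop) (m : ℤ) :
    Submodule K (⨂[K] _ : Fin n, V) :=
  Submodule.span K ((tb n b) '' {c | P (fun i => (c i).1) ∧ ht c ≤ m})

theorem atF_tb (b : Basis (Σ j, Fin (s j)) K V) (A : V →ₗ[K] V) (i : Fin n)
    (c : Fin n → Σ j, Fin (s j)) (k : K) (y : Σ j, Fin (s j)) (h : A (b (c i)) = k • b y) :
    atF i A (tb n b c) = k • tb n b (Function.update c i y) := by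
  rw [tb_apply, atF_tprod, h, MultilinearMap.map_update_smul, tb_apply]
  congr 2
  funext l
  by_cases hl : l = i
  · subst hl; simp
  · simp [hl]

theorem ht_update (c : Fin n → Σ j, Fin (s j)) (i : Fin n) (y : Σ j, Fin (s j)) :
    ht (Function.update c i y) = ht c - wt (c i) + wt y := by
  rw [ht, ht, ← Finset.add_sum_erase _ _ (Finset.mem_univ i),
    ← Finset.add_sum_erase Finset.univ (fun l => wt (c l)) (Finset.mem_univ i)]
  rw [Function.update_self]
  have : ∑ x ∈ Finset.univ.erase i, wt (Function.update c i y x) =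
      ∑ x ∈ Finset.univ.erase i, wt (c x) := by
    apply Finset.sum_congr rfl
    intro l hl
    rw [Function.update_of_ne (Finset.ne_of_mem_erase hl)]
  rw [this]
  ring

theorem fst_update (c : Fin n → Σ j, Fin (s j)) (i : Fin n) (y : Σ j, Fin (s j))
    (h : y.1 = (c i).1) : (fun l => (Function.update c i y l).1) = fun l => (c l).1 := by
  funext l
  by_cases hl : l = i
  · subst hl; simp [h]
  · simp [hl]

theorem atF_mem_pA (b : Basis (Σ j, Fin (s j)) K V) (P : (Fin n → J) → Prop) (A : V →ₗ[K] V)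
    (d : ℤ) (hA : IsShift b A d) (i : Fin n) (m : ℤ) (x : ⨂[K] _ : Fin n, V)
    (hx : x ∈ pA b P m) : atF i A x ∈ pA b P (m + d) := by
  unfold pA at hx
  induction hx using Submodule.span_induction with
  | mem x hx =>
    obtain ⟨c, ⟨hP, hc⟩, rfl⟩ := hx
    obtain ⟨k, y, hk, h⟩ := hA (c i)
    rw [atF_tb b A i c k y hk]
    rcases h with h | ⟨h1, h2⟩
    · rw [h, zero_smul]; exact Submodule.zero_mem _
    · apply Submodule.smul_mem
      apply Submodule.subset_span
      refine ⟨_, ⟨?_, ?_⟩, rfl⟩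
      · rw [fst_update c i y h1]; exact hP
      · rw [ht_update, h2, hc]; ring
  | zero => rw [map_zero]; exact Submodule.zero_mem _
  | add x y _ _ hx hy => rw [map_add]; exact Submodule.add_mem _ hx hy
  | smul a x _ hx => rw [map_smul]; exact Submodule.smul_mem _ _ hx

theorem dn_mem_pA (b : Basis (Σ j, Fin (s j)) K V) (P : (Fin n → J) → Prop) (A : V →ₗ[K] V)
    (d : ℤ) (hA : IsShift b A d) (m : ℤ) (x : ⨂[K] _ : Fin n, V)
    (hx : x ∈ pA b P m) : dn n A x ∈ pA b P (m + d) := by
  rw [dn_apply]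
  exact Submodule.sum_mem _ fun i _ => atF_mem_pA b P A d hA i m x hx

theorem dn_pow_mem_pA (b : Basis (Σ j, Fin (s j)) K V) (P : (Fin n → J) → Prop) (A : V →ₗ[K] V)
    (d : ℤ) (hA : IsShift b A d) (k : ℕ) (m : ℤ) (x : ⨂[K] _ : Fin n, V)
    (hx : x ∈ pA b P m) : ((dn n A) ^ k) x ∈ pA b P (m + k * d) := by
  induction k with
  | zero => simpa using hx
  | succ k ih =>
    rw [pow_succ', Module.End.mul_apply]
    have := dn_mem_pA b P A d hA _ _ ih
    have e : m + k * d + d = m + ((k + 1 : ℕ) : ℤ) * d := by push_cast; ring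
    rwa [e] at this

section ops

variable (b : Basis (Σ j, Fin (s j)) K V)

/-- The lowering operator. -/
noncomputable def opN : V →ₗ[K] V :=
  b.constr K fun x => if h : (x.2 : ℕ) + 1 < s x.1 then b ⟨x.1, ⟨(x.2 : ℕ) + 1, h⟩⟩ else 0

/-- The raising operator. -/
noncomputable def opE : V →ₗ[K] V :=
  b.constr K fun x => if h : 0 < (x.2 : ℕ) then
    (((x.2 : ℕ) : K) * ((s x.1 : K) - ((x.2 : ℕ) : K))) •
      b ⟨x.1, ⟨(x.2 : ℕ) - 1, lt_of_le_of_lt (Nat.sub_le _ _) x.2.2⟩⟩ else 0

/-- The weight operator. -/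
noncomputable def opH : V →ₗ[K] V := b.constr K fun x => ((wt x : ℤ) : K) • b x

theorem opN_pos (j : J) (a : ℕ) (h : a + 1 < s j) :
    opN b (b ⟨j, ⟨a, (Nat.lt_succ_self a).trans h⟩⟩) = b ⟨j, ⟨a + 1, h⟩⟩ := by
  rw [opN, Basis.constr_basis, dif_pos h]

theorem opN_last (j : J) (a : ℕ) (ha : a < s j) (h : ¬ a + 1 < s j) :
    opN b (b ⟨j, ⟨a, ha⟩⟩) = 0 := by
  rw [opN, Basis.constr_basis, dif_neg h]

theorem opE_zero (j : J) (ha : 0 < s j) : opE b (b ⟨j, ⟨0, ha⟩⟩) = 0 := by
  rw [opE, Basis.constr_basis, dif_neg (lt_irrefl 0)]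

theorem opE_succ (j : J) (a : ℕ) (ha : a + 1 < s j) : opE b (b ⟨j, ⟨a + 1, ha⟩⟩) =
    (((a : K) + 1) * ((s j : K) - ((a : K) + 1))) •
      b ⟨j, ⟨a, (Nat.lt_succ_self a).trans ha⟩⟩ := by
  rw [opE, Basis.constr_basis, dif_pos (Nat.succ_pos a)]
  push_cast
  rfl

theorem opH_b (x : Σ j, Fin (s j)) : opH b (b x) = ((wt x : ℤ) : K) • b x := by
  rw [opH, Basis.constr_basis]

theorem shift_N : IsShift b (opN b) (-2) := by
  rintro ⟨j, a, ha⟩
  by_cases h : a + 1 < s j
  · refine ⟨1, ⟨j, ⟨a + 1, h⟩⟩, by rw [opN_pos b j a h, one_smul], Or.inr ⟨rfl, ?_⟩⟩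
    simp only [wt]
    push_cast
    ring
  · exact ⟨0, ⟨j, ⟨a, ha⟩⟩, by rw [opN_last b j a ha h, zero_smul], Or.inl rfl⟩

theorem shift_E : IsShift b (opE b) 2 := by
  rintro ⟨j, a, ha⟩
  cases a with
  | zero => exact ⟨0, ⟨j, ⟨0, ha⟩⟩, by rw [opE_zero, zero_smul], Or.inl rfl⟩
  | succ a =>
    refine ⟨_, _, opE_succ b j a ha, Or.inr ⟨rfl, ?_⟩⟩
    simp only [wt]
    push_cast
    ring

theorem rel_EN (v : V) : opE b (opN b v) = opN b (opE b v) + opH b v := by
  have h : opE b ∘ₗ opN b = opN b ∘ₗ opE b + opH b := by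
    apply b.ext
    rintro ⟨j, a, ha⟩
    simp only [LinearMap.comp_apply, LinearMap.add_apply]
    have h1 : opE b (opN b (b ⟨j, ⟨a, ha⟩⟩)) =
        (((a : K) + 1) * ((s j : K) - (a + 1))) • b ⟨j, ⟨a, ha⟩⟩ := by
      by_cases h : a + 1 < s j
      · rw [opN_pos b j a h, opE_succ b j a h]
      · have h2 : (s j : K) = a + 1 := by
          have : s j = a + 1 := by omega
          rw [this]; push_cast; ring
        rw [opN_last b j a ha h, map_zero, h2, sub_self, mul_zero, zero_smul]
    have h2 : opN b (opE b (b ⟨j, ⟨a, ha⟩⟩)) =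
        ((a : K) * ((s j : K) - (a : K))) • b ⟨j, ⟨a, ha⟩⟩ := by
      cases a with
      | zero => rw [opE_zero]; simp
      | succ a =>
        rw [opE_succ b j a ha, map_smul, opN_pos b j a ha]
        push_cast
        rfl
    rw [h1, h2, opH_b, ← add_smul]
    congr 1
    simp only [wt]
    push_cast
    ring
  exact LinearMap.congr_fun h v

theorem rel_HN (v : V) : opH b (opN b v) = opN b (opH b v) + ((-2 : K) • opN b) v := by
  have h : opH b ∘ₗ opN b = opN b ∘ₗ opH b + (-2 : K) • opN b := by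
    apply b.ext
    rintro ⟨j, a, ha⟩
    simp only [LinearMap.comp_apply, LinearMap.add_apply, LinearMap.smul_apply]
    rw [opH_b, map_smul]
    by_cases h : a + 1 < s j
    · rw [opN_pos b j a h, opH_b, ← add_smul]
      congr 1
      simp only [wt]
      push_cast
      ring
    · rw [opN_last b j a ha h]
      simp
  exact LinearMap.congr_fun h v

theorem rel_HE (v : V) : opH b (opE b v) = opE b (opH b v) + ((2 : K) • opE b) v := by
  have h : opH b ∘ₗ opE b = opE b ∘ₗ opH b + (2 : K) • opE b := by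
    apply b.ext
    rintro ⟨j, a, ha⟩
    simp only [LinearMap.comp_apply, LinearMap.add_apply, LinearMap.smul_apply]
    rw [opH_b, map_smul]
    cases a with
    | zero => rw [opE_zero]; simp
    | succ a =>
      rw [opE_succ b j a ha, map_smul, opH_b, smul_smul, smul_smul, smul_smul, ← add_smul]
      congr 1
      simp only [wt]
      push_cast
      ring
  exact LinearMap.congr_fun h v

end ops

end Pool.Agent.U282.PW
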