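import Mathlib
import Pool.Agent.U282.PW.Loc2
import Pool.Agent.U282.PW.Cnt
import Pool.Agent.U282.PW.Str

/-! The ratio of the numbers of weight vectors. -/

set_option autoImplicit false

namespace Pool.Agent.U282.PW

open Real Filter
open scoped Filter

/-- The limit. -/
noncomputable def kap (v z : ℝ) : ℝ := Real.sqrt (2 / (π * v)) * Real.exp (-(z ^ 2 / (2 * v)))

/-- The local limit theorem, uniformly. -/
theorem local_uniform (L : ℕ) (v : ℝ) (hv : 0 < v) (kk : ℕ → ℕ) (z : ℝ)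
    (hz : Tendsto (fun n : ℕ => (kk n : ℝ) / Real.sqrt n) atTop (nhds z)) (ε : ℝ) (hε : 0 < ε) :
    ∃ η : ℝ, 0 < η ∧ ∃ n0 : ℕ, ∀ n, n0 ≤ n → ∀ s : Fin n → ℕ, (∀ i, 0 < s i) → (∀ i, s i ≤ L) →
      |(∑ i, vv (s i)) / (n : ℝ) - v| < η →
      |Real.sqrt n * ((cnt s (kk n) : ℝ) / ∏ i, (s i : ℝ)) - kap v z| < ε := by
  by_contra hcon
  push Not at hcon
  have h1 : ∀ k : ℕ, ∃ n, k ≤ n ∧ ∃ s : Fin n → ℕ, (∀ i, 0 < s i) ∧ (∀ i, s i ≤ L) ∧
      |(∑ i, vv (s i)) / (n : ℝ) - v| < 1 / ((k : ℝ) + 1) ∧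
      ε ≤ |Real.sqrt n * ((cnt s (kk n) : ℝ) / ∏ i, (s i : ℝ)) - kap v z| := fun k =>
    hcon (1 / ((k : ℝ) + 1)) (by positivity) k
  choose u hu s hs hL hlim hbad using h1
  have hut : Tendsto u atTop atTop := tendsto_atTop_mono hu tendsto_id
  have hlim' : Tendsto (fun k => (∑ i, vv (s k i)) / (u k : ℝ)) atTop (nhds v) := by
    rw [tendsto_iff_norm_sub_tendsto_zero]
    apply squeeze_zero (fun _ => norm_nonneg _) (fun k => (hlim k).le)
    exact tendsto_one_div_add_atTop_nhds_zero_nat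
  have h2 := local_limit L u hut s hs hL v hv hlim' (fun k => kk (u k)) z (hz.comp hut)
  rw [Metric.tendsto_atTop] at h2
  obtain ⟨N, hN⟩ := h2 ε hε
  have h3 := hN N le_rfl
  rw [Real.dist_eq] at h3
  exact absurd h3 (not_lt.2 (hbad N))

theorem cnt_le {n : ℕ} (s : Fin n → ℕ) (k : ℕ) : cnt s k ≤ ∏ i, s i := by
  classical
  have h1 : ∏ i, s i = Fintype.card (∀ i, Fin (s i)) := by simp
  rw [h1, cnt, Nat.card_eq_fintype_card, Nat.card_eq_fintype_card, Fintype.card_subtype,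
    Fintype.card_subtype, ← Finset.card_union_of_disjoint]
  · exact Finset.card_le_univ _
  · rw [Finset.disjoint_left]
    intro a h2 h3
    have h4 : hh s a = k := (Finset.mem_filter.1 h2).2
    have h5 : hh s a = -k - 1 := (Finset.mem_filter.1 h3).2
    omega

section fiber

variable {J : Type*} [Fintype J] {s : J → ℕ} {n : ℕ}

/-- Tuples of basis vectors as tuples of blocks with tuples of positions. -/
def pse (n : ℕ) (s : J → ℕ) : (Fin n → Σ j, Fin (s j)) ≃ Σ j : Fin n → J, ∀ i, Fin (s (j i)) where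
  toFun c := ⟨fun i => (c i).1, fun i => (c i).2⟩
  invFun p := fun i => ⟨p.1 i, p.2 i⟩
  left_inv _ := rfl
  right_inv _ := rfl

open Classical in
theorem card_fiber (P : (Fin n → J) → Prop) (m : ℤ) :
    Nat.card {c : Fin n → Σ j, Fin (s j) | P (fun i => (c i).1) ∧ ht c = m} =
      ∑ j : Fin n → J, if P j then
        Nat.card {a : ∀ i, Fin (s (j i)) | hh (fun i => s (j i)) a = m} else 0 := by
  rw [Nat.card_eq_fintype_card, Fintype.card_subtype, Finset.card_eq_sum_ones,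
    Finset.sum_filter]
  rw [← Equiv.sum_comp (pse n s).symm, Fintype.sum_sigma]
  apply Finset.sum_congr rfl
  intro j _
  have h1 : ∀ a : ∀ i, Fin (s (j i)), (((pse n s).symm ⟨j, a⟩) ∈
      {c : Fin n → Σ j, Fin (s j) | P (fun i => (c i).1) ∧ ht c = m}) ↔
      (P j ∧ hh (fun i => s (j i)) a = m) := fun a => Iff.rfl
  simp only [h1]
  by_cases hP : P j
  · rw [if_pos hP, Nat.card_eq_fintype_card, Fintype.card_subtype, Finset.card_eq_sum_ones,
      Finset.sum_filter]
    apply Finset.sum_congr rfl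
    intro a _
    simp only [hP, true_and]
    rfl
  · rw [if_neg hP]
    apply Finset.sum_eq_zero
    intro a _
    rw [if_neg]
    exact fun h => hP h.1

open Classical in
theorem card_fiber' (Q : (Fin n → J) → Prop) :
    Nat.card {c : Fin n → Σ j, Fin (s j) | Q (fun i => (c i).1)} =
      ∑ j : Fin n → J, if Q j then ∏ i, s (j i) else 0 := by
  rw [Nat.card_eq_fintype_card, Fintype.card_subtype, Finset.card_eq_sum_ones,
    Finset.sum_filter]
  rw [← Equiv.sum_comp (pse n s).symm, Fintype.sum_sigma]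
  apply Finset.sum_congr rfl
  intro j _
  have h1 : ∀ a : ∀ i, Fin (s (j i)), (((pse n s).symm ⟨j, a⟩) ∈
      {c : Fin n → Σ j, Fin (s j) | Q (fun i => (c i).1)}) ↔ Q j := fun a => Iff.rfl
  simp only [h1]
  by_cases hP : Q j
  · rw [if_pos hP]
    simp [hP]
  · rw [if_neg hP]
    simp [hP]

end fiber

section ratio

variable {J : Type*} [Fintype J] {s : J → ℕ}

/-- The mean of the variances of the blocks. -/
noncomputable def vbar (s : J → ℕ) : ℝ :=
  (∑ x : Σ j, Fin (s j), vv (s x.1)) / Fintype.card (Σ j, Fin (s j))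

/-- Few words have an untypical variance. -/
theorem few_bad [Nonempty (Σ j, Fin (s j))] (η : ℝ) (hη : 0 < η) :
    ∃ ρ : ℝ, 0 < ρ ∧ ρ < 1 ∧ ∀ n : ℕ, 0 < n →
      ((Nat.card {c : Fin n → Σ j, Fin (s j) |
        ¬ |(∑ i, vv (s (c i).1)) / (n : ℝ) - vbar s| < η} : ℕ) : ℝ) ≤
        2 * (ρ * Fintype.card (Σ j, Fin (s j))) ^ n := by
  classical
  set b : ℝ := ((Fintype.card (Σ j, Fin (s j)) : ℕ) : ℝ) with hb
  have hb0 : 0 < b := by rw [hb]; exact_mod_cast Fintype.card_pos
  have hmean : ∑ x : Σ j, Fin (s j), vv (s x.1) = b * vbar s := by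
    rw [vbar, ← hb]; field_simp
  have h1 : ∑ x : Σ j, Fin (s j), (vv (s x.1) - vbar s - η) < 0 := by
    rw [Finset.sum_sub_distrib, Finset.sum_sub_distrib, hmean]
    simp only [Finset.sum_const, Finset.card_univ, nsmul_eq_mul]
    rw [← hb]
    nlinarith
  have h2 : ∑ x : Σ j, Fin (s j), (-(vv (s x.1)) + vbar s - η) < 0 := by
    rw [Finset.sum_sub_distrib, Finset.sum_add_distrib, Finset.sum_neg_distrib, hmean]
    simp only [Finset.sum_const, Finset.card_univ, nsmul_eq_mul]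
    rw [← hb]
    nlinarith
  obtain ⟨r1, h11, h12, h13⟩ := chernoff _ h1
  obtain ⟨r2, h21, h22, h23⟩ := chernoff _ h2
  refine ⟨max r1 r2, lt_max_of_lt_left h11, max_lt h12 h22, fun n hn => ?_⟩
  have hn' : (0 : ℝ) < n := by exact_mod_cast hn
  have h3 : Nat.card {c : Fin n → Σ j, Fin (s j) |
        ¬ |(∑ i, vv (s (c i).1)) / (n : ℝ) - vbar s| < η} ≤
      Nat.card {c : Fin n → Σ j, Fin (s j) | 0 ≤ ∑ i, (vv (s (c i).1) - vbar s - η)} +
      Nat.card {c : Fin n → Σ j, Fin (s j) | 0 ≤ ∑ i, (-(vv (s (c i).1)) + vbar s - η)} := by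
    rw [Nat.card_eq_fintype_card, Nat.card_eq_fintype_card, Nat.card_eq_fintype_card,
      Fintype.card_subtype, Fintype.card_subtype, Fintype.card_subtype]
    refine (Finset.card_le_card ?_).trans (Finset.card_union_le _ _)
    intro c hc
    have hc' : ¬ |(∑ i, vv (s (c i).1)) / (n : ℝ) - vbar s| < η := (Finset.mem_filter.1 hc).2
    rw [not_lt, le_abs] at hc'
    rw [Finset.mem_union, Finset.mem_filter, Finset.mem_filter]
    rcases hc' with h | h
    · left
      refine ⟨Finset.mem_univ _, ?_⟩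
      change 0 ≤ ∑ i, (vv (s (c i).1) - vbar s - η)
      rw [Finset.sum_sub_distrib, Finset.sum_sub_distrib]
      simp only [Finset.sum_const, Finset.card_univ, Fintype.card_fin, nsmul_eq_mul]
      rw [le_sub_iff_add_le, le_div_iff₀ hn'] at h
      linarith
    · right
      refine ⟨Finset.mem_univ _, ?_⟩
      change 0 ≤ ∑ i, (-(vv (s (c i).1)) + vbar s - η)
      rw [Finset.sum_sub_distrib, Finset.sum_add_distrib, Finset.sum_neg_distrib]
      simp only [Finset.sum_const, Finset.card_univ, Fintype.card_fin, nsmul_eq_mul]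
      have h5 : (∑ i, vv (s (c i).1)) / (n : ℝ) ≤ vbar s - η := by linarith
      rw [div_le_iff₀ hn'] at h5
      linarith
  calc _ ≤ ((Nat.card {c : Fin n → Σ j, Fin (s j) | 0 ≤ ∑ i, (vv (s (c i).1) - vbar s - η)} +
      Nat.card {c : Fin n → Σ j, Fin (s j) | 0 ≤ ∑ i, (-(vv (s (c i).1)) + vbar s - η)} : ℕ) : ℝ) :=
        by exact_mod_cast h3
    _ ≤ (r1 * b) ^ n + (r2 * b) ^ n := by
        push_cast
        exact add_le_add (h13 n) (h23 n)
    _ ≤ (max r1 r2 * b) ^ n + (max r1 r2 * b) ^ n := by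
        apply add_le_add
        · exact pow_le_pow_left₀ (by positivity)
            (mul_le_mul_of_nonneg_right (le_max_left _ _) hb0.le) n
        · exact pow_le_pow_left₀ (by positivity)
            (mul_le_mul_of_nonneg_right (le_max_right _ _) hb0.le) n
    _ = _ := by ring

/-- The ratio limit. -/
theorem ratio_limit [Nonempty (Σ j, Fin (s j))] (hs : ∀ j, 0 < s j) (hv : 0 < vbar s)
    (kk : ℕ → ℕ) (z : ℝ)
    (hz : Tendsto (fun n : ℕ => (kk n : ℝ) / Real.sqrt n) atTop (nhds z))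
    (P : ∀ n : ℕ, (Fin n → J) → Prop) (C D : ℕ) (N : Set ℕ)
    (hP : ∀ n ∈ N, (Fintype.card (Σ j, Fin (s j))) ^ n ≤
      C * (n + 1) ^ D * Nat.card {c : Fin n → Σ j, Fin (s j) | P n (fun i => (c i).1)}) :
    Tendsto (fun n : ℕ => Real.sqrt n *
      (((Nat.card {c : Fin n → Σ j, Fin (s j) | P n (fun i => (c i).1) ∧ ht c = kk n} +
        Nat.card {c : Fin n → Σ j, Fin (s j) |
          P n (fun i => (c i).1) ∧ ht c = -(kk n) - 1} : ℕ) : ℝ) /
      ((Nat.card {c : Fin n → Σ j, Fin (s j) | P n (fun i => (c i).1)} : ℕ) : ℝ)))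
      (atTop ⊓ 𝓟 N) (nhds (kap (vbar s) z)) := by
  classical
  set b : ℕ := Fintype.card (Σ j, Fin (s j)) with hb
  have hb0 : 0 < b := Fintype.card_pos
  have hb0' : (0 : ℝ) < b := by exact_mod_cast hb0
  set κ := kap (vbar s) z with hκ
  have hκ0 : 0 ≤ κ := mul_nonneg (Real.sqrt_nonneg _) (Real.exp_pos _).le
  set T : ℕ → ℕ := fun n =>
    Nat.card {c : Fin n → Σ j, Fin (s j) | P n (fun i => (c i).1) ∧ ht c = kk n} +
    Nat.card {c : Fin n → Σ j, Fin (s j) | P n (fun i => (c i).1) ∧ ht c = -(kk n) - 1} with hT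
  set G : ℕ → ℕ := fun n => Nat.card {c : Fin n → Σ j, Fin (s j) | P n (fun i => (c i).1)} with hG
  have hGpos : ∀ n ∈ N, 0 < G n := by
    intro n hnN
    by_contra h0
    have h1 := hP n hnN
    have h2 : G n = 0 := by omega
    rw [show Nat.card {c : Fin n → Σ j, Fin (s j) | P n (fun i => (c i).1)} = 0 from h2,
      mul_zero] at h1
    have := pow_pos hb0 n
    omega
  have hTsum : ∀ n, (T n : ℝ) = ∑ j : Fin n → J, if P n j then
      (cnt (fun i => s (j i)) (kk n) : ℝ) else 0 := by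
    intro n
    rw [hT]
    simp only
    rw [card_fiber (P n) (kk n), card_fiber (P n) (-(kk n) - 1), ← Finset.sum_add_distrib]
    push_cast
    apply Finset.sum_congr rfl
    intro j _
    split_ifs
    · rw [cnt]; push_cast; rfl
    · simp
  have hGsum : ∀ n, (G n : ℝ) = ∑ j : Fin n → J, if P n j then
      ∏ i, (s (j i) : ℝ) else 0 := by
    intro n
    rw [hG]
    simp only
    rw [card_fiber' (P n)]
    push_cast
    rfl
  set L : ℕ := ∑ j, s j with hL
  have hsL : ∀ j, s j ≤ L := fun j => Finset.single_le_sum (fun _ _ => Nat.zero_le _)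
    (Finset.mem_univ j)
  rw [Metric.tendsto_nhds]
  intro ε hε
  rw [Filter.eventually_inf_principal, Filter.eventually_atTop]
  obtain ⟨η, hη, n0, hloc⟩ := local_uniform L (vbar s) hv kk z hz (ε / 2) (by positivity)
  obtain ⟨ρ, hρ0, hρ1, hbad⟩ := few_bad (s := s) η hη
  have hpoly : Tendsto (fun n : ℕ => (C : ℝ) * 2 * (1 + κ) * ρ⁻¹ *
      (((n + 1 : ℕ) : ℝ) ^ (D + 1) * ρ ^ (n + 1))) atTop (nhds 0) := by
    have h1 := (tendsto_pow_const_mul_const_pow_of_abs_lt_one (D + 1)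
      (r := ρ) (by rwa [abs_of_pos hρ0])).comp (tendsto_add_atTop_nat 1)
    have h2 := h1.const_mul ((C : ℝ) * 2 * (1 + κ) * ρ⁻¹)
    rw [mul_zero] at h2
    exact h2
  obtain ⟨n1, hn1⟩ := (Metric.tendsto_atTop.1 hpoly) (ε / 2) (by positivity)
  refine ⟨max (max n0 n1) 1, fun n hn hnN => ?_⟩
  have hn0 : n0 ≤ n := le_trans (le_max_left _ _) (le_trans (le_max_left _ _) hn)
  have hn1' : n1 ≤ n := le_trans (le_max_right _ _) (le_trans (le_max_left _ _) hn)
  have hnpos : 0 < n := le_trans (le_max_right _ _) hn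
  have hn' : (0 : ℝ) < n := by exact_mod_cast hnpos
  have hGn : (0 : ℝ) < G n := by exact_mod_cast hGpos n hnN
  have hsqn : Real.sqrt n ≤ n := by
    rw [Real.sqrt_le_left hn'.le]
    have : (1 : ℝ) ≤ n := by exact_mod_cast hnpos
    nlinarith
  -- the main estimate
  have key : |Real.sqrt n * T n - κ * G n| ≤
      ε / 2 * G n + (n + κ) * (2 * (ρ * b) ^ n) := by
    rw [hTsum, hGsum, Finset.mul_sum, Finset.mul_sum, ← Finset.sum_sub_distrib]
    refine (Finset.abs_sum_le_sum_abs _ _).trans ?_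
    have h1 : ∀ j : Fin n → J, |Real.sqrt n * (if P n j then (cnt (fun i => s (j i)) (kk n) : ℝ) else 0) -
        κ * (if P n j then ∏ i, (s (j i) : ℝ) else 0)| ≤
        ε / 2 * (if P n j then ∏ i, (s (j i) : ℝ) else 0) + (n + κ) *
        (if ¬ |(∑ i, vv (s (j i))) / (n : ℝ) - vbar s| < η then ∏ i, (s (j i) : ℝ) else 0) := by
      intro j
      have hpr : (0 : ℝ) < ∏ i, (s (j i) : ℝ) := Finset.prod_pos fun i _ => by
        exact_mod_cast hs (j i)
      by_cases hPj : P n j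
      · rw [if_pos hPj, if_pos hPj]
        have e1 : Real.sqrt n * (cnt (fun i => s (j i)) (kk n) : ℝ) - κ * ∏ i, (s (j i) : ℝ) =
            (∏ i, (s (j i) : ℝ)) * (Real.sqrt n * ((cnt (fun i => s (j i)) (kk n) : ℝ) /
              ∏ i, (s (j i) : ℝ)) - κ) := by
          field_simp
        rw [e1, abs_mul, abs_of_pos hpr]
        by_cases hgood : |(∑ i, vv (s (j i))) / (n : ℝ) - vbar s| < η
        · rw [if_neg (not_not.2 hgood), mul_zero, add_zero, mul_comm]
          apply mul_le_mul_of_nonneg_right _ hpr.le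
          exact (hloc n hn0 (fun i => s (j i)) (fun i => hs _) (fun i => hsL _) hgood).le
        · rw [if_pos hgood]
          have e2 : (cnt (fun i => s (j i)) (kk n) : ℝ) / ∏ i, (s (j i) : ℝ) ≤ 1 := by
            rw [div_le_one hpr]
            have := cnt_le (fun i => s (j i)) (kk n)
            exact_mod_cast this
          have e3 : 0 ≤ (cnt (fun i => s (j i)) (kk n) : ℝ) / ∏ i, (s (j i) : ℝ) := by positivity
          have e4 : |Real.sqrt n * ((cnt (fun i => s (j i)) (kk n) : ℝ) /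
              ∏ i, (s (j i) : ℝ)) - κ| ≤ n + κ := by
            have h5 : Real.sqrt n * ((cnt (fun i => s (j i)) (kk n) : ℝ) / ∏ i, (s (j i) : ℝ)) ≤ n := by
              calc _ ≤ Real.sqrt n * 1 := mul_le_mul_of_nonneg_left e2 (Real.sqrt_nonneg _)
                _ ≤ n := by rw [mul_one]; exact hsqn
            have h6 : 0 ≤ Real.sqrt n * ((cnt (fun i => s (j i)) (kk n) : ℝ) /
              ∏ i, (s (j i) : ℝ)) := mul_nonneg (Real.sqrt_nonneg _) e3
            rw [abs_le]
            constructor <;> linarith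
          have e5 := mul_le_mul_of_nonneg_left e4 hpr.le
          have e6 : 0 ≤ ε / 2 * ∏ i, (s (j i) : ℝ) := by positivity
          linarith
      · rw [if_neg hPj, if_neg hPj]
        simp only [mul_zero, sub_zero, abs_zero, zero_add]
        apply mul_nonneg (by positivity)
        split_ifs <;> first | exact hpr.le | exact le_rfl
    refine (Finset.sum_le_sum fun j _ => h1 j).trans ?_
    rw [Finset.sum_add_distrib, ← Finset.mul_sum, ← Finset.mul_sum]
    apply add_le_add le_rfl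
    apply mul_le_mul_of_nonneg_left _ (by positivity)
    have h2 := hbad n hnpos
    have h3 := card_fiber' (s := s) (n := n)
      (fun j => ¬ |(∑ i, vv (s (j i))) / (n : ℝ) - vbar s| < η)
    rw [h3] at h2
    push_cast at h2
    refine le_trans (le_of_eq ?_) h2
    rfl
  have hP' : (b : ℝ) ^ n ≤ (C : ℝ) * ((n + 1 : ℕ) : ℝ) ^ D * G n := by
    exact_mod_cast hP n hnN
  rw [Real.dist_eq]
  have e7 : Real.sqrt n * ((T n : ℝ) / (G n : ℝ)) - κ =
      (Real.sqrt n * T n - κ * G n) / G n := by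
    field_simp
  rw [e7, abs_div, abs_of_pos hGn, div_lt_iff₀ hGn]
  refine key.trans_lt ?_
  have h8 : (n + κ) * (2 * (ρ * b) ^ n) ≤ ((C : ℝ) * 2 * (1 + κ) * ρ⁻¹ *
      (((n + 1 : ℕ) : ℝ) ^ (D + 1) * ρ ^ (n + 1))) * G n := by
    have h9 : (n : ℝ) + κ ≤ (1 + κ) * ((n + 1 : ℕ) : ℝ) := by
      push_cast
      nlinarith
    calc (n + κ) * (2 * (ρ * b) ^ n)
        ≤ ((1 + κ) * ((n + 1 : ℕ) : ℝ)) * (2 * (ρ * b) ^ n) :=
          mul_le_mul_of_nonneg_right h9 (by positivity)
      _ = ((1 + κ) * ((n + 1 : ℕ) : ℝ)) * 2 * ρ ^ n * (b : ℝ) ^ n := by rw [mul_pow]; ring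
      _ ≤ ((1 + κ) * ((n + 1 : ℕ) : ℝ)) * 2 * ρ ^ n *
          ((C : ℝ) * ((n + 1 : ℕ) : ℝ) ^ D * G n) :=
          mul_le_mul_of_nonneg_left hP' (by positivity)
      _ = _ := by
          rw [pow_succ ρ n, pow_succ ((n + 1 : ℕ) : ℝ) D]
          field_simp
  have h10 := hn1 n hn1'
  rw [Real.dist_eq, sub_zero] at h10
  have h11 := (le_abs_self _).trans_lt h10
  have h12 := mul_lt_mul_of_pos_right h11 hGn
  calc ε / 2 * G n + (n + κ) * (2 * (ρ * b) ^ n)
      ≤ ε / 2 * G n + ((C : ℝ) * 2 * (1 + κ) * ρ⁻¹ *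
        (((n + 1 : ℕ) : ℝ) ^ (D + 1) * ρ ^ (n + 1))) * G n := add_le_add le_rfl h8
    _ < ε / 2 * G n + ε / 2 * G n := add_lt_add_of_le_of_lt le_rfl h12
    _ = ε * G n := by ring

end ratio

end Pool.Agent.U282.PW
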