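import Mathlib
import Pool.Agent.U282.PW.Str

/-! The lowering operator on a tensor power: injective on positive weights, surjective onto
negative weights. -/

set_option autoImplicit false

namespace Pool.Agent.U282.PW

open Module PiTensorProduct
open scoped TensorProduct

variable {K V : Type*} [Field K] [AddCommGroup V] [Module K V] {n : ℕ}
variable {J : Type*} {s : J → ℕ}

theorem dn_H (b : Basis (Σ j, Fin (s j)) K V) (c : Fin n → Σ j, Fin (s j)) :
    dn n (opH b) (tb n b c) = ((ht c : ℤ) : K) • tb n b c := by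
  rw [dn_apply]
  have h : ∀ i, atF i (opH b) (tb n b c) = ((wt (c i) : ℤ) : K) • tb n b c := by
    intro i
    rw [atF_tb b (opH b) i c _ _ (opH_b b (c i)), Function.update_eq_self]
  simp only [h]
  rw [← Finset.sum_smul, ht]
  push_cast
  rfl

theorem dn_H_pA (b : Basis (Σ j, Fin (s j)) K V) (P : (Fin n → J) → Prop) (m : ℤ)
    (x : ⨂[K] _ : Fin n, V) (hx : x ∈ pA b P m) : dn n (opH b) x = (m : K) • x := by
  unfold pA at hx
  induction hx using Submodule.span_induction with
  | mem x hx =>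
    obtain ⟨c, ⟨_, hc⟩, rfl⟩ := hx
    rw [dn_H, hc]
  | zero => rw [map_zero, smul_zero]
  | add x y _ _ hx hy => rw [map_add, hx, hy, smul_add]
  | smul a x _ hx => rw [map_smul, hx, smul_comm]

theorem wt_le [Fintype J] (x : Σ j, Fin (s j)) : wt x ≤ ((∑ j, s j : ℕ) : ℤ) ∧
    -((∑ j, s j : ℕ) : ℤ) ≤ wt x := by
  have h1 : s x.1 ≤ ∑ j, s j := Finset.single_le_sum (fun _ _ => Nat.zero_le _)
    (Finset.mem_univ _)
  have h2 := x.2.2
  constructor
  · simp only [wt]; omega
  · simp only [wt]; omega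

theorem ht_le [Fintype J] (c : Fin n → Σ j, Fin (s j)) :
    ht c ≤ ((n * ∑ j, s j : ℕ) : ℤ) ∧ -((n * ∑ j, s j : ℕ) : ℤ) ≤ ht c := by
  constructor
  · calc ht c ≤ ∑ _i : Fin n, ((∑ j, s j : ℕ) : ℤ) := Finset.sum_le_sum fun i _ => (wt_le _).1
      _ = _ := by simp
  · calc -((n * ∑ j, s j : ℕ) : ℤ) = ∑ _i : Fin n, -((∑ j, s j : ℕ) : ℤ) := by simp
      _ ≤ _ := Finset.sum_le_sum fun i _ => (wt_le _).2

theorem pA_bot [Fintype J] (b : Basis (Σ j, Fin (s j)) K V) (P : (Fin n → J) → Prop) (m : ℤ)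
    (h : ((n * ∑ j, s j : ℕ) : ℤ) < m ∨ m < -((n * ∑ j, s j : ℕ) : ℤ)) : pA b P m = ⊥ := by
  have : {c : Fin n → Σ j, Fin (s j) | P (fun i => (c i).1) ∧ ht c = m} = ∅ := by
    ext c
    simp only [Set.mem_ofPred_eq, Set.mem_empty_iff_false, iff_false, not_and]
    intro _ hc
    have := ht_le c
    omega
  rw [pA, this, Set.image_empty, Submodule.span_empty]

theorem dnE_nilp [Fintype J] (b : Basis (Σ j, Fin (s j)) K V) (n : ℕ) :
    (dn n (opE b)) ^ (n * ∑ j, s j + 1) = 0 := by
  apply (tb n b).ext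
  intro c
  have h1 : tb n b c ∈ pA b (fun _ => True) (ht c) := Submodule.subset_span ⟨c, ⟨trivial, rfl⟩, rfl⟩
  have h2 := dn_pow_mem_pA b _ (opE b) 2 (shift_E b) (n * ∑ j, s j + 1) _ _ h1
  rw [pA_bot] at h2
  · rw [(Submodule.mem_bot K).1 h2]; rfl
  · left
    have := (ht_le c).2
    push_cast at this ⊢
    linarith

theorem dnN_inj [Fintype J] [CharZero K] (b : Basis (Σ j, Fin (s j)) K V)
    (P : (Fin n → J) → Prop) (k : ℕ) (m : ℤ) (hm : k ≤ m) (x : ⨂[K] _ : Fin n, V)
    (hx : x ∈ pA b P m) (h : (dn n (opN b) ^ k) x = 0) : x = 0 := by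
  refine raise_inj_pow (dn n (opN b)) (dn n (opE b)) (-(dn n (opH b))) ?_ ?_ ?_ k (-m) (by omega)
    x ?_ h (n * ∑ j, s j + 1) ?_
  · intro v
    have := dn_comm (n := n) (opE b) (opN b) (opH b) (rel_EN b) v
    rw [this, LinearMap.neg_apply]
    abel
  · intro v
    have := dn_comm (n := n) (opH b) (opE b) _ (rel_HE b) v
    rw [LinearMap.neg_apply, LinearMap.neg_apply, this, dn_smul, LinearMap.smul_apply, map_neg]
    abel
  · intro v
    have := dn_comm (n := n) (opH b) (opN b) _ (rel_HN b) v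
    rw [LinearMap.neg_apply, LinearMap.neg_apply, this, dn_smul, LinearMap.smul_apply, map_neg,
      neg_smul]
    abel
  · rw [LinearMap.neg_apply, dn_H_pA b P m x hx, ← neg_smul]
    push_cast
    rfl
  · rw [dnE_nilp, LinearMap.zero_apply]

theorem dnN_surj [Fintype J] [CharZero K] (b : Basis (Σ j, Fin (s j)) K V)
    (P : (Fin n → J) → Prop) (k : ℕ) (m : ℤ) (hm : m ≤ k) (y : ⨂[K] _ : Fin n, V)
    (hy : y ∈ pA b P (m - 2 * k)) : ∃ x ∈ pA b P m, (dn n (opN b) ^ k) x = y := by
  classical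
  by_contra hcon
  push Not at hcon
  have h1 : y ∉ (pA b P m).map (dn n (opN b) ^ k) := by
    rintro ⟨x, hx, hxy⟩
    exact hcon x hx hxy
  obtain ⟨φ0, h3, h2⟩ := Submodule.exists_le_ker_of_notMem h1
  -- the functional supported in weight `m - 2 * k`
  set φ : (⨂[K] _ : Fin n, V) →ₗ[K] K := (tb n b).constr K fun c =>
    if P (fun i => (c i).1) ∧ ht c = m - 2 * k then φ0 (tb n b c) else 0 with hφ
  have hφ1 : ∀ z ∈ pA b P (m - 2 * k), φ z = φ0 z := by
    intro z hz
    unfold pA at hz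
    induction hz using Submodule.span_induction with
    | mem x hx =>
      obtain ⟨c, hc, rfl⟩ := hx
      rw [hφ, Basis.constr_basis]; exact if_pos hc
    | zero => rw [map_zero, map_zero]
    | add x y _ _ hx hy => rw [map_add, map_add, hx, hy]
    | smul a x _ hx => rw [map_smul, map_smul, hx]
  have hφ2 : ∀ (Q : (Fin n → J) → Prop) (m' : ℤ) (z : ⨂[K] _ : Fin n, V), z ∈ pA b Q m' →
      ((∀ c, Q c → ¬ P c) ∨ m' ≠ m - 2 * k) → φ z = 0 := by
    intro Q m' z hz hQ
    unfold pA at hz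
    induction hz using Submodule.span_induction with
    | mem x hx =>
      obtain ⟨c, hc, rfl⟩ := hx
      rw [hφ, Basis.constr_basis, if_neg]
      rintro ⟨h5, h6⟩
      rcases hQ with hQ | hQ
      · exact hQ _ hc.1 h5
      · exact hQ (hc.2.symm.trans h6)
    | zero => rw [map_zero]
    | add x y _ _ hx hy => rw [map_add, hx, hy, add_zero]
    | smul a x _ hx => rw [map_smul, hx, smul_zero]
  have hφ3 : φ ≠ 0 := by
    intro h0
    apply h3
    rw [← hφ1 y hy, h0, LinearMap.zero_apply]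
  apply hφ3
  have hpow : ∀ (A : (⨂[K] _ : Fin n, V) →ₗ[K] (⨂[K] _ : Fin n, V)) (k : ℕ)
      (ψ : Dual K (⨂[K] _ : Fin n, V)) (v : ⨂[K] _ : Fin n, V),
      ((A.dualMap ^ k) ψ) v = ψ ((A ^ k) v) := by
    intro A k
    induction k with
    | zero => intro ψ v; rfl
    | succ k ih =>
      intro ψ v
      rw [pow_succ, Module.End.mul_apply, ih, LinearMap.dualMap_apply, ← Module.End.mul_apply,
        ← pow_succ']
  refine raise_inj_pow (M := Dual K (⨂[K] _ : Fin n, V)) (dn n (opN b)).dualMap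
    (dn n (opE b)).dualMap (dn n (opH b)).dualMap ?_ ?_ ?_ k (m - 2 * k) (by omega) φ ?_ ?_
    (n * ∑ j, s j + 1) ?_
  · intro ψ
    apply LinearMap.ext
    intro v
    have h5 := dn_comm (n := n) (opE b) (opN b) (opH b) (rel_EN b) v
    rw [LinearMap.dualMap_apply, LinearMap.dualMap_apply, h5, map_add, LinearMap.add_apply,
      LinearMap.dualMap_apply, LinearMap.dualMap_apply, LinearMap.dualMap_apply]
  · intro ψ
    apply LinearMap.ext
    intro v
    have h5 := dn_comm (n := n) (opH b) (opE b) _ (rel_HE b) v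
    rw [dn_smul, LinearMap.smul_apply] at h5
    rw [LinearMap.sub_apply, LinearMap.smul_apply, LinearMap.dualMap_apply,
      LinearMap.dualMap_apply, LinearMap.dualMap_apply, LinearMap.dualMap_apply,
      LinearMap.dualMap_apply, h5, map_add, map_smul]
    abel
  · intro ψ
    apply LinearMap.ext
    intro v
    have h5 := dn_comm (n := n) (opH b) (opN b) _ (rel_HN b) v
    rw [dn_smul, LinearMap.smul_apply] at h5
    rw [LinearMap.add_apply, LinearMap.smul_apply, LinearMap.dualMap_apply,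
      LinearMap.dualMap_apply, LinearMap.dualMap_apply, LinearMap.dualMap_apply,
      LinearMap.dualMap_apply, h5, map_add, map_smul, neg_smul]
    abel
  · apply (tb n b).ext
    intro c
    rw [LinearMap.dualMap_apply, dn_H, map_smul, LinearMap.smul_apply]
    by_cases hc : P (fun i => (c i).1) ∧ ht c = m - 2 * k
    · rw [hc.2]
    · have : φ (tb n b c) = 0 := by rw [hφ, Basis.constr_basis]; exact if_neg hc
      rw [this, smul_zero, smul_zero]
  · apply (tb n b).ext
    intro c
    rw [hpow, LinearMap.zero_apply]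
    have hc1 : tb n b c ∈ pA b (fun j => j = fun i => (c i).1) (ht c) :=
      Submodule.subset_span ⟨c, ⟨rfl, rfl⟩, rfl⟩
    have hc2 := dn_pow_mem_pA b _ (opN b) (-2) (shift_N b) k _ _ hc1
    by_cases hc : P (fun i => (c i).1) ∧ ht c = m
    · have hc3 : tb n b c ∈ pA b P m := Submodule.subset_span ⟨c, hc, rfl⟩
      have hc4 := dn_pow_mem_pA b _ (opN b) (-2) (shift_N b) k _ _ hc3
      rw [show m + (k : ℤ) * -2 = m - 2 * k by ring] at hc4
      rw [hφ1 _ hc4]
      exact LinearMap.mem_ker.1 (h2 (Submodule.mem_map_of_mem hc3))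
    · apply hφ2 _ _ _ hc2
      by_cases hP : P (fun i => (c i).1)
      · right
        intro h
        exact hc ⟨hP, by omega⟩
      · left
        rintro j rfl
        exact hP
  · apply LinearMap.ext
    intro v
    rw [hpow, dnE_nilp]
    simp

end Pool.Agent.U282.PW
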