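import Mathlib
import Pool.Agent.U282.PW.Sl

/-! The kernel of `u^{⊗ n} - 1`, where `u` is unipotent. -/

set_option autoImplicit false

namespace Pool.Agent.U282.PW

open Module PiTensorProduct
open scoped TensorProduct

variable {K V : Type*} [Field K] [AddCommGroup V] [Module K V] {n : ℕ}
variable {J : Type*} {s : J → ℕ}

/-- The dimension of the span of a part of a linearly independent family. -/
theorem finrank_span_image {ι M : Type*} [AddCommGroup M] [Module K M] {v : ι → M}
    (hv : LinearIndependent K v) [Finite ι] (S : Set ι) :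
    finrank K (Submodule.span K (v '' S)) = Nat.card S := by
  classical
  have := Fintype.ofFinite S
  have h1 : LinearIndependent K (fun x : S => v x) := hv.comp _ Subtype.val_injective
  have h2 := finrank_span_eq_card h1
  rw [show Set.range (fun x : S => v x) = v '' S from by
    rw [Set.image_eq_range]] at h2
  rw [h2, Nat.card_eq_fintype_card]

theorem pA_le_pB (b : Basis (Σ j, Fin (s j)) K V) (P : (Fin n → J) → Prop) {m m' : ℤ}
    (h : m ≤ m') : pA b P m ≤ pB b P m' := by
  apply Submodule.span_mono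
  apply Set.image_mono
  rintro c ⟨h1, h2⟩
  exact ⟨h1, h2.le.trans h⟩

theorem pB_mono (b : Basis (Σ j, Fin (s j)) K V) (P : (Fin n → J) → Prop) {m m' : ℤ}
    (h : m ≤ m') : pB b P m ≤ pB b P m' := by
  apply Submodule.span_mono
  apply Set.image_mono
  rintro c ⟨h1, h2⟩
  exact ⟨h1, h2.trans h⟩

/-- The expansion of `u^{⊗ n}` to first order. -/
theorem expand (b : Basis (Σ j, Fin (s j)) K V) (P : (Fin n → J) → Prop) (S : Finset (Fin n)) :
    ∀ (m : ℤ) (x : ⨂[K] _ : Fin n, V), x ∈ pA b P m →
      PiTensorProduct.map (fun i => if i ∈ S then LinearMap.id + opN b else LinearMap.id) x - x -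
        ∑ i ∈ S, atF i (opN b) x ∈ pB b P (m - 4) := by
  induction S using Finset.induction_on with
  | empty =>
    intro m x _
    have h1 : PiTensorProduct.map (R := K) (fun i : Fin n => if i ∈ (∅ : Finset (Fin n)) then
        LinearMap.id + opN b else LinearMap.id) = LinearMap.id := by
      have : (fun i : Fin n => if i ∈ (∅ : Finset (Fin n)) then
        LinearMap.id + opN b else LinearMap.id) = fun _ => LinearMap.id := by
        funext i
        exact if_neg (Finset.notMem_empty i)
      rw [this]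
      exact PiTensorProduct.map_id
    rw [h1, LinearMap.id_apply, sub_self, Finset.sum_empty, sub_zero]
    exact Submodule.zero_mem _
  | insert j S hj ih =>
    intro m x hx
    rw [map_insert (opN b) S j hj x, map_add, Finset.sum_insert hj]
    have h1 := ih m x hx
    have h2 := atF_mem_pA b P (opN b) (-2) (shift_N b) j m x hx
    have h3 := pB_mono b P (m := m + -2 - 4) (m' := m - 4) (by omega) (ih _ _ h2)
    have h4 : ∑ i ∈ S, atF i (opN b) (atF j (opN b) x) ∈ pB b P (m - 4) := by
      apply Submodule.sum_mem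
      intro i _
      apply pA_le_pB b P (m := m + -2 + -2) (by omega)
      exact atF_mem_pA b P (opN b) (-2) (shift_N b) i _ _ h2
    have h5 := Submodule.add_mem _ (Submodule.add_mem _ h1 h3) h4
    convert h5 using 1
    abel

/-- The span of the basis vectors whose tuple of blocks satisfies `P`. -/
def pW (b : Basis (Σ j, Fin (s j)) K V) (P : (Fin n → J) → Prop) :
    Submodule K (⨂[K] _ : Fin n, V) :=
  Submodule.span K ((tb n b) '' {c | P (fun i => (c i).1)})

theorem pW_eq [Fintype J] (b : Basis (Σ j, Fin (s j)) K V) (P : (Fin n → J) → Prop) :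
    pW b P = pB b P ((n * ∑ j, s j : ℕ) : ℤ) := by
  unfold pW pB
  congr 2
  ext c
  exact ⟨fun h => ⟨h, (ht_le c).1⟩, fun h => h.1⟩

/-- The unipotent operator on the tensor power. -/
noncomputable def uop (n : ℕ) (b : Basis (Σ j, Fin (s j)) K V) :
    (⨂[K] _ : Fin n, V) →ₗ[K] (⨂[K] _ : Fin n, V) :=
  PiTensorProduct.map (fun _ : Fin n => LinearMap.id + opN b)

theorem uop_expand (b : Basis (Σ j, Fin (s j)) K V) (P : (Fin n → J) → Prop) (m : ℤ)
    (x : ⨂[K] _ : Fin n, V) (hx : x ∈ pA b P m) :
    (uop n b - LinearMap.id : Module.End K _) x - dn n (opN b) x ∈ pB b P (m - 4) := by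
  have h1 := expand b P Finset.univ m x hx
  simp only [Finset.mem_univ, if_true] at h1
  rw [← dn_apply] at h1
  exact h1

theorem usub_mem (b : Basis (Σ j, Fin (s j)) K V) (P : (Fin n → J) → Prop) (m : ℤ)
    (x : ⨂[K] _ : Fin n, V) (hx : x ∈ pB b P m) :
    (uop n b - LinearMap.id : Module.End K _) x ∈ pB b P (m - 2) := by
  unfold pB at hx
  induction hx using Submodule.span_induction with
  | mem x hx =>
    obtain ⟨c, ⟨hc1, hc2⟩, rfl⟩ := hx
    have h0 : tb n b c ∈ pA b P (ht c) := Submodule.subset_span ⟨c, ⟨hc1, rfl⟩, rfl⟩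
    have h1 := uop_expand b P (ht c) _ h0
    have h2 := dn_mem_pA b P (opN b) (-2) (shift_N b) _ _ h0
    have h3 := Submodule.add_mem _ (pB_mono b P (m' := m - 2) (by omega) h1)
      (pA_le_pB b P (m' := m - 2) (by omega) h2)
    rw [sub_add_cancel] at h3
    exact h3
  | zero => rw [map_zero]; exact Submodule.zero_mem _
  | add x y _ _ hx hy => rw [map_add]; exact Submodule.add_mem _ hx hy
  | smul a x _ hx => rw [map_smul]; exact Submodule.smul_mem _ _ hx

theorem pow_expand (b : Basis (Σ j, Fin (s j)) K V) (P : (Fin n → J) → Prop) (k : ℕ) (m : ℤ)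
    (x : ⨂[K] _ : Fin n, V) (hx : x ∈ pA b P m) :
    ((uop n b - LinearMap.id : Module.End K _) ^ k) x - (dn n (opN b) ^ k) x ∈
      pB b P (m - 2 * k - 1) := by
  induction k with
  | zero =>
    rw [pow_zero, pow_zero, sub_self]
    exact Submodule.zero_mem _
  | succ k ih =>
    rw [pow_succ', Module.End.mul_apply, pow_succ', Module.End.mul_apply]
    set r := ((uop n b - LinearMap.id : Module.End K _) ^ k) x - (dn n (opN b) ^ k) x with hr
    have h1 : ((uop n b - LinearMap.id : Module.End K _) ^ k) x = (dn n (opN b) ^ k) x + r := by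
      rw [hr]; abel
    have h2 : (dn n (opN b) ^ k) x ∈ pA b P (m + k * -2) :=
      dn_pow_mem_pA b P (opN b) (-2) (shift_N b) k m x hx
    have h3 := uop_expand b P _ _ h2
    have h4 := usub_mem b P _ _ ih
    rw [h1, map_add, add_sub_right_comm]
    apply Submodule.add_mem
    · exact pB_mono b P (m := m + k * -2 - 4) (by push_cast; omega) h3
    · exact pB_mono b P (m := m - 2 * k - 1 - 2) (by push_cast; omega) h4

theorem card_pB [Fintype J] (b : Basis (Σ j, Fin (s j)) K V) (P : (Fin n → J) → Prop) (m : ℤ) :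
    finrank K (pB b P m) =
      Nat.card {c : Fin n → Σ j, Fin (s j) | P (fun i => (c i).1) ∧ ht c ≤ m} :=
  finrank_span_image (tb n b).linearIndependent _

theorem ker_unip [Fintype J] [CharZero K] (b : Basis (Σ j, Fin (s j)) K V)
    (P : (Fin n → J) → Prop) (k : ℕ) :
    finrank K (pW b P ⊓ LinearMap.ker ((uop n b - LinearMap.id : Module.End K _) ^ k) :
      Submodule K (⨂[K] _ : Fin n, V)) +
    Nat.card {c : Fin n → Σ j, Fin (s j) | P (fun i => (c i).1) ∧ ht c ≤ -k - 1} =
    Nat.card {c : Fin n → Σ j, Fin (s j) | P (fun i => (c i).1) ∧ ht c ≤ k - 1} := by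
  classical
  have : FiniteDimensional K (⨂[K] _ : Fin n, V) := Module.Basis.finiteDimensional_of_finite (tb n b)
  rcases Nat.eq_zero_or_pos k with h0 | hk
  · subst h0
    have h1 : LinearMap.ker ((uop n b - LinearMap.id : Module.End K _) ^ 0) =
        (⊥ : Submodule K (⨂[K] _ : Fin n, V)) := by
      rw [pow_zero]
      exact LinearMap.ker_id
    rw [h1, inf_bot_eq, finrank_bot]
    simp
  have hli := (tb n b).linearIndependent
  have hW : pW b P = pB b P ((n * ∑ j, s j + k : ℕ) : ℤ) := by
    apply le_antisymm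
    · rw [pW_eq]
      exact pB_mono b P (by push_cast; omega)
    · apply Submodule.span_mono
      apply Set.image_mono
      exact fun c hc => hc.1
  rw [hW, ← card_pB b, ← card_pB b]
  have key := graded_ker (pA b P) (pB b P) (n * ∑ j, s j + k) (2 * k) k (by omega) ?_ ?_ ?_
    (by push_cast; nlinarith [Nat.zero_le (n * ∑ j, s j)])
    ((uop n b - LinearMap.id : Module.End K _) ^ k) (dn n (opN b) ^ k) ?_ ?_ ?_ ?_
  · rw [show (k : ℤ) - 1 - 2 * k = -k - 1 by ring] at key
    exact key
  · intro m
    unfold pA pB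
    rw [← Submodule.span_union, ← Set.image_union]
    congr 2
    ext c
    simp only [Set.mem_ofPred_eq, Set.mem_union]
    constructor
    · rintro ⟨h1, h2⟩
      rcases h2.eq_or_lt with h2 | h2
      · exact Or.inl ⟨h1, h2⟩
      · exact Or.inr ⟨h1, by omega⟩
    · rintro (⟨h1, h2⟩ | ⟨h1, h2⟩)
      · exact ⟨h1, h2.le⟩
      · exact ⟨h1, by omega⟩
  · intro m
    apply hli.disjoint_span_image
    rw [Set.disjoint_left]
    rintro c ⟨_, h1⟩ ⟨_, h2⟩
    omega
  · intro m hm
    have : {c : Fin n → Σ j, Fin (s j) | P (fun i => (c i).1) ∧ ht c ≤ m} = ∅ := by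
      ext c
      simp only [Set.mem_ofPred_eq, Set.mem_empty_iff_false, iff_false, not_and]
      intro _ hc
      have := (ht_le c).2
      push_cast at this hm
      linarith
    rw [pB, this, Set.image_empty, Submodule.span_empty]
  · intro m x hx
    have h1 := dn_pow_mem_pA b P (opN b) (-2) (shift_N b) k m x hx
    rwa [show m + (k : ℤ) * -2 = m - 2 * k by ring] at h1
  · intro m x hx
    exact pow_expand b P k m x hx
  · intro m hm x hx h
    exact dnN_inj b P k m hm x hx h
  · intro m hm y hy
    exact dnN_surj b P k m hm.le y hy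

theorem card_split [Fintype J] (P : (Fin n → J) → Prop) (m : ℤ) :
    Nat.card {c : Fin n → Σ j, Fin (s j) | P (fun i => (c i).1) ∧ ht c ≤ m} =
    Nat.card {c : Fin n → Σ j, Fin (s j) | P (fun i => (c i).1) ∧ ht c = m} +
    Nat.card {c : Fin n → Σ j, Fin (s j) | P (fun i => (c i).1) ∧ ht c ≤ m - 1} := by
  classical
  rw [Nat.card_eq_fintype_card, Nat.card_eq_fintype_card, Nat.card_eq_fintype_card,
    Fintype.card_subtype, Fintype.card_subtype, Fintype.card_subtype,
    ← Finset.card_union_of_disjoint]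
  · congr 1
    ext c
    rw [Finset.mem_union, Finset.mem_filter, Finset.mem_filter, Finset.mem_filter]
    simp only [Finset.mem_univ, true_and, Set.mem_ofPred_eq]
    constructor
    · rintro ⟨h1, h2⟩
      rcases h2.eq_or_lt with h2 | h2
      · exact Or.inl ⟨h1, h2⟩
      · exact Or.inr ⟨h1, by omega⟩
    · rintro (⟨h1, h2⟩ | ⟨h1, h2⟩)
      · exact ⟨h1, h2.le⟩
      · exact ⟨h1, by omega⟩
  · rw [Finset.disjoint_left]
    intro c h1 h2
    have h3 := (Finset.mem_filter.1 h1).2
    have h4 := (Finset.mem_filter.1 h2).2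
    have h5 : ht c = m := h3.2
    have h6 : ht c ≤ m - 1 := h4.2
    omega

/-- The number of Jordan blocks of size more than `k` of `u^{⊗ n}` on a part. -/
theorem ker_unip_diff [Fintype J] [CharZero K] (b : Basis (Σ j, Fin (s j)) K V)
    (P : (Fin n → J) → Prop) (k : ℕ) :
    finrank K (pW b P ⊓ LinearMap.ker ((uop n b - LinearMap.id : Module.End K _) ^ (k + 1)) :
      Submodule K (⨂[K] _ : Fin n, V)) =
    finrank K (pW b P ⊓ LinearMap.ker ((uop n b - LinearMap.id : Module.End K _) ^ k) :
      Submodule K (⨂[K] _ : Fin n, V)) +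
    (Nat.card {c : Fin n → Σ j, Fin (s j) | P (fun i => (c i).1) ∧ ht c = k} +
    Nat.card {c : Fin n → Σ j, Fin (s j) | P (fun i => (c i).1) ∧ ht c = -k - 1}) := by
  have h1 := ker_unip b P (k + 1)
  have h2 := ker_unip b P k
  have h3 := card_split (s := s) P (k : ℤ)
  have h4 := card_split (s := s) P (-(k : ℤ) - 1)
  rw [show ((k + 1 : ℕ) : ℤ) - 1 = k by push_cast; ring,
    show -((k + 1 : ℕ) : ℤ) - 1 = -k - 1 - 1 by push_cast; ring] at h1
  omega

end Pool.Agent.U282.PW
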