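import Mathlib
import Pool.Agent.U282.PW.Uni

/-! Eigenspaces of `F^{⊗ n}` in terms of a Jordan basis of `F`. -/

set_option autoImplicit false

namespace Pool.Agent.U282.PW

open Module PiTensorProduct
open scoped TensorProduct

variable {K V : Type*} [Field K] [AddCommGroup V] [Module K V] {n : ℕ}
variable {J : Type*} {s : J → ℕ}

/-- `b` is a Jordan basis of `F`, with eigenvalues `α j ≠ 0`. -/
structure Strings (F : V →ₗ[K] V) (b : Basis (Σ j, Fin (s j)) K V) (α : J → K) : Prop where
  ne : ∀ j, α j ≠ 0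
  pos : ∀ j, 0 < s j
  eq : ∀ x, F (b x) = α x.1 • (b x + opN b (b x))

variable {F : V →ₗ[K] V} {b : Basis (Σ j, Fin (s j)) K V} {α : J → K}

theorem map_tb (hF : Strings F b α) (c : Fin n → Σ j, Fin (s j)) :
    PiTensorProduct.map (fun _ : Fin n => F) (tb n b c) =
      (∏ i, α (c i).1) • uop n b (tb n b c) := by
  rw [tb_apply, PiTensorProduct.map_tprod, uop, PiTensorProduct.map_tprod,
    ← MultilinearMap.map_smul_univ]
  congr 1
  funext i
  rw [hF.eq]
  rfl

theorem map_pW (hF : Strings F b α) (l : K) (x : ⨂[K] _ : Fin n, V)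
    (hx : x ∈ pW b (fun j : Fin n → J => ∏ i, α (j i) = l)) :
    PiTensorProduct.map (fun _ : Fin n => F) x = l • uop n b x := by
  unfold pW at hx
  induction hx using Submodule.span_induction with
  | mem x hx =>
    obtain ⟨c, hc, rfl⟩ := hx
    rw [map_tb hF, show (∏ i, α (c i).1) = l from hc]
  | zero => rw [map_zero, map_zero, smul_zero]
  | add x y _ _ hx hy => rw [map_add, map_add, hx, hy, smul_add]
  | smul a x _ hx => rw [map_smul, map_smul, hx, smul_comm]

theorem uop_sub (P : (Fin n → J) → Prop) (m : ℤ) (x : ⨂[K] _ : Fin n, V)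
    (hx : x ∈ pB b P m) : uop n b x - x ∈ pB b P (m - 1) :=
  pB_mono b P (m := m - 2) (by omega) (usub_mem b P m x hx)

theorem pB_le_pW (P : (Fin n → J) → Prop) (m : ℤ) : pB b P m ≤ pW b P := by
  apply Submodule.span_mono
  apply Set.image_mono
  exact fun c hc => hc.1

theorem uop_mem [Fintype J] (P : (Fin n → J) → Prop) (x : ⨂[K] _ : Fin n, V)
    (hx : x ∈ pW b P) : uop n b x ∈ pW b P := by
  have hx' := hx
  rw [pW_eq] at hx'
  have h1 := Submodule.add_mem _ (pB_le_pW P _ (uop_sub P _ x hx')) hx
  rwa [sub_add_cancel] at h1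

theorem pW_le_gen [Fintype J] (hF : Strings F b α) (l : K) :
    pW b (fun j : Fin n → J => ∏ i, α (j i) = l) ≤
      Module.End.maxGenEigenspace (PiTensorProduct.map (fun _ : Fin n => F)) l := by
  intro x hx
  rw [Module.End.mem_maxGenEigenspace]
  refine ⟨2 * (n * ∑ j, s j) + 1, ?_⟩
  set P := (fun j : Fin n → J => ∏ i, α (j i) = l) with hP
  have h1 : ∀ (k : ℕ) (m : ℤ) (x : ⨂[K] _ : Fin n, V), x ∈ pB b P m →
      (((PiTensorProduct.map (fun _ : Fin n => F) : Module.End K (⨂[K] _ : Fin n, V)) -
        l • (1 : Module.End K (⨂[K] _ : Fin n, V))) ^ k) x ∈ pB b P (m - k) := by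
    intro k
    induction k with
    | zero => intro m x hx; simpa using hx
    | succ k ih =>
      intro m x hx
      rw [pow_succ, Module.End.mul_apply]
      have h2 : ((PiTensorProduct.map (fun _ : Fin n => F) : Module.End K (⨂[K] _ : Fin n, V)) -
        l • (1 : Module.End K (⨂[K] _ : Fin n, V))) x = l • (uop n b x - x) := by
        rw [LinearMap.sub_apply, map_pW hF l x (pB_le_pW P _ hx), smul_sub]
        rfl
      rw [h2]
      have h3 := ih (m - 1) _ (Submodule.smul_mem _ l (uop_sub P m x hx))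
      rwa [show m - 1 - (k : ℤ) = m - ((k + 1 : ℕ) : ℤ) by push_cast; ring] at h3
  have h4 := h1 (2 * (n * ∑ j, s j) + 1) _ x (by rw [← pW_eq]; exact hx)
  have h5 : pB b P (((n * ∑ j, s j : ℕ) : ℤ) - ((2 * (n * ∑ j, s j) + 1 : ℕ) : ℤ)) = ⊥ := by
    have : {c : Fin n → Σ j, Fin (s j) | P (fun i => (c i).1) ∧ ht c ≤
        ((n * ∑ j, s j : ℕ) : ℤ) - ((2 * (n * ∑ j, s j) + 1 : ℕ) : ℤ)} = ∅ := by
      ext c
      simp only [Set.mem_ofPred_eq, Set.mem_empty_iff_false, iff_false, not_and]
      intro _ hc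
      have := (ht_le c).2
      push_cast at this hc
      linarith
    rw [pB, this, Set.image_empty, Submodule.span_empty]
  rw [h5] at h4
  exact (Submodule.mem_bot K).1 h4

theorem eq_of_indep {ι M : Type*} [AddCommGroup M] [Module K M] {G W : ι → Submodule K M}
    (hG : iSupIndep G) (hW : ∀ i, W i ≤ G i) (htop : ⨆ i, W i = ⊤) (i : ι) : G i = W i := by
  apply le_antisymm _ (hW i)
  intro x hx
  have h1 : x ∈ W i ⊔ ⨆ (j) (_ : j ≠ i), W j := by
    rw [← iSup_split_single, htop]; trivial
  obtain ⟨w, hw, w', hw', rfl⟩ := Submodule.mem_sup.1 h1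
  have h2 : w' ∈ G i := by
    have := Submodule.sub_mem _ hx (hW i hw)
    rwa [add_sub_cancel_left] at this
  have h3 : w' ∈ ⨆ (j) (_ : j ≠ i), G j := by
    have : (⨆ (j) (_ : j ≠ i), W j) ≤ ⨆ (j) (_ : j ≠ i), G j :=
      iSup_mono fun j => iSup_mono fun _ => hW j
    exact this hw'
  have h4 := Submodule.disjoint_def.1 (hG i) w' h2 h3
  rw [h4, add_zero]
  exact hw

theorem iSup_pW (α : J → K) (L : Set K) :
    (⨆ l ∈ L, pW b (fun j : Fin n → J => ∏ i, α (j i) = l)) =
      pW b (fun j : Fin n → J => ∏ i, α (j i) ∈ L) := by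
  apply le_antisymm
  · apply iSup₂_le
    intro l hl
    apply Submodule.span_mono
    apply Set.image_mono
    intro c hc
    change (∏ i, α (c i).1) ∈ L
    rw [show (∏ i, α (c i).1) = l from hc]
    exact hl
  · unfold pW
    rw [Submodule.span_le]
    rintro x ⟨c, hc, rfl⟩
    have h1 : tb n b c ∈ pW b (fun j : Fin n → J => ∏ i, α (j i) = ∏ i, α (c i).1) :=
      Submodule.subset_span ⟨c, rfl, rfl⟩
    exact (le_iSup₂_of_le (f := fun l (_ : l ∈ L) =>
      pW b (fun j : Fin n → J => ∏ i, α (j i) = l)) _ hc le_rfl) h1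

theorem pW_true : pW b (fun _ : Fin n → J => True) = ⊤ := by
  unfold pW
  rw [show {c : Fin n → Σ j, Fin (s j) | True} = Set.univ from rfl, Set.image_univ]
  exact (tb n b).span_eq

theorem gen_eq [Fintype J] (hF : Strings F b α) (l : K) :
    Module.End.maxGenEigenspace (PiTensorProduct.map (fun _ : Fin n => F)) l =
      pW b (fun j : Fin n → J => ∏ i, α (j i) = l) := by
  refine eq_of_indep (G := fun l => Module.End.maxGenEigenspace
    (PiTensorProduct.map (fun _ : Fin n => F)) l)
    (W := fun l => pW b (fun j : Fin n → J => ∏ i, α (j i) = l))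
    (Module.End.independent_maxGenEigenspace _) (fun l => pW_le_gen hF l) ?_ l
  have h := iSup_pW (n := n) (b := b) α Set.univ
  simp only [Set.mem_univ, iSup_pos] at h
  rw [h, pW_true]

theorem iSup_gen_eq [Fintype J] (hF : Strings F b α) (L : Set K) :
    (⨆ l ∈ L, Module.End.maxGenEigenspace (PiTensorProduct.map (fun _ : Fin n => F)) l) =
      pW b (fun j : Fin n → J => ∏ i, α (j i) ∈ L) := by
  simp only [gen_eq hF]
  exact iSup_pW α L

/-- The projection to the part of eigenvalue `l`. -/
noncomputable def prL (n : ℕ) (b : Basis (Σ j, Fin (s j)) K V) (α : J → K) (l : K) :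
    (⨂[K] _ : Fin n, V) →ₗ[K] (⨂[K] _ : Fin n, V) :=
  open Classical in
  (tb n b).constr K fun c => if ∏ i, α (c i).1 = l then tb n b c else 0

theorem prL_tb (l : K) (c : Fin n → Σ j, Fin (s j)) [Decidable (∏ i, α (c i).1 = l)] :
    prL n b α l (tb n b c) = if ∏ i, α (c i).1 = l then tb n b c else 0 := by
  classical
  rw [prL, Basis.constr_basis]
  split_ifs <;> rfl

theorem prL_mem (l : K) (x : ⨂[K] _ : Fin n, V) :
    prL n b α l x ∈ pW b (fun j : Fin n → J => ∏ i, α (j i) = l) := by
  classical
  have hx : x ∈ pW b (fun _ : Fin n → J => True) := by rw [pW_true]; trivial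
  unfold pW at hx
  induction hx using Submodule.span_induction with
  | mem x hx =>
    obtain ⟨c, _, rfl⟩ := hx
    rw [prL_tb]
    split_ifs with h
    · exact Submodule.subset_span ⟨c, h, rfl⟩
    · exact Submodule.zero_mem _
  | zero => rw [map_zero]; exact Submodule.zero_mem _
  | add x y _ _ hx hy => rw [map_add]; exact Submodule.add_mem _ hx hy
  | smul a x _ hx => rw [map_smul]; exact Submodule.smul_mem _ _ hx

theorem prL_pW (l : K) (j : Fin n → J) (x : ⨂[K] _ : Fin n, V)
    (hx : x ∈ pW b (fun j' : Fin n → J => j' = j)) [Decidable (∏ i, α (j i) = l)] :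
    prL n b α l x = if ∏ i, α (j i) = l then x else 0 := by
  classical
  unfold pW at hx
  induction hx using Submodule.span_induction with
  | mem x hx =>
    obtain ⟨c, hc, rfl⟩ := hx
    rw [prL_tb]
    have : (∏ i, α (c i).1) = ∏ i, α (j i) := by
      rw [← show (fun i => (c i).1) = j from hc]
    rw [this]
    split_ifs <;> rfl
  | zero => rw [map_zero]; split_ifs <;> rfl
  | add x y _ _ hx hy => rw [map_add, hx, hy]; split_ifs <;> simp
  | smul a x _ hx => rw [map_smul, hx]; split_ifs <;> simp

theorem prL_comm [Fintype J] (l : K) (x : ⨂[K] _ : Fin n, V) :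
    prL n b α l (uop n b x) = uop n b (prL n b α l x) := by
  classical
  have h : prL n b α l ∘ₗ uop n b = uop n b ∘ₗ prL n b α l := by
    apply (tb n b).ext
    intro c
    have h1 : tb n b c ∈ pW b (fun j' : Fin n → J => j' = fun i => (c i).1) :=
      Submodule.subset_span ⟨c, rfl, rfl⟩
    have h2 := uop_mem _ _ h1
    rw [LinearMap.comp_apply, LinearMap.comp_apply, prL_pW l _ _ h2, prL_pW l _ _ h1]
    split_ifs
    · rfl
    · rw [map_zero]
  exact LinearMap.congr_fun h x

theorem sum_prL [Fintype J] [DecidableEq K] (x : ⨂[K] _ : Fin n, V) :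
    ∑ l ∈ Finset.univ.image (fun j : Fin n → J => ∏ i, α (j i)), prL n b α l x = x := by
  have h : ∑ l ∈ Finset.univ.image (fun j : Fin n → J => ∏ i, α (j i)), prL n b α l =
      LinearMap.id := by
    apply (tb n b).ext
    intro c
    rw [LinearMap.sum_apply, LinearMap.id_apply]
    simp only [prL_tb]
    rw [Finset.sum_ite_eq, if_pos]
    exact Finset.mem_image.2 ⟨fun i => (c i).1, Finset.mem_univ _, rfl⟩
  have := LinearMap.congr_fun h x
  rwa [LinearMap.sum_apply, LinearMap.id_apply] at this

theorem pow_sub_pW [Fintype J] (hF : Strings F b α) (l : K) (k : ℕ) (x : ⨂[K] _ : Fin n, V)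
    (hx : x ∈ pW b (fun j : Fin n → J => ∏ i, α (j i) = l)) :
    (((PiTensorProduct.map (fun _ : Fin n => F) : Module.End K (⨂[K] _ : Fin n, V)) -
        l • (1 : Module.End K (⨂[K] _ : Fin n, V))) ^ k) x =
      l ^ k • ((uop n b - LinearMap.id : Module.End K _) ^ k) x ∧
    ((uop n b - LinearMap.id : Module.End K _) ^ k) x ∈
      pW b (fun j : Fin n → J => ∏ i, α (j i) = l) := by
  induction k with
  | zero => exact ⟨by simp, by simpa using hx⟩
  | succ k ih =>
    rw [pow_succ', Module.End.mul_apply, ih.1, pow_succ' (uop n b - LinearMap.id : Module.End K _),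
      Module.End.mul_apply]
    set y := ((uop n b - LinearMap.id : Module.End K _) ^ k) x with hy
    constructor
    · rw [map_smul, LinearMap.sub_apply, map_pW hF l y ih.2, LinearMap.smul_apply,
        Module.End.one_apply, ← smul_sub, smul_smul, pow_succ]
      rfl
    · rw [LinearMap.sub_apply]
      exact Submodule.sub_mem _ (uop_mem _ _ ih.2) ih.2

theorem prL_comm_pow [Fintype J] (l : K) (k : ℕ) (x : ⨂[K] _ : Fin n, V) :
    prL n b α l (((uop n b - LinearMap.id : Module.End K _) ^ k) x) =
      ((uop n b - LinearMap.id : Module.End K _) ^ k) (prL n b α l x) := by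
  induction k generalizing x with
  | zero => rfl
  | succ k ih =>
    rw [pow_succ, Module.End.mul_apply, ih, Module.End.mul_apply, LinearMap.sub_apply, map_sub,
      prL_comm]
    rfl

theorem iSup_eig_eq [Fintype J] (hF : Strings F b α) (L : Set K) (k : ℕ) :
    (⨆ l ∈ L, Module.End.genEigenspace (PiTensorProduct.map (fun _ : Fin n => F)) l k) =
      pW b (fun j : Fin n → J => ∏ i, α (j i) ∈ L) ⊓
        LinearMap.ker ((uop n b - LinearMap.id : Module.End K _) ^ k) := by
  classical
  apply le_antisymm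
  · apply iSup₂_le
    intro l hl x hx
    have hx0 := (Module.End.mem_genEigenspace_nat.1 hx)
    rw [LinearMap.mem_ker] at hx0
    have h1 : x ∈ pW b (fun j : Fin n → J => ∏ i, α (j i) = l) := by
      rw [← gen_eq hF, Module.End.mem_maxGenEigenspace]
      exact ⟨k, hx0⟩
    refine ⟨?_, ?_⟩
    · rw [← iSup_pW]
      exact (le_iSup₂_of_le (f := fun l (_ : l ∈ L) =>
        pW b (fun j : Fin n → J => ∏ i, α (j i) = l)) _ hl le_rfl) h1
    · rw [(pow_sub_pW hF l k x h1).1] at hx0
      by_cases h0 : l = 0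
      · have h3 : pW b (fun j : Fin n → J => ∏ i, α (j i) = l) = ⊥ := by
          have : {c : Fin n → Σ j, Fin (s j) | ∏ i, α (c i).1 = l} = ∅ := by
            ext c
            simp only [Set.mem_ofPred_eq, Set.mem_empty_iff_false, iff_false, h0]
            exact Finset.prod_ne_zero_iff.2 fun i _ => hF.ne _
          unfold pW
          rw [this, Set.image_empty, Submodule.span_empty]
        rw [h3, Submodule.mem_bot] at h1
        rw [h1]
        exact Submodule.zero_mem _
      · exact LinearMap.mem_ker.2 ((smul_eq_zero.1 hx0).resolve_left (pow_ne_zero _ h0))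
  · rintro x ⟨hx1, hx2⟩
    replace hx2 := LinearMap.mem_ker.1 hx2
    rw [← sum_prL (n := n) (b := b) (α := α) x]
    apply Submodule.sum_mem
    intro l _
    by_cases hl : l ∈ L
    · apply (le_iSup₂_of_le (f := fun l (_ : l ∈ L) => Module.End.genEigenspace
        (PiTensorProduct.map (fun _ : Fin n => F)) l k) l hl le_rfl)
      rw [Module.End.mem_genEigenspace_nat, LinearMap.mem_ker,
        (pow_sub_pW hF l k _ (prL_mem l x)).1, ← prL_comm_pow, hx2, map_zero, smul_zero]
    · have h0 : prL n b α l x = 0 := by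
        unfold pW at hx1
        clear hx2
        induction hx1 using Submodule.span_induction with
        | mem x hx =>
          obtain ⟨c, hc, rfl⟩ := hx
          rw [prL_tb, if_neg]
          intro h
          exact hl (h ▸ hc)
        | zero => rw [map_zero]
        | add x y _ _ hx hy => rw [map_add, hx, hy, add_zero]
        | smul a x _ hx => rw [map_smul, hx, smul_zero]
      rw [h0]
      exact Submodule.zero_mem _

end Pool.Agent.U282.PW
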