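import Mathlib
import Pool.Agent.U282.PW.Jor
import Pool.Agent.R686.JT

/-! Counting formulas for `F^{⊗ n}`, existence of Jordan bases, and the ranks of the powers of the
nilpotent part. -/

set_option autoImplicit false

universe u v

namespace Pool.Agent.U282.PW

open Module PiTensorProduct
open scoped TensorProduct

section count

variable {K V : Type*} [Field K] [AddCommGroup V] [Module K V] {n : ℕ}
variable {J : Type*} {s : J → ℕ} {F : V →ₗ[K] V} {b : Basis (Σ j, Fin (s j)) K V} {α : J → K}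

theorem eig_count [Fintype J] [CharZero K] (hF : Strings F b α) (L : Set K) (k : ℕ) :
    finrank K (⨆ l ∈ L, Module.End.genEigenspace (PiTensorProduct.map (fun _ : Fin n => F)) l
      ((k + 1 : ℕ) : ℕ∞) : Submodule K (⨂[K] _ : Fin n, V)) =
    finrank K (⨆ l ∈ L, Module.End.genEigenspace (PiTensorProduct.map (fun _ : Fin n => F)) l
      (k : ℕ∞) : Submodule K (⨂[K] _ : Fin n, V)) +
    (Nat.card {c : Fin n → Σ j, Fin (s j) | (∏ i, α (c i).1) ∈ L ∧ ht c = k} +
    Nat.card {c : Fin n → Σ j, Fin (s j) | (∏ i, α (c i).1) ∈ L ∧ ht c = -k - 1}) := by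
  rw [iSup_eig_eq hF L, iSup_eig_eq hF L]
  exact ker_unip_diff b (fun j : Fin n → J => ∏ i, α (j i) ∈ L) k

theorem gen_count [Fintype J] (hF : Strings F b α) (L : Set K) :
    finrank K (⨆ l ∈ L, Module.End.maxGenEigenspace (PiTensorProduct.map (fun _ : Fin n => F)) l :
      Submodule K (⨂[K] _ : Fin n, V)) =
    Nat.card {c : Fin n → Σ j, Fin (s j) | (∏ i, α (c i).1) ∈ L} := by
  rw [iSup_gen_eq hF L]
  exact finrank_span_image (tb n b).linearIndependent _

theorem coord_zero (hF : Strings F b α) (j : J) (h : 0 < s j) (x : V) :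
    b.repr (F x) ⟨j, ⟨0, h⟩⟩ = α j * b.repr x ⟨j, ⟨0, h⟩⟩ := by
  classical
  have h1 : b.coord ⟨j, ⟨0, h⟩⟩ ∘ₗ F = α j • b.coord ⟨j, ⟨0, h⟩⟩ := by
    apply b.ext
    rintro ⟨j', a, ha⟩
    rw [LinearMap.comp_apply, hF.eq, LinearMap.smul_apply, map_smul, map_add]
    have h2 : b.coord ⟨j, ⟨0, h⟩⟩ (opN b (b ⟨j', ⟨a, ha⟩⟩)) = 0 := by
      by_cases h3 : a + 1 < s j'
      · rw [opN_pos b j' a h3, Basis.coord_apply, Basis.repr_self, Finsupp.single_apply, if_neg]
        intro h4
        have h5 := Sigma.mk.inj_iff.1 h4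
        obtain ⟨h6, h7⟩ := h5
        subst h6
        have := congrArg Fin.val (eq_of_heq h7)
        simp at this
      · rw [opN_last b j' a ha h3, map_zero]
    rw [h2, add_zero]
    by_cases hj : j' = j
    · subst hj; rfl
    · have : b.coord ⟨j, ⟨0, h⟩⟩ (b ⟨j', ⟨a, ha⟩⟩) = 0 := by
        rw [Basis.coord_apply, Basis.repr_self, Finsupp.single_apply, if_neg]
        intro h4
        exact hj (Sigma.mk.inj_iff.1 h4).1
      rw [this, smul_zero, smul_zero]
  exact LinearMap.congr_fun h1 x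

theorem coord_succ (hF : Strings F b α) (j : J) (a : ℕ) (h : a + 1 < s j) (x : V) :
    b.repr (F x) ⟨j, ⟨a + 1, h⟩⟩ = α j * (b.repr x ⟨j, ⟨a + 1, h⟩⟩ +
      b.repr x ⟨j, ⟨a, (Nat.lt_succ_self a).trans h⟩⟩) := by
  classical
  have h1 : b.coord ⟨j, ⟨a + 1, h⟩⟩ ∘ₗ F = α j • (b.coord ⟨j, ⟨a + 1, h⟩⟩ +
      b.coord ⟨j, ⟨a, (Nat.lt_succ_self a).trans h⟩⟩) := by
    apply b.ext
    rintro ⟨j', a', ha'⟩
    rw [LinearMap.comp_apply, hF.eq, LinearMap.smul_apply, map_smul, map_add, LinearMap.add_apply]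
    by_cases hj : j' = j
    · subst hj
      congr 2
      by_cases h3 : a' + 1 < s j'
      · rw [opN_pos b j' a' h3, Basis.coord_apply, Basis.coord_apply, Basis.repr_self,
          Basis.repr_self, Finsupp.single_apply, Finsupp.single_apply]
        by_cases haa : a' = a
        · subst haa; rw [if_pos rfl, if_pos rfl]
        · rw [if_neg, if_neg]
          · intro h4
            have := congrArg Fin.val (eq_of_heq (Sigma.mk.inj_iff.1 h4).2)
            exact haa this
          · intro h4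
            have := congrArg Fin.val (eq_of_heq (Sigma.mk.inj_iff.1 h4).2)
            simp only at this
            omega
      · rw [opN_last b j' a' ha' h3, map_zero, Basis.coord_apply, Basis.repr_self,
          Finsupp.single_apply, if_neg]
        intro h4
        have := congrArg Fin.val (eq_of_heq (Sigma.mk.inj_iff.1 h4).2)
        simp only at this
        omega
    · have h2 : ∀ y : Fin (s j), b.coord ⟨j, y⟩ (b ⟨j', ⟨a', ha'⟩⟩) = 0 := by
        intro y
        rw [Basis.coord_apply, Basis.repr_self, Finsupp.single_apply, if_neg]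
        intro h4
        exact hj (Sigma.mk.inj_iff.1 h4).1
      have h3 : ∀ y : Fin (s j), b.coord ⟨j, y⟩ (opN b (b ⟨j', ⟨a', ha'⟩⟩)) = 0 := by
        intro y
        by_cases h3 : a' + 1 < s j'
        · rw [opN_pos b j' a' h3, Basis.coord_apply, Basis.repr_self, Finsupp.single_apply, if_neg]
          intro h4
          exact hj (Sigma.mk.inj_iff.1 h4).1
        · rw [opN_last b j' a' ha' h3, map_zero]
      rw [h2, h2, h3]
      simp
  exact LinearMap.congr_fun h1 x

theorem coord_vanish_ne (hF : Strings F b α) (m : K) (j : J) (hj : α j ≠ m) :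
    ∀ (k : ℕ) (x : V), ((F - m • (1 : Module.End K V)) ^ k) x = 0 →
      ∀ (a : ℕ) (ha : a < s j), b.repr x ⟨j, ⟨a, ha⟩⟩ = 0 := by
  intro k
  induction k with
  | zero =>
    intro x hx a ha
    rw [pow_zero, Module.End.one_apply] at hx
    rw [hx, map_zero, Finsupp.zero_apply]
  | succ k ih =>
    intro x hx
    rw [pow_succ, Module.End.mul_apply] at hx
    have h1 := ih _ hx
    have h2 : ∀ (a : ℕ) (ha : a < s j), b.repr ((F - m • (1 : Module.End K V)) x) ⟨j, ⟨a, ha⟩⟩ =
        b.repr (F x) ⟨j, ⟨a, ha⟩⟩ - m * b.repr x ⟨j, ⟨a, ha⟩⟩ := by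
      intro a ha
      rw [LinearMap.sub_apply, map_sub, Finsupp.sub_apply, LinearMap.smul_apply,
        Module.End.one_apply, map_smul, Finsupp.smul_apply, smul_eq_mul]
    intro a
    induction a with
    | zero =>
      intro ha
      have h3 := h1 0 ha
      rw [h2, coord_zero hF, ← sub_mul] at h3
      exact (mul_eq_zero.1 h3).resolve_left (sub_ne_zero.2 hj)
    | succ a iha =>
      intro ha
      have h3 := h1 (a + 1) ha
      rw [h2, coord_succ hF, iha ((Nat.lt_succ_self a).trans ha), add_zero, ← sub_mul] at h3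
      exact (mul_eq_zero.1 h3).resolve_left (sub_ne_zero.2 hj)

theorem coord_vanish (hF : Strings F b α) (m : K) (j : J) :
    ∀ (k : ℕ) (x : V), ((F - m • (1 : Module.End K V)) ^ k) x = 0 →
      ∀ (a : ℕ) (ha : a < s j), a + k < s j → b.repr x ⟨j, ⟨a, ha⟩⟩ = 0 := by
  by_cases hj : α j = m
  swap
  · intro k x hx a ha _
    exact coord_vanish_ne hF m j hj k x hx a ha
  intro k
  induction k with
  | zero =>
    intro x hx a ha _
    rw [pow_zero, Module.End.one_apply] at hx
    rw [hx, map_zero, Finsupp.zero_apply]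
  | succ k ih =>
    intro x hx a ha hak
    rw [pow_succ, Module.End.mul_apply] at hx
    have h1 := ih _ hx (a + 1) (by omega) (by omega)
    rw [LinearMap.sub_apply, map_sub, Finsupp.sub_apply, LinearMap.smul_apply,
        Module.End.one_apply, map_smul, Finsupp.smul_apply, smul_eq_mul, coord_succ hF, hj,
        mul_add, add_sub_cancel_left] at h1
    exact (mul_eq_zero.1 h1).resolve_left (hj ▸ hF.ne j)

theorem iSup_genk (hF : Strings F b α) (k : ℕ) :
    (⨆ m : K, Module.End.genEigenspace F m k) =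
      Submodule.span K (b '' {x | s x.1 ≤ (x.2 : ℕ) + k}) := by
  apply le_antisymm
  · apply iSup_le
    intro m x hx
    rw [Module.End.mem_genEigenspace_nat, LinearMap.mem_ker] at hx
    rw [Basis.mem_span_image]
    rintro ⟨j, a, ha⟩ hy
    rw [Finset.mem_coe, Finsupp.mem_support_iff] at hy
    by_contra hcon
    apply hy
    apply coord_vanish hF m j k x hx a ha
    have : ¬ (s j ≤ a + k) := hcon
    omega
  · rw [Submodule.span_le]
    rintro _ ⟨⟨j, a, ha⟩, hx, rfl⟩
    have h1 : ∀ (k a : ℕ) (ha : a < s j), s j ≤ a + k →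
        ((F - (α j) • (1 : Module.End K V)) ^ k) (b ⟨j, ⟨a, ha⟩⟩) = 0 := by
      intro k
      induction k with
      | zero => intro a ha h; omega
      | succ k ih =>
        intro a ha h
        rw [pow_succ, Module.End.mul_apply, LinearMap.sub_apply, LinearMap.smul_apply,
          Module.End.one_apply, hF.eq, smul_add, add_sub_cancel_left, map_smul]
        by_cases h3 : a + 1 < s j
        · rw [opN_pos b j a h3, ih (a + 1) h3 (by omega), smul_zero]
        · rw [opN_last b j a ha h3, map_zero, smul_zero]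
    refine Submodule.mem_iSup_of_mem (α j) ?_
    rw [Module.End.mem_genEigenspace_nat, LinearMap.mem_ker]
    exact h1 k a ha hx

theorem genk_count [Fintype J] (hF : Strings F b α) (k : ℕ) :
    finrank K (⨆ m : K, Module.End.genEigenspace F m k : Submodule K V) =
      Nat.card {x : Σ j, Fin (s j) | s x.1 ≤ (x.2 : ℕ) + k} := by
  rw [iSup_genk hF k]
  exact finrank_span_image b.linearIndependent _

end count

section exist

variable {K : Type u} {V : Type v} [Field K] [AddCommGroup V] [Module K V]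

theorem exists_strings [IsAlgClosed K] [FiniteDimensional K V] (F : V →ₗ[K] V)
    (hinj : Function.Injective F) :
    ∃ (J : Type u) (_ : Fintype J) (s : J → ℕ) (b : Basis (Σ j, Fin (s j)) K V) (α : J → K),
      Strings F b α := by
  classical
  have hint : DirectSum.IsInternal (fun m : K => Module.End.maxGenEigenspace F m) := by
    rw [DirectSum.isInternal_submodule_iff_iSupIndep_and_iSup_eq_top]
    exact ⟨Module.End.independent_maxGenEigenspace F, Module.End.iSup_maxGenEigenspace_eq_top F⟩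
  have h0 : Module.End.maxGenEigenspace F 0 = ⊥ := by
    rw [eq_bot_iff]
    intro x hx
    obtain ⟨k, hk⟩ := (Module.End.mem_maxGenEigenspace _ _ _).1 hx
    rw [zero_smul, sub_zero] at hk
    have h1 : Function.Injective (F ^ k : Module.End K V) := by
      rw [Module.End.coe_pow]
      exact hinj.iterate k
    exact (Submodule.mem_bot K).2 (h1 (by rw [hk, map_zero]))
  have hex : ∀ m : K, ∃ (ι : Type) (_ : Fintype ι) (p : ι → ℕ)
      (v : Basis (Σ i : ι, Fin (p i)) K (Module.End.maxGenEigenspace F m)),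
      (∀ i, 0 < p i) ∧ ∀ (i : ι) (a : Fin (p i)), F (v ⟨i, a⟩ : V) =
        m • ((v ⟨i, a⟩ : V) + ((if h : (a : ℕ) + 1 < p i then v ⟨i, ⟨(a : ℕ) + 1, h⟩⟩ else 0 :
          Module.End.maxGenEigenspace F m) : V)) := by
    intro m
    by_cases hm : m = 0
    · subst hm
      have : Subsingleton (Module.End.maxGenEigenspace F 0) := by
        rw [h0]; infer_instance
      refine ⟨Empty, inferInstance, fun _ => 1, Basis.empty _, fun i => i.elim, fun i => i.elim⟩
    · have hmt := Module.End.mapsTo_maxGenEigenspace_of_comm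
        (Algebra.mul_sub_algebraMap_commutes F m) m
      obtain ⟨k, hk⟩ := Module.End.isNilpotent_restrict_maxGenEigenspace_sub_algebraMap F m hmt
      set g := (F - algebraMap K (Module.End K V) m).restrict hmt with hg
      have hk2 : (m⁻¹ • g) ^ k = 0 := by
        rw [smul_pow, hk, smul_zero]
      obtain ⟨P, ι, hι, p, v, hp, hv, -⟩ := Pool.Agent.R686.JT.exists_isJordanType (m⁻¹ • g) hk2
      refine ⟨ι, hι, p, v, hp, fun i a => ?_⟩
      rw [← hv i a, LinearMap.smul_apply]
      have h2 : ((g (v ⟨i, a⟩) : Module.End.maxGenEigenspace F m) : V) =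
          F (v ⟨i, a⟩ : V) - m • (v ⟨i, a⟩ : V) := rfl
      rw [Submodule.coe_smul, h2, smul_add, smul_smul, mul_inv_cancel₀ hm, one_smul]
      abel
  choose ι hι p v hp hv using hex
  let B := hint.collectedBasis v
  let B' : Basis (Σ j : (Σ m, ι m), Fin (p j.1 j.2)) K V :=
    B.reindex (Equiv.sigmaAssoc (fun m i => Fin (p m i))).symm
  have hB' : ∀ (m : K) (i : ι m) (a : Fin (p m i)), B' ⟨⟨m, i⟩, a⟩ = (v m ⟨i, a⟩ : V) := by
    intro m i a
    rw [Basis.reindex_apply]
    exact congrFun (hint.collectedBasis_coe v) _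
  have hfin : Finite (Σ j : (Σ m, ι m), Fin (p j.1 j.2)) := Module.Finite.finite_basis B'
  have hfJ : Finite (Σ m, ι m) := by
    refine Finite.of_injective (fun j : (Σ m, ι m) =>
      (⟨j, ⟨0, hp j.1 j.2⟩⟩ : Σ j : (Σ m, ι m), Fin (p j.1 j.2))) ?_
    intro j j' h
    exact (Sigma.mk.inj_iff.1 h).1
  refine ⟨Σ m, ι m, Fintype.ofFinite _, fun j => p j.1 j.2, B', fun j => j.1, ?_, ?_, ?_⟩
  · rintro ⟨m, i⟩ hm
    have hm' : m = 0 := hm
    subst hm'
    have h1 : ∀ y : Module.End.maxGenEigenspace F 0, y = 0 := by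
      intro y
      have h2 : (y : V) ∈ (⊥ : Submodule K V) := h0 ▸ y.2
      exact Subtype.ext ((Submodule.mem_bot K).1 h2)
    exact (v 0).ne_zero ⟨i, ⟨0, hp 0 i⟩⟩ (h1 _)
  · rintro ⟨m, i⟩
    exact hp m i
  · rintro ⟨⟨m, i⟩, a, ha⟩
    have h4 : ((if h : a + 1 < p m i then v m ⟨i, ⟨a + 1, h⟩⟩ else 0 :
        Module.End.maxGenEigenspace F m) : V) = opN B' (B' ⟨⟨m, i⟩, ⟨a, ha⟩⟩) := by
      by_cases h : a + 1 < p m i
      · rw [dif_pos h, ← hB' m i ⟨a + 1, h⟩]
        exact (opN_pos (s := fun j : (Σ m, ι m) => p j.1 j.2) B' ⟨m, i⟩ a h).symm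
      · rw [dif_neg h]
        exact (opN_last (s := fun j : (Σ m, ι m) => p j.1 j.2) B' ⟨m, i⟩ a ha h).symm
    rw [← h4, hB']
    exact hv m i ⟨a, ha⟩

end exist

end Pool.Agent.U282.PW
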