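import Mathlib
import Pool.Agent.U282.PW.Cnt2
import Pool.Agent.U282.PW.Jor2

/-! The growth of the eigenspaces of `F^{⊗ n}` compared with the generalised eigenspaces. -/

set_option autoImplicit false

universe u v

namespace Pool.Agent.U282.PW

open Module PiTensorProduct Filter
open scoped TensorProduct

section arith

theorem sum_sq_gen (y : ℝ) (m : ℕ) : ∑ a ∈ Finset.range m, (y - 2 * (a : ℝ)) ^ 2 =
    m * y ^ 2 - 2 * y * (m * (m - 1)) + 2 / 3 * ((m - 1) * m * (2 * m - 1)) := by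
  induction m with
  | zero => simp
  | succ m ih =>
    rw [Finset.sum_range_succ, ih]
    push_cast
    ring

theorem sum_kk (y : ℝ) (m : ℕ) : ∑ k ∈ Finset.range m, (k : ℝ) * (y - k) =
    y * (m * (m - 1)) / 2 - (m - 1) * m * (2 * m - 1) / 6 := by
  induction m with
  | zero => simp
  | succ m ih =>
    rw [Finset.sum_range_succ, ih]
    push_cast
    ring

theorem sum_vv (s : ℕ) : (s : ℝ) * vv s = s * ((s : ℝ) ^ 2 - 1) / 3 := by
  rcases Nat.eq_zero_or_pos s with h | hs
  · subst h; simp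
  have hs' : (s : ℝ) ≠ 0 := by exact_mod_cast hs.ne'
  rw [vv, mul_div_cancel₀ _ hs',
    Fin.sum_univ_eq_sum_range (fun a => ((s : ℝ) - 1 - 2 * (a : ℝ)) ^ 2) s, sum_sq_gen]
  ring

theorem sum_k_sub {s b : ℕ} (h : s ≤ b) :
    ∑ k ∈ Finset.range b, (k : ℝ) * ((s - k : ℕ) : ℝ) = s * ((s : ℝ) ^ 2 - 1) / 6 := by
  rw [← Finset.sum_subset (Finset.range_subset_range.2 h)]
  · rw [Finset.sum_congr rfl (g := fun k : ℕ => (k : ℝ) * ((s : ℝ) - k)), sum_kk]
    · ring
    · intro k hk
      rw [Nat.cast_sub (Finset.mem_range.1 hk).le]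
  · intro k _ hk
    rw [Finset.mem_range, not_lt] at hk
    rw [Nat.sub_eq_zero_of_le hk]
    simp

theorem card_lt (s k : ℕ) : (∑ a : Fin s, if (a : ℕ) + k < s then 1 else 0) = s - k := by
  rw [Fin.sum_univ_eq_sum_range (fun a => if a + k < s then 1 else 0) s, ← Finset.sum_filter,
    ← Finset.card_eq_sum_ones]
  have : (Finset.range s).filter (fun a => a + k < s) = Finset.range (s - k) := by
    ext a
    rw [Finset.mem_filter, Finset.mem_range, Finset.mem_range]
    omega
  rw [this, Finset.card_range]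

end arith

variable {K : Type u} {V : Type v} [Field K] [AddCommGroup V] [Module K V]

/-- The rank of the `k`-th power of the nilpotent part of `F`: the codimension of the sum of the
kernels of `(F - m) ^ k`, over all `m`. -/
noncomputable def delta (F : V →ₗ[K] V) (k : ℕ) : ℝ :=
  (finrank K V : ℝ) - (finrank K (⨆ m : K, Module.End.genEigenspace F m k : Submodule K V) : ℝ)

/-- The number `∑ k * rk (N ^ k)`, where `N` is the nilpotent part of `F`. -/
noncomputable def size (F : V →ₗ[K] V) : ℝ :=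
  ∑ k ∈ Finset.range (finrank K V), (k : ℝ) * delta F k

/-- The number of the Jordan blocks of size more than `k` of `F^{⊗ n}` for the eigenvalues in `L`:
the dimension of the sum of the kernels of `(F^{⊗ n} - l) ^ (k + 1)`, `l ∈ L`, minus that of the
sum of the kernels of `(F^{⊗ n} - l) ^ k`. -/
noncomputable def bn (F : V →ₗ[K] V) (L : Set K) (n k : ℕ) : ℕ :=
  finrank K (⨆ l ∈ L, Module.End.genEigenspace (PiTensorProduct.map (fun _ : Fin n => F)) l
    ((k + 1 : ℕ) : ℕ∞) : Submodule K (⨂[K] _ : Fin n, V)) -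
  finrank K (⨆ l ∈ L, Module.End.genEigenspace (PiTensorProduct.map (fun _ : Fin n => F)) l
    (k : ℕ∞) : Submodule K (⨂[K] _ : Fin n, V))

/-- The dimension of the sum of the eigenspaces of `F^{⊗ n}` for the eigenvalues in `L`. -/
noncomputable def tn (F : V →ₗ[K] V) (L : Set K) (n : ℕ) : ℕ :=
  finrank K (⨆ l ∈ L, Module.End.eigenspace (PiTensorProduct.map (fun _ : Fin n => F)) l :
    Submodule K (⨂[K] _ : Fin n, V))

/-- The dimension of the sum of the generalised eigenspaces of `F^{⊗ n}` for the eigenvalues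
in `L`. -/
noncomputable def gn (F : V →ₗ[K] V) (L : Set K) (n : ℕ) : ℕ :=
  finrank K (⨆ l ∈ L, Module.End.maxGenEigenspace (PiTensorProduct.map (fun _ : Fin n => F)) l :
    Submodule K (⨂[K] _ : Fin n, V))

theorem tn_eq_bn (F : V →ₗ[K] V) (L : Set K) (n : ℕ) : tn F L n = bn F L n 0 := by
  unfold tn bn
  have h1 : (⨆ l ∈ L, Module.End.genEigenspace (PiTensorProduct.map (fun _ : Fin n => F)) l
      ((0 : ℕ) : ℕ∞) : Submodule K (⨂[K] _ : Fin n, V)) = ⊥ := by
    rw [eq_bot_iff]
    apply iSup₂_le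
    intro l _ x hx
    rw [Module.End.mem_genEigenspace_nat, LinearMap.mem_ker, pow_zero] at hx
    exact (Submodule.mem_bot K).2 hx
  rw [h1, finrank_bot, Nat.sub_zero]
  rfl

section str

variable {J : Type*} [Fintype J] {s : J → ℕ} {F : V →ₗ[K] V}
  {b : Basis (Σ j, Fin (s j)) K V} {α : J → K}

theorem finrank_eq (b : Basis (Σ j, Fin (s j)) K V) : finrank K V = ∑ j, s j := by
  rw [finrank_eq_card_basis b]
  simp

theorem delta_eq (hF : Strings F b α) (k : ℕ) : delta F k = ∑ j, ((s j - k : ℕ) : ℝ) := by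
  classical
  have h1 := genk_count hF k
  have h2 : (Finset.univ.filter fun x : Σ j, Fin (s j) => s x.1 ≤ (x.2 : ℕ) + k).card +
      (Finset.univ.filter fun x : Σ j, Fin (s j) => ¬ s x.1 ≤ (x.2 : ℕ) + k).card =
      finrank K V := by
    rw [Finset.card_filter_add_card_filter_not, finrank_eq_card_basis b]
    rfl
  have h3 : (Finset.univ.filter fun x : Σ j, Fin (s j) => ¬ s x.1 ≤ (x.2 : ℕ) + k).card =
      ∑ j, (s j - k) := by
    rw [Finset.card_eq_sum_ones, Finset.sum_filter, Fintype.sum_sigma]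
    apply Finset.sum_congr rfl
    intro j _
    rw [← card_lt (s j) k]
    apply Finset.sum_congr rfl
    intro a _
    simp only [not_le]
  have h4 : Nat.card {x : Σ j, Fin (s j) | s x.1 ≤ (x.2 : ℕ) + k} =
      (Finset.univ.filter fun x : Σ j, Fin (s j) => s x.1 ≤ (x.2 : ℕ) + k).card := by
    rw [Nat.card_eq_fintype_card, Fintype.card_subtype]
    rfl
  rw [h3] at h2
  unfold delta
  rw [h1, h4, ← h2]
  push_cast
  ring

theorem size_eq (hF : Strings F b α) : size F = ∑ j, (s j : ℝ) * ((s j : ℝ) ^ 2 - 1) / 6 := by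
  have h1 : ∀ j, s j ≤ finrank K V := fun j => by
    rw [finrank_eq b]
    exact Finset.single_le_sum (fun _ _ => Nat.zero_le _) (Finset.mem_univ j)
  unfold size
  simp only [delta_eq hF, Finset.mul_sum]
  rw [Finset.sum_comm]
  exact Finset.sum_congr rfl fun j _ => sum_k_sub (h1 j)

theorem vbar_eq [Nonempty (Σ j, Fin (s j))] (hF : Strings F b α) :
    vbar s = 2 * size F / finrank K V := by
  unfold vbar
  rw [finrank_eq_card_basis b, size_eq hF, Fintype.sum_sigma]
  congr 1
  rw [Finset.mul_sum]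
  apply Finset.sum_congr rfl
  intro j _
  simp only [Finset.sum_const, Finset.card_univ, Fintype.card_fin, nsmul_eq_mul]
  rw [sum_vv]
  ring

theorem ss_iff (hF : Strings F b α) :
    (⨆ m : K, Module.End.eigenspace F m) = ⊤ ↔ ∀ j, s j = 1 := by
  classical
  have := Module.Basis.finiteDimensional_of_finite b
  have h1 := iSup_genk hF 1
  have h2 : (⨆ m : K, Module.End.eigenspace F m) =
      Submodule.span K (b '' {x | s x.1 ≤ (x.2 : ℕ) + 1}) := by
    rw [← h1]
    rfl
  rw [h2]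
  constructor
  · intro h j
    have h3 : b ⟨j, ⟨0, hF.pos j⟩⟩ ∈ Submodule.span K (b '' {x | s x.1 ≤ (x.2 : ℕ) + 1}) := by
      rw [h]; trivial
    rw [Basis.mem_span_image, Basis.repr_self, Finsupp.support_single _ one_ne_zero] at h3
    have h4 : s j ≤ 0 + 1 := h3 (Finset.mem_coe.2 (Finset.mem_singleton_self _))
    have := hF.pos j
    omega
  · intro h
    have h3 : {x : Σ j, Fin (s j) | s x.1 ≤ (x.2 : ℕ) + 1} = Set.univ := by
      ext x
      simp only [Set.mem_ofPred_eq, Set.mem_univ, iff_true]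
      have := h x.1
      omega
    rw [h3, Set.image_univ, b.span_eq]

/-- The eigenvalues as units. -/
noncomputable def au (hF : Strings F b α) (j : J) : Kˣ := Units.mk0 (α j) (hF.ne j)

/-- The set of elements of `K` underlying a subgroup of `Kˣ`. -/
def uset (L : Subgroup Kˣ) : Set K := {l | ∃ u ∈ L, (u : K) = l}

theorem mk_prod {G ι : Type*} [CommGroup G] (L : Subgroup G) (S : Finset ι) (f : ι → G) :
    ((∏ i ∈ S, f i : G) : G ⧸ L) = ∏ i ∈ S, (f i : G ⧸ L) := by
  classical
  induction S using Finset.induction_on with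
  | empty => simp
  | insert j S hj ih => rw [Finset.prod_insert hj, Finset.prod_insert hj, QuotientGroup.mk_mul, ih]

omit [Fintype J] in
theorem prod_mem (hF : Strings F b α) (L : Subgroup Kˣ) {n : ℕ} (c : Fin n → Σ j, Fin (s j)) :
    (∏ i, α (c i).1) ∈ uset L ↔ ∏ i, (QuotientGroup.mk (au hF (c i).1) : Kˣ ⧸ L) = 1 := by
  have h1 : ∏ i, (QuotientGroup.mk (au hF (c i).1) : Kˣ ⧸ L) =
      QuotientGroup.mk (∏ i, au hF (c i).1) := by
    exact (mk_prod L Finset.univ (fun i => au hF (c i).1)).symm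
  rw [h1, QuotientGroup.eq_one_iff]
  have h2 : ((∏ i, au hF (c i).1 : Kˣ) : K) = ∏ i, α (c i).1 := by
    rw [Units.coe_prod]
    rfl
  constructor
  · rintro ⟨u, hu, h⟩
    have : u = ∏ i, au hF (c i).1 := Units.ext (h.trans h2.symm)
    rwa [← this]
  · intro h
    exact ⟨_, h, h2⟩

theorem bn_eq [CharZero K] (hF : Strings F b α) (L : Set K) (n k : ℕ) :
    bn F L n k =
    Nat.card {c : Fin n → Σ j, Fin (s j) | (∏ i, α (c i).1) ∈ L ∧ ht c = k} +
    Nat.card {c : Fin n → Σ j, Fin (s j) | (∏ i, α (c i).1) ∈ L ∧ ht c = -k - 1} := by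
  unfold bn
  rw [eig_count hF L k]
  omega

/-- The block numbers of a diagonalisable operator. -/
theorem ss_eq [CharZero K] (hF : Strings F b α) (h : ∀ j, s j = 1) (L : Set K) (n k : ℕ) :
    bn F L n k = if k = 0 then gn F L n else 0 := by
  rw [bn_eq hF, gn, gen_count hF L]
  have hw : ∀ x : Σ j, Fin (s j), wt x = 0 := by
    rintro ⟨j, a, ha⟩
    have hj := h j
    unfold wt
    simp only
    have : a = 0 := by omega
    rw [hj, this]
    simp
  have hht : ∀ c : Fin n → Σ j, Fin (s j), ht c = 0 := by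
    intro c
    rw [ht]
    exact Finset.sum_eq_zero fun i _ => hw _
  have h3 : {c : Fin n → Σ j, Fin (s j) | (∏ i, α (c i).1) ∈ L ∧ ht c = -k - 1} = ∅ := by
    ext c
    simp only [hht, Set.mem_ofPred_eq, Set.mem_empty_iff_false, iff_false, not_and]
    intro _
    omega
  rw [h3]
  by_cases hk : k = 0
  · subst hk
    have h2 : {c : Fin n → Σ j, Fin (s j) | (∏ i, α (c i).1) ∈ L ∧ ht c = (0 : ℕ)} =
        {c : Fin n → Σ j, Fin (s j) | (∏ i, α (c i).1) ∈ L} := by
      ext c
      simp [hht]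
    rw [h2]
    simp
  · have h2 : {c : Fin n → Σ j, Fin (s j) | (∏ i, α (c i).1) ∈ L ∧ ht c = k} = ∅ := by
      ext c
      simp only [hht, Set.mem_ofPred_eq, Set.mem_empty_iff_false, iff_false, not_and]
      intro _
      omega
    rw [h2, if_neg hk]
    simp

/-- The limit in the law. -/
noncomputable def lim (F : V →ₗ[K] V) (z : ℝ) : ℝ :=
  Real.sqrt (finrank K V / (Real.pi * size F)) *
    Real.exp (-(z ^ 2 * finrank K V / (4 * size F)))

/-- The law, with a lower bound for the generalised eigenspaces along `N` as an input. -/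
theorem law_aux [CharZero K] (hF : Strings F b α) (L : Subgroup Kˣ) (C D : ℕ) (N : Set ℕ)
    (hN : ∀ n ∈ N, (Fintype.card (Σ j, Fin (s j))) ^ n ≤ C * (n + 1) ^ D *
      triv (fun x : Σ j, Fin (s j) => (QuotientGroup.mk (au hF x.1) : Kˣ ⧸ L)) n)
    (hns : (⨆ m : K, Module.End.eigenspace F m) ≠ ⊤) :
    1 ≤ size F ∧ ∀ (kk : ℕ → ℕ) (z : ℝ),
      Tendsto (fun n : ℕ => (kk n : ℝ) / Real.sqrt n) atTop (nhds z) →
      Tendsto (fun n : ℕ => Real.sqrt n *
        ((bn F (uset L) n (kk n) : ℝ) / (gn F (uset L) n : ℝ)))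
        (atTop ⊓ 𝓟 N) (nhds (lim F z)) := by
  have hj : ∃ j, 2 ≤ s j := by
    by_contra hcon
    push Not at hcon
    apply hns
    rw [ss_iff hF]
    intro j
    have := hF.pos j
    have := hcon j
    omega
  obtain ⟨j, hj⟩ := hj
  have hne : Nonempty (Σ j, Fin (s j)) := ⟨⟨j, ⟨0, hF.pos j⟩⟩⟩
  have hb0 : (0 : ℝ) < finrank K V := by
    rw [finrank_eq_card_basis b]
    exact_mod_cast Fintype.card_pos
  have hS1 : 1 ≤ size F := by
    rw [size_eq hF]
    have h1 : ∀ j, 0 ≤ (s j : ℝ) * ((s j : ℝ) ^ 2 - 1) / 6 := by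
      intro j
      have h2 : (1 : ℝ) ≤ s j := by exact_mod_cast hF.pos j
      have h3 : (0 : ℝ) ≤ (s j : ℝ) ^ 2 - 1 := by nlinarith
      positivity
    have h4 : (2 : ℝ) ≤ s j := by exact_mod_cast hj
    calc (1 : ℝ) ≤ (s j : ℝ) * ((s j : ℝ) ^ 2 - 1) / 6 := by nlinarith
      _ ≤ _ := Finset.single_le_sum (fun j _ => h1 j) (Finset.mem_univ j)
  refine ⟨hS1, fun kk z hz => ?_⟩
  have hS : 0 < size F := by linarith
  have hv : 0 < vbar s := by
    rw [vbar_eq hF]
    positivity
  have hcard : ∀ n : ℕ, Nat.card {c : Fin n → Σ j, Fin (s j) | ∏ i, α (c i).1 ∈ uset L} =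
      triv (fun x : Σ j, Fin (s j) => (QuotientGroup.mk (au hF x.1) : Kˣ ⧸ L)) n := by
    intro n
    unfold triv
    congr 1
    apply congrArg
    ext c
    exact prod_mem hF L c
  have h1 := ratio_limit (s := s) hF.pos hv kk z hz
    (fun n (j : Fin n → J) => ∏ i, α (j i) ∈ uset L)
    C D N (fun n hn => by rw [hcard]; exact hN n hn)
  have h2 : kap (vbar s) z = lim F z := by
    unfold kap lim
    rw [vbar_eq hF]
    congr 2
    · field_simp
    · field_simp
      ring
  rw [h2] at h1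
  simp only [bn_eq hF, gn, gen_count hF]
  exact h1

omit [Fintype J] in
/-- The multiplicities of the eigenvalues. -/
theorem gen_count_one (hF : Strings F b α) (l : K) :
    Module.End.maxGenEigenspace F l = Submodule.span K (b '' {x | α x.1 = l}) := by
  refine eq_of_indep (G := fun l => Module.End.maxGenEigenspace F l)
    (W := fun l => Submodule.span K (b '' {x | α x.1 = l}))
    (Module.End.independent_maxGenEigenspace _) ?_ ?_ l
  · intro l
    rw [Submodule.span_le]
    rintro _ ⟨⟨j, a, ha⟩, hx, rfl⟩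
    have h1 : ∀ (k a : ℕ) (ha : a < s j), s j ≤ a + k →
        ((F - (α j) • (1 : Module.End K V)) ^ k) (b ⟨j, ⟨a, ha⟩⟩) = 0 := by
      intro k
      induction k with
      | zero => intro a ha h; omega
      | succ k ih =>
        intro a ha h
        rw [pow_succ, Module.End.mul_apply, LinearMap.sub_apply, LinearMap.smul_apply,
          Module.End.one_apply, hF.eq, smul_add, add_sub_cancel_left, map_smul]
        by_cases h3 : a + 1 < s j
        · rw [opN_pos b j a h3, ih (a + 1) h3 (by omega), smul_zero]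
        · rw [opN_last b j a ha h3, map_zero, smul_zero]
    have hx' : α j = l := hx
    rw [SetLike.mem_coe, Module.End.mem_maxGenEigenspace, ← hx']
    exact ⟨s j, h1 (s j) a ha (by omega)⟩
  · rw [eq_top_iff, ← b.span_eq, Submodule.span_le]
    rintro _ ⟨x, rfl⟩
    exact Submodule.mem_iSup_of_mem (α x.1) (Submodule.subset_span ⟨x, rfl, rfl⟩)

end str

/-- The pairing of generalised eigenspaces. -/
theorem pair_zero (F : V →ₗ[K] V) (B : V →ₗ[K] V →ₗ[K] K) (c : K)
    (hBF : ∀ x y, B (F x) (F y) = c * B x y) {l m : K} (hlm : l * m ≠ c) :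
    ∀ (N k k' : ℕ), k + k' ≤ N → ∀ x y, ((F - l • (1 : Module.End K V)) ^ k) x = 0 →
      ((F - m • (1 : Module.End K V)) ^ k') y = 0 → B x y = 0 := by
  intro N
  induction N with
  | zero =>
    intro k k' hk x y hx _
    have : k = 0 := by omega
    subst this
    rw [pow_zero, Module.End.one_apply] at hx
    rw [hx, map_zero, LinearMap.zero_apply]
  | succ N ih =>
    intro k k' hk x y hx hy
    rcases Nat.eq_zero_or_pos k with h0 | hk0
    · subst h0
      rw [pow_zero, Module.End.one_apply] at hx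
      rw [hx, map_zero, LinearMap.zero_apply]
    rcases Nat.eq_zero_or_pos k' with h0 | hk0'
    · subst h0
      rw [pow_zero, Module.End.one_apply] at hy
      rw [hy, map_zero]
    obtain ⟨p, rfl⟩ := Nat.exists_eq_add_of_le' hk0
    obtain ⟨p', rfl⟩ := Nat.exists_eq_add_of_le' hk0'
    rw [pow_succ, Module.End.mul_apply] at hx hy
    set x' := (F - l • (1 : Module.End K V)) x with hx'
    set y' := (F - m • (1 : Module.End K V)) y with hy'
    have e1 : F x = l • x + x' := by
      rw [hx', LinearMap.sub_apply, LinearMap.smul_apply, Module.End.one_apply]; abel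
    have e2 : F y = m • y + y' := by
      rw [hy', LinearMap.sub_apply, LinearMap.smul_apply, Module.End.one_apply]; abel
    have h1 : B x' y = 0 := ih p (p' + 1) (by omega) x' y hx (by
      rw [pow_succ, Module.End.mul_apply]; exact hy)
    have h2 : B x y' = 0 := ih (p + 1) p' (by omega) x y' (by
      rw [pow_succ, Module.End.mul_apply]; exact hx) hy
    have h3 : B x' y' = 0 := ih p p' (by omega) x' y' hx hy
    have h4 := hBF x y
    rw [e1, e2] at h4
    simp only [map_add, map_smul, LinearMap.add_apply, LinearMap.smul_apply, smul_eq_mul, h1, h2,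
      h3, mul_zero, add_zero] at h4
    have h5 : (l * m - c) * B x y = 0 := by linear_combination h4
    exact (mul_eq_zero.1 h5).resolve_left (sub_ne_zero.2 hlm)

theorem dual_finrank [IsAlgClosed K] [FiniteDimensional K V] (F : V →ₗ[K] V)
    (B : V →ₗ[K] V →ₗ[K] K) (hB : ∀ x, (∀ y, B x y = 0) → x = 0) (c : K)
    (hBF : ∀ x y, B (F x) (F y) = c * B x y) {l : K} (hl : l ≠ 0) :
    finrank K (Module.End.maxGenEigenspace F l) ≤
      finrank K (Module.End.maxGenEigenspace F (c / l)) := by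
  set W := Module.End.maxGenEigenspace F (c / l) with hW
  set f : Module.End.maxGenEigenspace F l →ₗ[K] Dual K W :=
    (LinearMap.lcomp K K W.subtype) ∘ₗ B ∘ₗ (Module.End.maxGenEigenspace F l).subtype with hf
  have hinj : Function.Injective f := by
    rw [injective_iff_map_eq_zero]
    rintro ⟨x, hx⟩ h
    apply Subtype.ext
    apply hB
    intro y
    have hy : y ∈ ⨆ m : K, Module.End.maxGenEigenspace F m := by
      rw [Module.End.iSup_maxGenEigenspace_eq_top]; trivial
    induction hy using Submodule.iSup_induction' with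
    | mem m y hy =>
      by_cases hm : l * m = c
      · have hm' : m = c / l := by rw [← hm]; field_simp
        subst hm'
        have := LinearMap.congr_fun h ⟨y, hy⟩
        exact this
      · obtain ⟨k, hk⟩ := (Module.End.mem_maxGenEigenspace _ _ _).1 hx
        obtain ⟨k', hk'⟩ := (Module.End.mem_maxGenEigenspace _ _ _).1 hy
        exact pair_zero F B c hBF hm (k + k') k k' le_rfl x y hk hk'
    | zero => rw [map_zero]
    | add y z _ _ hy hz => rw [map_add, hy, hz, add_zero]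
  have h1 := LinearMap.finrank_le_finrank_of_injective hinj
  rwa [Subspace.dual_finrank_eq] at h1

theorem exists_sigma {J : Type*} [Fintype J] {s : J → ℕ} {F : V →ₗ[K] V}
    {b : Basis (Σ j, Fin (s j)) K V} {α : J → K} [IsAlgClosed K] [FiniteDimensional K V]
    (hF : Strings F b α) (B : V →ₗ[K] V →ₗ[K] K) (hB : ∀ x, (∀ y, B x y = 0) → x = 0) (c : K)
    (hBF : ∀ x y, B (F x) (F y) = c * B x y) :
    ∃ σ : (Σ j, Fin (s j)) → (Σ j, Fin (s j)), Function.Injective σ ∧
      ∀ x, α (σ x).1 = c / α x.1 := by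
  classical
  have h1 : ∀ l : K, l ≠ 0 → Nonempty ({x : Σ j, Fin (s j) | α x.1 = l} ↪
      {x : Σ j, Fin (s j) | α x.1 = c / l}) := by
    intro l hl
    have h2 := dual_finrank F B hB c hBF hl
    rw [gen_count_one hF, gen_count_one hF, finrank_span_image b.linearIndependent,
      finrank_span_image b.linearIndependent, Nat.card_eq_fintype_card,
      Nat.card_eq_fintype_card] at h2
    exact Function.Embedding.nonempty_of_card_le h2
  choose e he using fun (l : K) (hl : l ≠ 0) => (h1 l hl).elim fun e => (⟨e, e.injective⟩ :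
    ∃ e : {x : Σ j, Fin (s j) | α x.1 = l} → {x : Σ j, Fin (s j) | α x.1 = c / l},
      Function.Injective e)
  have key : ∀ (l l' : K) (hl : l ≠ 0) (hl' : l' ≠ 0) (x y : Σ j, Fin (s j))
      (hx : α x.1 = l) (hy : α y.1 = l'), l = l' →
      (e l hl ⟨x, hx⟩ : Σ j, Fin (s j)) = (e l' hl' ⟨y, hy⟩ : Σ j, Fin (s j)) → x = y := by
    intro l l' hl hl' x y hx hy hll h
    subst hll
    have := he l hl (Subtype.ext h)
    exact congrArg Subtype.val this
  refine ⟨fun x => (e (α x.1) (hF.ne x.1) ⟨x, rfl⟩ : Σ j, Fin (s j)), ?_, ?_⟩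
  · intro x y hxy
    have h3 : α (e (α x.1) (hF.ne x.1) ⟨x, rfl⟩ : Σ j, Fin (s j)).1 = c / α x.1 :=
      (e (α x.1) (hF.ne x.1) ⟨x, rfl⟩).2
    have h4 : α (e (α y.1) (hF.ne y.1) ⟨y, rfl⟩ : Σ j, Fin (s j)).1 = c / α y.1 :=
      (e (α y.1) (hF.ne y.1) ⟨y, rfl⟩).2
    have h5 : (e (α x.1) (hF.ne x.1) ⟨x, rfl⟩ : Σ j, Fin (s j)) =
      (e (α y.1) (hF.ne y.1) ⟨y, rfl⟩ : Σ j, Fin (s j)) := hxy
    have h6 : c / α x.1 = c / α y.1 := by rw [← h3, h5, h4]
    have h7 : c ≠ 0 := by
      intro h0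
      exact hF.ne _ (h3.trans (by rw [h0, zero_div]))
    have h8 : α x.1 = α y.1 := by
      have h9 := hF.ne x.1
      have h10 := hF.ne y.1
      field_simp at h6
      exact h6.symm
    exact key _ _ _ _ x y rfl rfl h8 h5
  · intro x
    exact (e (α x.1) (hF.ne x.1) ⟨x, rfl⟩).2

theorem gn_eq_triv {J : Type*} [Fintype J] {s : J → ℕ} {F : V →ₗ[K] V}
    {b : Basis (Σ j, Fin (s j)) K V} {α : J → K} (hF : Strings F b α) (L : Subgroup Kˣ) (n : ℕ) :
    gn F (uset L) n =
      triv (fun x : Σ j, Fin (s j) => (QuotientGroup.mk (au hF x.1) : Kˣ ⧸ L)) n := by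
  unfold gn
  rw [gen_count hF]
  unfold triv
  congr 1
  apply congrArg
  ext c
  exact prod_mem hF L c

theorem inj_of_form (F : V →ₗ[K] V) (B : V →ₗ[K] V →ₗ[K] K)
    (hB : ∀ x, (∀ y, B x y = 0) → x = 0) (c : Kˣ) (hBF : ∀ x y, B (F x) (F y) = c * B x y) :
    Function.Injective F := by
  rw [injective_iff_map_eq_zero]
  intro x hx
  apply hB
  intro y
  have h1 := hBF x y
  rw [hx, map_zero, LinearMap.zero_apply] at h1
  exact (mul_eq_zero.1 h1.symm).resolve_left c.ne_zero

/-- A Jordan basis with the symmetry given by the form. -/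
theorem exists_data [IsAlgClosed K] [FiniteDimensional K V] (F : V →ₗ[K] V)
    (L : Subgroup Kˣ) (B : V →ₗ[K] V →ₗ[K] K) (hB : ∀ x, (∀ y, B x y = 0) → x = 0) (c : Kˣ)
    (hc : c ∈ L) (hBF : ∀ x y, B (F x) (F y) = c * B x y) :
    ∃ (J : Type u) (_ : Fintype J) (s : J → ℕ) (b : Basis (Σ j, Fin (s j)) K V) (α : J → K)
      (hF : Strings F b α) (σ : (Σ j, Fin (s j)) → (Σ j, Fin (s j))),
      Function.Injective σ ∧
      (∀ x, (QuotientGroup.mk (au hF (σ x).1) : Kˣ ⧸ L) = (QuotientGroup.mk (au hF x.1))⁻¹) ∧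
      ((∃ l ∈ L, ∃ x, x ≠ 0 ∧ F x = (l : K) • x) → ∃ x0 : Σ j, Fin (s j),
        (QuotientGroup.mk (au hF x0.1) : Kˣ ⧸ L) = 1) := by
  obtain ⟨J, hJ, s, b, α, hF⟩ := exists_strings F (inj_of_form F B hB c hBF)
  obtain ⟨σ, hσ, hσα⟩ := exists_sigma hF B hB c hBF
  refine ⟨J, hJ, s, b, α, hF, σ, hσ, ?_, ?_⟩
  · intro x
    rw [← QuotientGroup.mk_inv, QuotientGroup.eq]
    have h1 : (au hF (σ x).1)⁻¹ * (au hF x.1)⁻¹ = c⁻¹ := by
      rw [← mul_inv, inv_inj]
      apply Units.ext
      rw [Units.val_mul]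
      change α (σ x).1 * α x.1 = c
      rw [hσα]
      have := hF.ne x.1
      field_simp
    rw [h1]
    exact L.inv_mem hc
  · rintro ⟨l, hl, x, hx0, hx⟩
    have h1 : x ∈ Module.End.maxGenEigenspace F (l : K) := by
      rw [Module.End.mem_maxGenEigenspace]
      refine ⟨1, ?_⟩
      rw [pow_one, LinearMap.sub_apply, hx, LinearMap.smul_apply, Module.End.one_apply, sub_self]
    rw [gen_count_one hF] at h1
    have h2 : ∃ x0 : Σ j, Fin (s j), α x0.1 = l := by
      by_contra hcon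
      push Not at hcon
      have : {x : Σ j, Fin (s j) | α x.1 = l} = ∅ := by
        ext y
        simp [hcon y]
      rw [this, Set.image_empty, Submodule.span_empty, Submodule.mem_bot] at h1
      exact hx0 h1
    obtain ⟨x0, hx0⟩ := h2
    refine ⟨x0, ?_⟩
    rw [QuotientGroup.eq_one_iff]
    have : au hF x0.1 = l := Units.ext hx0
    rw [this]
    exact hl

/-- The law for an operator which preserves a nondegenerate form up to a factor `c ∈ L`. -/
theorem law_dual [CharZero K] [IsAlgClosed K] [FiniteDimensional K V] (F : V →ₗ[K] V)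
    (L : Subgroup Kˣ) (B : V →ₗ[K] V →ₗ[K] K) (hB : ∀ x, (∀ y, B x y = 0) → x = 0) (c : Kˣ)
    (hc : c ∈ L) (hBF : ∀ x y, B (F x) (F y) = c * B x y)
    (hns : (⨆ m : K, Module.End.eigenspace F m) ≠ ⊤) :
    (1 ≤ size F ∧ ∀ (kk : ℕ → ℕ) (z : ℝ),
      Tendsto (fun n : ℕ => (kk n : ℝ) / Real.sqrt n) atTop (nhds z) →
      Tendsto (fun n : ℕ => Real.sqrt n *
        ((bn F (uset L) n (kk n) : ℝ) / (gn F (uset L) n : ℝ)))
        (atTop ⊓ 𝓟 {n | Even n}) (nhds (lim F z))) ∧
    ((∃ l ∈ L, ∃ x, x ≠ 0 ∧ F x = (l : K) • x) → ∀ (kk : ℕ → ℕ) (z : ℝ),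
      Tendsto (fun n : ℕ => (kk n : ℝ) / Real.sqrt n) atTop (nhds z) →
      Tendsto (fun n : ℕ => Real.sqrt n *
        ((bn F (uset L) n (kk n) : ℝ) / (gn F (uset L) n : ℝ)))
        atTop (nhds (lim F z))) := by
  obtain ⟨J, hJ, s, b, α, hF, σ, hσ, hχσ, hx0⟩ := exists_data F L B hB c hc hBF
  constructor
  · refine law_aux hF L (Fintype.card (Σ j, Fin (s j)) + 1) (Fintype.card (Σ j, Fin (s j)))
      _ ?_ hns
    rintro n ⟨m, rfl⟩
    refine (triv_even (fun x : Σ j, Fin (s j) => (QuotientGroup.mk (au hF x.1) : Kˣ ⧸ L))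
      σ hσ hχσ m).trans ?_
    apply Nat.mul_le_mul_right
    calc (m + 1) ^ Fintype.card (Σ j, Fin (s j))
        ≤ (m + m + 1) ^ Fintype.card (Σ j, Fin (s j)) := Nat.pow_le_pow_left (by omega) _
      _ ≤ _ := Nat.le_mul_of_pos_left _ (Nat.succ_pos _)
  · intro hx kk z hz
    obtain ⟨x0, h0⟩ := hx0 hx
    have h4 := (law_aux hF L (Fintype.card (Σ j, Fin (s j))) (Fintype.card (Σ j, Fin (s j)))
      Set.univ (fun n _ => triv_lower (fun x : Σ j, Fin (s j) =>
        (QuotientGroup.mk (au hF x.1) : Kˣ ⧸ L)) σ hσ hχσ x0 h0 n) hns).2 kk z hz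
    rwa [Filter.principal_univ, inf_top_eq] at h4

/-- The law for all eigenvalues: the number of Jordan blocks. -/
theorem law_all [CharZero K] [IsAlgClosed K] [FiniteDimensional K V] (F : V →ₗ[K] V)
    (hinj : Function.Injective F) (hns : (⨆ m : K, Module.End.eigenspace F m) ≠ ⊤) :
    1 ≤ size F ∧ ∀ (kk : ℕ → ℕ) (z : ℝ),
      Tendsto (fun n : ℕ => (kk n : ℝ) / Real.sqrt n) atTop (nhds z) →
      Tendsto (fun n : ℕ => Real.sqrt n *
        ((bn F (uset (⊤ : Subgroup Kˣ)) n (kk n) : ℝ) /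
          (gn F (uset (⊤ : Subgroup Kˣ)) n : ℝ))) atTop (nhds (lim F z)) := by
  obtain ⟨J, hJ, s, b, α, hF⟩ := exists_strings F hinj
  have h1 : ∀ n ∈ (Set.univ : Set ℕ), (Fintype.card (Σ j, Fin (s j))) ^ n ≤ 1 * (n + 1) ^ 0 *
      triv (fun x : Σ j, Fin (s j) => (QuotientGroup.mk (au hF x.1) : Kˣ ⧸ (⊤ : Subgroup Kˣ))) n := by
    intro n _
    have h2 : triv (fun x : Σ j, Fin (s j) =>
        (QuotientGroup.mk (au hF x.1) : Kˣ ⧸ (⊤ : Subgroup Kˣ))) n =
        (Fintype.card (Σ j, Fin (s j))) ^ n := by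
      unfold triv
      have h3 : {c : Fin n → Σ j, Fin (s j) | ∏ i,
          (QuotientGroup.mk (au hF (c i).1) : Kˣ ⧸ (⊤ : Subgroup Kˣ)) = 1} = Set.univ := by
        ext c
        simp only [Set.mem_ofPred_eq, Set.mem_univ, iff_true]
        exact Finset.prod_eq_one fun i _ => (QuotientGroup.eq_one_iff _).2 trivial
      rw [h3, Nat.card_coe_set_eq, Set.ncard_univ, Nat.card_eq_fintype_card]
      simp
    rw [h2]
    simp
  have h4 := law_aux hF ⊤ 1 0 Set.univ h1 hns
  rwa [Filter.principal_univ, inf_top_eq] at h4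

end Pool.Agent.U282.PW
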