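import Mathlib
import Pool.Agent.U282.PW.Main

/-! The law for the Jordan blocks of the tensor powers, and the criterion for semisimplicity. -/

set_option autoImplicit false

universe u v

namespace Pool.Agent.U282.PW

open Module PiTensorProduct Filter
open scoped TensorProduct

variable {K : Type u} {V : Type v} [Field K] [AddCommGroup V] [Module K V]

/-- `F` is semisimple: the eigenspaces of `F` span `V`. -/
def SS (F : V →ₗ[K] V) : Prop := (⨆ m : K, Module.End.eigenspace F m) = ⊤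

theorem bn_ss [CharZero K] [IsAlgClosed K] [FiniteDimensional K V] (F : V →ₗ[K] V)
    (hinj : Function.Injective F) (hss : SS F) (L : Set K) (n k : ℕ) :
    bn F L n k = if k = 0 then gn F L n else 0 := by
  obtain ⟨J, hJ, s, b, α, hF⟩ := exists_strings F hinj
  exact ss_eq hF ((ss_iff hF).1 hss) L n k

/-- Positivity of the number of generalised classes, even powers. -/
theorem gn_pos [IsAlgClosed K] [FiniteDimensional K V] [Nontrivial V]
    (F : V →ₗ[K] V)
    (L : Subgroup Kˣ) (B : V →ₗ[K] V →ₗ[K] K) (hB : ∀ x, (∀ y, B x y = 0) → x = 0) (c : Kˣ)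
    (hc : c ∈ L) (hBF : ∀ x y, B (F x) (F y) = c * B x y) (m : ℕ) :
    0 < gn F (uset L) (2 * m) := by
  obtain ⟨J, hJ, s, b, α, hF, σ, hσ, hχσ, -⟩ := exists_data F L B hB c hc hBF
  have h1 := triv_even (fun x : Σ j, Fin (s j) => (QuotientGroup.mk (au hF x.1) : Kˣ ⧸ L))
    σ hσ hχσ m
  rw [← two_mul, ← gn_eq_triv hF L] at h1
  have h2 : 0 < Fintype.card (Σ j, Fin (s j)) := by
    rw [← finrank_eq_card_basis b]
    exact Module.finrank_pos
  have h3 := pow_pos h2 (2 * m)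
  by_contra h4
  have h5 : gn F (uset L) (2 * m) = 0 := by omega
  rw [h5, mul_zero] at h1
  omega

/-- Positivity of the number of generalised classes, all powers. -/
theorem gn_pos_all [IsAlgClosed K] [FiniteDimensional K V] (F : V →ₗ[K] V)
    (L : Subgroup Kˣ) (B : V →ₗ[K] V →ₗ[K] K) (hB : ∀ x, (∀ y, B x y = 0) → x = 0) (c : Kˣ)
    (hc : c ∈ L) (hBF : ∀ x y, B (F x) (F y) = c * B x y)
    (hx : ∃ l ∈ L, ∃ x, x ≠ 0 ∧ F x = (l : K) • x) (n : ℕ) : 0 < gn F (uset L) n := by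
  obtain ⟨J, hJ, s, b, α, hF, σ, hσ, hχσ, hx0⟩ := exists_data F L B hB c hc hBF
  obtain ⟨x0, h0⟩ := hx0 hx
  have h1 := triv_lower (fun x : Σ j, Fin (s j) => (QuotientGroup.mk (au hF x.1) : Kˣ ⧸ L))
    σ hσ hχσ x0 h0 n
  rw [← gn_eq_triv hF L] at h1
  have h2 : 0 < Fintype.card (Σ j, Fin (s j)) := Fintype.card_pos_iff.2 ⟨x0⟩
  have h3 := pow_pos h2 n
  by_contra h4
  have h5 : gn F (uset L) n = 0 := by omega
  rw [h5, mul_zero] at h1
  omega

theorem gn_all_pos [IsAlgClosed K] [FiniteDimensional K V] [Nontrivial V] (F : V →ₗ[K] V)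
    (hinj : Function.Injective F) (n : ℕ) :
    gn F (uset (⊤ : Subgroup Kˣ)) n = finrank K V ^ n := by
  obtain ⟨J, hJ, s, b, α, hF⟩ := exists_strings F hinj
  rw [gn_eq_triv hF, finrank_eq_card_basis b]
  unfold triv
  have h3 : {c : Fin n → Σ j, Fin (s j) | ∏ i,
      (QuotientGroup.mk (au hF (c i).1) : Kˣ ⧸ (⊤ : Subgroup Kˣ)) = 1} = Set.univ := by
    ext c
    simp only [Set.mem_ofPred_eq, Set.mem_univ, iff_true]
    exact Finset.prod_eq_one fun i _ => (QuotientGroup.eq_one_iff _).2 trivial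
  rw [h3, Nat.card_coe_set_eq, Set.ncard_univ, Nat.card_eq_fintype_card]
  simp

theorem lim_zero_le [FiniteDimensional K V] (F : V →ₗ[K] V) (h : 1 ≤ size F) :
    lim F 0 ≤ Real.sqrt (finrank K V / Real.pi) := by
  have hpi := Real.pi_pos
  unfold lim
  rw [zero_pow two_ne_zero, zero_mul, zero_div, neg_zero, Real.exp_zero, mul_one]
  apply Real.sqrt_le_sqrt
  apply div_le_div_of_nonneg_left (Nat.cast_nonneg _) hpi
  nlinarith

theorem lim_zero_pos [FiniteDimensional K V] [Nontrivial V] (F : V →ₗ[K] V) (h : 1 ≤ size F) :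
    0 < lim F 0 := by
  have hpi := Real.pi_pos
  have hb : (0 : ℝ) < finrank K V := by exact_mod_cast Module.finrank_pos
  unfold lim
  apply mul_pos _ (Real.exp_pos _)
  apply Real.sqrt_pos.2
  positivity

/-- The proportion of the large blocks among all blocks. -/
theorem proportion [FiniteDimensional K V] [Nontrivial V] (F : V →ₗ[K] V) (h : 1 ≤ size F)
    (f0 f g : ℕ → ℝ) (z : ℝ) (l : Filter ℕ) (hg : ∀ᶠ n in l, 0 < g n)
    (hn : ∀ᶠ n : ℕ in l, 0 < n)
    (h0 : Tendsto (fun n : ℕ => Real.sqrt n * (f0 n / g n)) l (nhds (lim F 0)))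
    (h1 : Tendsto (fun n : ℕ => Real.sqrt n * (f n / g n)) l (nhds (lim F z))) :
    Tendsto (fun n : ℕ => f n / f0 n) l
      (nhds (Real.exp (-(z ^ 2 * finrank K V / (4 * size F))))) := by
  have h2 := lim_zero_pos F h
  have h3 := h1.div h0 h2.ne'
  have h4 : lim F z / lim F 0 = Real.exp (-(z ^ 2 * finrank K V / (4 * size F))) := by
    have h5 : lim F 0 = Real.sqrt (finrank K V / (Real.pi * size F)) := by
      unfold lim
      rw [zero_pow two_ne_zero, zero_mul, zero_div, neg_zero, Real.exp_zero, mul_one]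
    have h6 := h2
    rw [h5] at h6 ⊢
    unfold lim
    field_simp
  rw [h4] at h3
  refine h3.congr' ?_
  filter_upwards [hg, hn] with n hgn hn
  have hs : 0 < Real.sqrt n := Real.sqrt_pos.2 (by exact_mod_cast hn)
  simp only [Pi.div_apply]
  rw [mul_div_mul_left _ _ hs.ne', div_div_div_cancel_right₀ hgn.ne']

/-- The law for all powers, when some eigenvalue lies in `L`. -/
theorem power_law_all [CharZero K] [IsAlgClosed K] [FiniteDimensional K V] (F : V →ₗ[K] V)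
    (L : Subgroup Kˣ) (B : V →ₗ[K] V →ₗ[K] K) (hB : ∀ x, (∀ y, B x y = 0) → x = 0) (c : Kˣ)
    (hc : c ∈ L) (hBF : ∀ x y, B (F x) (F y) = c * B x y)
    (hx : ∃ l ∈ L, ∃ x, x ≠ 0 ∧ F x = (l : K) • x) (hns : ¬ SS F) :
    1 ≤ size F ∧ ∀ (kk : ℕ → ℕ) (z : ℝ),
      Tendsto (fun n : ℕ => (kk n : ℝ) / Real.sqrt n) atTop (nhds z) →
      Tendsto (fun n : ℕ => Real.sqrt n *
        ((bn F (uset L) n (kk n) : ℝ) / (gn F (uset L) n : ℝ))) atTop (nhds (lim F z)) ∧
      Tendsto (fun n : ℕ => (bn F (uset L) n (kk n) : ℝ) / (bn F (uset L) n 0 : ℝ)) atTop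
        (nhds (Real.exp (-(z ^ 2 * finrank K V / (4 * size F))))) := by
  obtain ⟨⟨h1, -⟩, h2⟩ := law_dual F L B hB c hc hBF hns
  have hnt : Nontrivial V := by
    obtain ⟨_, _, x, hx0, _⟩ := hx
    exact ⟨⟨x, 0, hx0⟩⟩
  refine ⟨h1, fun kk z hz => ⟨h2 hx kk z hz, ?_⟩⟩
  refine proportion F h1 _ _ (fun n => (gn F (uset L) n : ℝ)) z atTop ?_ (eventually_gt_atTop 0)
    (h2 hx (fun _ => 0) 0 (by simp)) (h2 hx kk z hz)
  exact Eventually.of_forall fun n => by exact_mod_cast gn_pos_all F L B hB c hc hBF hx n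

/-- The law for even powers. -/
theorem power_law_even [CharZero K] [IsAlgClosed K] [FiniteDimensional K V] (F : V →ₗ[K] V)
    (L : Subgroup Kˣ) (B : V →ₗ[K] V →ₗ[K] K) (hB : ∀ x, (∀ y, B x y = 0) → x = 0) (c : Kˣ)
    (hc : c ∈ L) (hBF : ∀ x y, B (F x) (F y) = c * B x y) (hns : ¬ SS F) :
    1 ≤ size F ∧ ∀ (kk : ℕ → ℕ) (z : ℝ),
      Tendsto (fun n : ℕ => (kk n : ℝ) / Real.sqrt n) atTop (nhds z) →
      Tendsto (fun n : ℕ => Real.sqrt n *
        ((bn F (uset L) n (kk n) : ℝ) / (gn F (uset L) n : ℝ)))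
        (atTop ⊓ 𝓟 {n | Even n}) (nhds (lim F z)) ∧
      Tendsto (fun n : ℕ => (bn F (uset L) n (kk n) : ℝ) / (bn F (uset L) n 0 : ℝ))
        (atTop ⊓ 𝓟 {n | Even n})
        (nhds (Real.exp (-(z ^ 2 * finrank K V / (4 * size F))))) := by
  obtain ⟨⟨h1, h2⟩, -⟩ := law_dual F L B hB c hc hBF hns
  have hnt : Nontrivial V := by
    by_contra h
    rw [not_nontrivial_iff_subsingleton] at h
    exact hns (Subsingleton.elim _ _)
  refine ⟨h1, fun kk z hz => ⟨h2 kk z hz, ?_⟩⟩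
  refine proportion F h1 _ _ (fun n => (gn F (uset L) n : ℝ)) z _ ?_ ?_
    (h2 (fun _ => 0) 0 (by simp)) (h2 kk z hz)
  · rw [eventually_inf_principal]
    refine Eventually.of_forall fun n hn => ?_
    obtain ⟨m, rfl⟩ := (hn : Even n)
    rw [← two_mul]
    exact_mod_cast gn_pos F L B hB c hc hBF m
  · exact (eventually_gt_atTop 0).filter_mono inf_le_left

/-- The criterion. -/
theorem criterion [CharZero K] [IsAlgClosed K] [FiniteDimensional K V] (F : V →ₗ[K] V)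
    (L : Subgroup Kˣ) (B : V →ₗ[K] V →ₗ[K] K) (hB : ∀ x, (∀ y, B x y = 0) → x = 0) (c : Kˣ)
    (hc : c ∈ L) (hBF : ∀ x y, B (F x) (F y) = c * B x y)
    (a : ℕ → ℕ) (ha : ∀ n, a n ≤ tn F (uset L) n) (C : ℝ)
    (hC : Real.sqrt (finrank K V / Real.pi) < C)
    (hfr : (∃ᶠ n in atTop, Even n ∧ C * (gn F (uset L) n : ℝ) ≤ Real.sqrt n * (a n : ℝ)) ∨
      ((∃ l ∈ L, ∃ x, x ≠ 0 ∧ F x = (l : K) • x) ∧
        ∃ᶠ n in atTop, C * (gn F (uset L) n : ℝ) ≤ Real.sqrt n * (a n : ℝ))) :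
    SS F := by
  by_contra hns
  have hnt : Nontrivial V := by
    by_contra h
    rw [not_nontrivial_iff_subsingleton] at h
    exact hns (Subsingleton.elim _ _)
  have key : ∀ n : ℕ, 0 < gn F (uset L) n →
      C * (gn F (uset L) n : ℝ) ≤ Real.sqrt n * (a n : ℝ) →
      ¬ (Real.sqrt n * ((bn F (uset L) n 0 : ℝ) / (gn F (uset L) n : ℝ)) < C) := by
    intro n hg h1 h2
    have hg' : (0 : ℝ) < gn F (uset L) n := by exact_mod_cast hg
    rw [← mul_div_assoc, div_lt_iff₀ hg', ← tn_eq_bn] at h2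
    have h5 : (a n : ℝ) ≤ (tn F (uset L) n : ℝ) := by exact_mod_cast ha n
    have h6 := mul_le_mul_of_nonneg_left h5 (Real.sqrt_nonneg (n : ℝ))
    linarith
  rcases hfr with hfr | ⟨hx, hfr⟩
  · obtain ⟨h1, h2⟩ := power_law_even F L B hB c hc hBF hns
    have h3 := (h2 (fun _ => 0) 0 (by simp)).1.eventually
      (gt_mem_nhds ((lim_zero_le F h1).trans_lt hC))
    rw [eventually_inf_principal] at h3
    obtain ⟨n, ⟨hn, h4⟩, h5⟩ := (hfr.and_eventually h3).exists
    refine key n ?_ h4 (h5 hn)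
    obtain ⟨m, rfl⟩ := hn
    rw [← two_mul]
    exact gn_pos F L B hB c hc hBF m
  · obtain ⟨h1, h2⟩ := power_law_all F L B hB c hc hBF hx hns
    have h3 := (h2 (fun _ => 0) 0 (by simp)).1.eventually
      (gt_mem_nhds ((lim_zero_le F h1).trans_lt hC))
    obtain ⟨n, h4, h5⟩ := (hfr.and_eventually h3).exists
    exact key n (gn_pos_all F L B hB c hc hBF hx n) h4 h5

end Pool.Agent.U282.PW
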