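import Mathlib
import Pool.Agent.U282.PW.Final

/-! The law for the cohomology of the powers of a variety. -/

set_option autoImplicit false

universe u v w

namespace Pool.Agent.U282.PW

open Module PiTensorProduct Filter
open scoped TensorProduct

section general

variable {K : Type u} {M : Type v} [Field K] [AddCommGroup M] [Module K M]

/-- The number of the Jordan blocks of size more than `k` of `T` for the eigenvalues in `L`: the
dimension of the sum of the kernels of `(T - l) ^ (k + 1)`, `l ∈ L`, minus that of the sum of the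
kernels of `(T - l) ^ k`, `l ∈ L`. -/
noncomputable def blocks (T : M →ₗ[K] M) (L : Set K) (k : ℕ) : ℕ :=
  finrank K (⨆ l ∈ L, Module.End.genEigenspace T l ((k + 1 : ℕ) : ℕ∞) : Submodule K M) -
  finrank K (⨆ l ∈ L, Module.End.genEigenspace T l (k : ℕ∞) : Submodule K M)

/-- The sum of the multiplicities of the eigenvalues in `L`: the dimension of the sum of the
generalised eigenspaces. -/
noncomputable def mult (T : M →ₗ[K] M) (L : Set K) : ℕ :=
  finrank K (⨆ l ∈ L, Module.End.maxGenEigenspace T l : Submodule K M)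

/-- The dimension of the sum of the eigenspaces for the eigenvalues in `L`. -/
noncomputable def eigDim (T : M →ₗ[K] M) (L : Set K) : ℕ :=
  finrank K (⨆ l ∈ L, Module.End.eigenspace T l : Submodule K M)

theorem eigDim_eq_blocks (T : M →ₗ[K] M) (L : Set K) : eigDim T L = blocks T L 0 := by
  unfold eigDim blocks
  have h1 : (⨆ l ∈ L, Module.End.genEigenspace T l ((0 : ℕ) : ℕ∞) : Submodule K M) = ⊥ := by
    rw [eq_bot_iff]
    apply iSup₂_le
    intro l _ x hx
    rw [Module.End.mem_genEigenspace_nat, LinearMap.mem_ker, pow_zero] at hx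
    exact (Submodule.mem_bot K).2 hx
  rw [h1, finrank_bot, Nat.sub_zero]
  rfl

variable {M' : Type w} [AddCommGroup M'] [Module K M']

theorem map_gen (T : M →ₗ[K] M) (T' : M' →ₗ[K] M') (e : M ≃ₗ[K] M')
    (h : ∀ x, T' (e x) = e (T x)) (l : K) (k : ℕ∞) :
    (Module.End.genEigenspace T l k).map (e : M →ₗ[K] M') = Module.End.genEigenspace T' l k := by
  have hpow : ∀ (j : ℕ) (x : M), ((T' - l • (1 : Module.End K M')) ^ j) (e x) =
      e (((T - l • (1 : Module.End K M)) ^ j) x) := by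
    intro j
    induction j with
    | zero => intro x; rfl
    | succ j ih =>
      intro x
      rw [pow_succ, Module.End.mul_apply, pow_succ, Module.End.mul_apply]
      have h1 : (T' - l • (1 : Module.End K M')) (e x) = e ((T - l • (1 : Module.End K M)) x) := by
        rw [LinearMap.sub_apply, LinearMap.sub_apply, h, map_sub, LinearMap.smul_apply,
          LinearMap.smul_apply, map_smul]
        rfl
      rw [h1, ih]
  ext y
  rw [Submodule.mem_map]
  constructor
  · rintro ⟨x, hx, rfl⟩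
    rw [Module.End.mem_genEigenspace] at hx ⊢
    obtain ⟨j, hj, hx⟩ := hx
    refine ⟨j, hj, ?_⟩
    rw [LinearMap.mem_ker] at hx ⊢
    have := hpow j x
    rw [hx, map_zero] at this
    exact this
  · intro hy
    refine ⟨e.symm y, ?_, by simp⟩
    rw [Module.End.mem_genEigenspace] at hy ⊢
    obtain ⟨j, hj, hy⟩ := hy
    refine ⟨j, hj, ?_⟩
    rw [LinearMap.mem_ker] at hy ⊢
    have := hpow j (e.symm y)
    rw [e.apply_symm_apply, hy] at this
    exact e.injective (by rw [map_zero]; exact this.symm)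

theorem finrank_gen (T : M →ₗ[K] M) (T' : M' →ₗ[K] M') (e : M ≃ₗ[K] M')
    (h : ∀ x, T' (e x) = e (T x)) (L : Set K) (k : ℕ∞) :
    finrank K (⨆ l ∈ L, Module.End.genEigenspace T' l k : Submodule K M') =
      finrank K (⨆ l ∈ L, Module.End.genEigenspace T l k : Submodule K M) := by
  have h1 : (⨆ l ∈ L, Module.End.genEigenspace T' l k : Submodule K M') =
      (⨆ l ∈ L, Module.End.genEigenspace T l k : Submodule K M).map (e : M →ₗ[K] M') := by
    simp only [Submodule.map_iSup, map_gen T T' e h]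
  rw [h1]
  exact (e.submoduleMap _).finrank_eq.symm

theorem blocks_congr (T : M →ₗ[K] M) (T' : M' →ₗ[K] M') (e : M ≃ₗ[K] M')
    (h : ∀ x, T' (e x) = e (T x)) (L : Set K) (k : ℕ) : blocks T' L k = blocks T L k := by
  unfold blocks
  rw [finrank_gen T T' e h, finrank_gen T T' e h]

theorem mult_congr (T : M →ₗ[K] M) (T' : M' →ₗ[K] M') (e : M ≃ₗ[K] M')
    (h : ∀ x, T' (e x) = e (T x)) (L : Set K) : mult T' L = mult T L :=
  finrank_gen T T' e h L ⊤

theorem eigDim_congr (T : M →ₗ[K] M) (T' : M' →ₗ[K] M') (e : M ≃ₗ[K] M')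
    (h : ∀ x, T' (e x) = e (T x)) (L : Set K) : eigDim T' L = eigDim T L :=
  finrank_gen T T' e h L 1

end general

/-- Frobenius on the cohomology of the powers of a smooth projective variety `X` of dimension `d`
over the field with `q` elements; the coefficients `K` are an algebraic closure of the `l`-adic
numbers. -/
structure SmoothPowers (K : Type u) [Field K] (q d : ℕ) where
  /-- the total cohomology of `X^n` -/
  H : ℕ → Type v
  [grp : ∀ n, AddCommGroup (H n)]
  [mod : ∀ n, Module K (H n)]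
  [fin : FiniteDimensional K (H 1)]
  /-- Frobenius on the cohomology of `X^n` -/
  Fr : ∀ n, H n →ₗ[K] H n
  /-- the Künneth formula -/
  kunneth : ∀ n, (⨂[K] _ : Fin n, H 1) ≃ₗ[K] H n
  /-- the Künneth formula is compatible with Frobenius -/
  fr_kunneth : ∀ n x, Fr n (kunneth n x) = kunneth n (PiTensorProduct.map (fun _ => Fr 1) x)
  /-- the pairing of Poincaré duality: the trace of the cup product -/
  pairing : H 1 →ₗ[K] H 1 →ₗ[K] K
  /-- Poincaré duality -/
  duality : ∀ x, (∀ y, pairing x y = 0) → x = 0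
  /-- Frobenius acts by `q ^ d` on the cohomology of degree `2 d` -/
  pairing_fr : ∀ x y, pairing (Fr 1 x) (Fr 1 y) = (q : K) ^ d * pairing x y
  /-- the unit of the cohomology ring -/
  one : H 1
  one_ne : one ≠ 0
  fr_one : Fr 1 one = one

attribute [instance] SmoothPowers.grp SmoothPowers.mod SmoothPowers.fin

/-- Frobenius on the cohomology of the powers of a complete variety `X` over a finite field. -/
structure CompletePowers (K : Type u) [Field K] where
  /-- the total cohomology of `X^n` -/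
  H : ℕ → Type v
  [grp : ∀ n, AddCommGroup (H n)]
  [mod : ∀ n, Module K (H n)]
  [fin : FiniteDimensional K (H 1)]
  /-- Frobenius on the cohomology of `X^n` -/
  Fr : ∀ n, H n →ₗ[K] H n
  /-- the Künneth formula -/
  kunneth : ∀ n, (⨂[K] _ : Fin n, H 1) ≃ₗ[K] H n
  /-- the Künneth formula is compatible with Frobenius -/
  fr_kunneth : ∀ n x, Fr n (kunneth n x) = kunneth n (PiTensorProduct.map (fun _ => Fr 1) x)
  /-- Frobenius is an automorphism -/
  fr_inj : Function.Injective (Fr 1)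

attribute [instance] CompletePowers.grp CompletePowers.mod CompletePowers.fin

section smooth

variable {K : Type u} [Field K] [CharZero K] [IsAlgClosed K] {q d : ℕ}

/-- The unit `q`. -/
noncomputable def qu (K : Type u) [Field K] [CharZero K] (q : ℕ) (hq : q ≠ 0) : Kˣ :=
  Units.mk0 (q : K) (by exact_mod_cast hq)

theorem smooth_law (X : SmoothPowers.{u, v} K q d) (hq : q ≠ 0) (L : Subgroup Kˣ)
    (hL : qu K q hq ∈ L) :
    (SS (X.Fr 1) → ∀ n k, blocks (X.Fr n) (uset L) k =
      if k = 0 then mult (X.Fr n) (uset L) else 0) ∧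
    (¬ SS (X.Fr 1) → 1 ≤ size (X.Fr 1) ∧ ∀ (kk : ℕ → ℕ) (z : ℝ),
      Tendsto (fun n : ℕ => (kk n : ℝ) / Real.sqrt n) atTop (nhds z) →
      Tendsto (fun n : ℕ => Real.sqrt n *
        ((blocks (X.Fr n) (uset L) (kk n) : ℝ) / (mult (X.Fr n) (uset L) : ℝ)))
        atTop (nhds (lim (X.Fr 1) z)) ∧
      Tendsto (fun n : ℕ =>
        (blocks (X.Fr n) (uset L) (kk n) : ℝ) / (blocks (X.Fr n) (uset L) 0 : ℝ)) atTop
        (nhds (Real.exp (-(z ^ 2 * finrank K (X.H 1) / (4 * size (X.Fr 1))))))) ∧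
    (∀ (a : ℕ → ℕ) (C : ℝ), (∀ n, a n ≤ eigDim (X.Fr n) (uset L)) →
      Real.sqrt (finrank K (X.H 1) / Real.pi) < C →
      (∃ᶠ n in atTop, C * (mult (X.Fr n) (uset L) : ℝ) ≤ Real.sqrt n * (a n : ℝ)) →
      SS (X.Fr 1)) := by
  have hb : ∀ n k, blocks (X.Fr n) (uset L) k = bn (X.Fr 1) (uset L) n k := fun n k =>
    blocks_congr _ _ (X.kunneth n) (X.fr_kunneth n) _ k
  have hm : ∀ n, mult (X.Fr n) (uset L) = gn (X.Fr 1) (uset L) n := fun n =>
    mult_congr _ _ (X.kunneth n) (X.fr_kunneth n) _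
  have ht : ∀ n, eigDim (X.Fr n) (uset L) = tn (X.Fr 1) (uset L) n := fun n =>
    eigDim_congr _ _ (X.kunneth n) (X.fr_kunneth n) _
  have hc : (qu K q hq) ^ d ∈ L := L.pow_mem hL d
  have hBF : ∀ x y, X.pairing (X.Fr 1 x) (X.Fr 1 y) =
      (((qu K q hq) ^ d : Kˣ) : K) * X.pairing x y := by
    intro x y
    rw [X.pairing_fr]
    rfl
  have hinj := inj_of_form (X.Fr 1) X.pairing X.duality _ hBF
  have hone : ∃ l ∈ L, ∃ x, x ≠ 0 ∧ X.Fr 1 x = (l : K) • x :=
    ⟨1, L.one_mem, X.one, X.one_ne, by rw [X.fr_one]; simp⟩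
  refine ⟨?_, ?_, ?_⟩
  · intro hss n k
    rw [hb, hm]
    exact bn_ss _ hinj hss _ n k
  · intro hns
    obtain ⟨h1, h2⟩ := power_law_all (X.Fr 1) L X.pairing X.duality _ hc hBF hone hns
    refine ⟨h1, fun kk z hz => ?_⟩
    simp only [hb, hm]
    exact h2 kk z hz
  · intro a C ha hC hfr
    simp only [hm] at hfr
    simp only [ht] at ha
    exact criterion (X.Fr 1) L X.pairing X.duality _ hc hBF a ha C hC (Or.inr ⟨hone, hfr⟩)

/-- The law for an isometry `f` of a nondegenerate form with a nonzero fixed vector. -/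
theorem isometry_law {V : Type v} [AddCommGroup V] [Module K V] [FiniteDimensional K V]
    (f : V →ₗ[K] V) (B : V →ₗ[K] V →ₗ[K] K) (hB : ∀ x, (∀ y, B x y = 0) → x = 0)
    (hBf : ∀ x y, B (f x) (f y) = B x y) (h : V) (hh : h ≠ 0) (hf : f h = h) :
    (SS f → ∀ n k, blocks (PiTensorProduct.map (fun _ : Fin n => f)) {1} k =
      if k = 0 then mult (PiTensorProduct.map (fun _ : Fin n => f)) {1} else 0) ∧
    (¬ SS f → 1 ≤ size f ∧ ∀ (kk : ℕ → ℕ) (z : ℝ),
      Tendsto (fun n : ℕ => (kk n : ℝ) / Real.sqrt n) atTop (nhds z) →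
      Tendsto (fun n : ℕ => Real.sqrt n *
        ((blocks (PiTensorProduct.map (fun _ : Fin n => f)) {1} (kk n) : ℝ) /
          (mult (PiTensorProduct.map (fun _ : Fin n => f)) {1} : ℝ)))
        atTop (nhds (lim f z)) ∧
      Tendsto (fun n : ℕ =>
        (blocks (PiTensorProduct.map (fun _ : Fin n => f)) {1} (kk n) : ℝ) /
          (blocks (PiTensorProduct.map (fun _ : Fin n => f)) {1} 0 : ℝ)) atTop
        (nhds (Real.exp (-(z ^ 2 * finrank K V / (4 * size f)))))) ∧
    (∀ (a : ℕ → ℕ) (C : ℝ),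
      (∀ n, a n ≤ eigDim (PiTensorProduct.map (fun _ : Fin n => f)) {1}) →
      Real.sqrt (finrank K V / Real.pi) < C →
      (∃ᶠ n in atTop, C * (mult (PiTensorProduct.map (fun _ : Fin n => f)) {1} : ℝ) ≤
        Real.sqrt n * (a n : ℝ)) → SS f) := by
  have hu : uset (⊥ : Subgroup Kˣ) = {1} := by
    ext x
    constructor
    · rintro ⟨u, hu, rfl⟩
      rw [Subgroup.mem_bot.1 hu]
      rfl
    · intro hx
      exact ⟨1, Subgroup.one_mem _, (Set.mem_singleton_iff.1 hx).symm ▸ rfl⟩
  have hc : (1 : Kˣ) ∈ (⊥ : Subgroup Kˣ) := Subgroup.one_mem _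
  have hBF : ∀ x y, B (f x) (f y) = ((1 : Kˣ) : K) * B x y := by
    intro x y
    rw [hBf, Units.val_one, one_mul]
  have hinj := inj_of_form f B hB _ hBF
  have hone : ∃ l ∈ (⊥ : Subgroup Kˣ), ∃ x, x ≠ 0 ∧ f x = (l : K) • x :=
    ⟨1, hc, h, hh, by rw [hf]; simp⟩
  refine ⟨?_, ?_, ?_⟩
  · intro hss n k
    exact bn_ss _ hinj hss _ n k
  · intro hns
    have h2 := power_law_all f ⊥ B hB _ hc hBF hone hns
    rw [hu] at h2
    exact h2
  · intro a C ha hC hfr
    refine criterion f ⊥ B hB _ hc hBF a ?_ C hC (Or.inr ⟨hone, ?_⟩)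
    · rw [hu]; exact ha
    · rw [hu]; exact hfr

end smooth

section complete

variable {K : Type u} [Field K] [CharZero K] [IsAlgClosed K]

/-- The number of all Jordan blocks of size more than `k` of `T`. -/
noncomputable def allBlocks {M : Type v} [AddCommGroup M] [Module K M] (T : M →ₗ[K] M) (k : ℕ) :
    ℕ :=
  finrank K (⨆ l : K, Module.End.genEigenspace T l ((k + 1 : ℕ) : ℕ∞) : Submodule K M) -
  finrank K (⨆ l : K, Module.End.genEigenspace T l (k : ℕ∞) : Submodule K M)

omit [CharZero K] [IsAlgClosed K] in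
theorem allBlocks_eq {M : Type v} [AddCommGroup M] [Module K M] (T : M →ₗ[K] M) (k : ℕ) :
    allBlocks T k = blocks T Set.univ k := by
  have h : ∀ k : ℕ∞, (⨆ l ∈ (Set.univ : Set K), Module.End.genEigenspace T l k : Submodule K M) =
      ⨆ l : K, Module.End.genEigenspace T l k := fun k => by
    simp only [Set.mem_univ, iSup_pos]
  unfold allBlocks blocks
  rw [h, h]

theorem bn_univ {V : Type v} [AddCommGroup V] [Module K V] [FiniteDimensional K V]
    (F : V →ₗ[K] V) (hinj : Function.Injective F) (n k : ℕ) :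
    bn F Set.univ n k = bn F (uset (⊤ : Subgroup Kˣ)) n k := by
  obtain ⟨J, hJ, s, b, α, hF⟩ := exists_strings F hinj
  rw [bn_eq hF, bn_eq hF]
  have h1 : ∀ c : Fin n → Σ j, Fin (s j), (∏ i, α (c i).1) ∈ uset (⊤ : Subgroup Kˣ) := by
    intro c
    exact ⟨Units.mk0 (∏ i, α (c i).1) (Finset.prod_ne_zero_iff.2 fun i _ => hF.ne _), trivial, rfl⟩
  simp only [Set.mem_univ, h1]

theorem complete_law (X : CompletePowers.{u, v} K) :
    (SS (X.Fr 1) → ∀ n k, allBlocks (X.Fr n) k =
      if k = 0 then finrank K (X.H 1) ^ n else 0) ∧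
    (¬ SS (X.Fr 1) → 1 ≤ size (X.Fr 1) ∧ ∀ (kk : ℕ → ℕ) (z : ℝ),
      Tendsto (fun n : ℕ => (kk n : ℝ) / Real.sqrt n) atTop (nhds z) →
      Tendsto (fun n : ℕ => Real.sqrt n *
        ((allBlocks (X.Fr n) (kk n) : ℝ) / (finrank K (X.H 1) : ℝ) ^ n))
        atTop (nhds (lim (X.Fr 1) z)) ∧
      Tendsto (fun n : ℕ =>
        (allBlocks (X.Fr n) (kk n) : ℝ) / (allBlocks (X.Fr n) 0 : ℝ)) atTop
        (nhds (Real.exp (-(z ^ 2 * finrank K (X.H 1) / (4 * size (X.Fr 1))))))) := by
  have hb : ∀ n k, allBlocks (X.Fr n) k = bn (X.Fr 1) (uset (⊤ : Subgroup Kˣ)) n k := by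
    intro n k
    rw [allBlocks_eq, ← bn_univ _ X.fr_inj]
    exact blocks_congr _ _ (X.kunneth n) (X.fr_kunneth n) _ k
  constructor
  · intro hss n k
    rw [hb, bn_ss _ X.fr_inj hss]
    rcases subsingleton_or_nontrivial (X.H 1) with hs | hs
    · obtain ⟨J, hJ, s, b, α, hF⟩ := exists_strings (X.Fr 1) X.fr_inj
      have h1 : gn (X.Fr 1) (uset (⊤ : Subgroup Kˣ)) n = finrank K (X.H 1) ^ n := by
        rw [gn_eq_triv hF, finrank_eq_card_basis b]
        unfold triv
        have h3 : {c : Fin n → Σ j, Fin (s j) | ∏ i,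
            (QuotientGroup.mk (au hF (c i).1) : Kˣ ⧸ (⊤ : Subgroup Kˣ)) = 1} = Set.univ := by
          ext c
          simp only [Set.mem_ofPred_eq, Set.mem_univ, iff_true]
          exact Finset.prod_eq_one fun i _ => (QuotientGroup.eq_one_iff _).2 trivial
        rw [h3, Nat.card_coe_set_eq, Set.ncard_univ, Nat.card_eq_fintype_card]
        simp
      rw [h1]
    · rw [gn_all_pos _ X.fr_inj]
  · intro hns
    have hnt : Nontrivial (X.H 1) := by
      by_contra h
      rw [not_nontrivial_iff_subsingleton] at h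
      exact hns (Subsingleton.elim _ _)
    obtain ⟨h1, h2⟩ := law_all (X.Fr 1) X.fr_inj hns
    refine ⟨h1, fun kk z hz => ?_⟩
    have hg : ∀ n, (gn (X.Fr 1) (uset (⊤ : Subgroup Kˣ)) n : ℝ) = (finrank K (X.H 1) : ℝ) ^ n := by
      intro n
      rw [gn_all_pos _ X.fr_inj]
      push_cast
      rfl
    simp only [hg] at h2
    simp only [hb]
    refine ⟨h2 kk z hz, ?_⟩
    refine proportion (X.Fr 1) h1 _ _ (fun n => (finrank K (X.H 1) : ℝ) ^ n) z atTop ?_
      (eventually_gt_atTop 0) (h2 (fun _ => 0) 0 (by simp)) (h2 kk z hz)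
    refine Eventually.of_forall fun n => ?_
    have : (0 : ℝ) < finrank K (X.H 1) := by exact_mod_cast Module.finrank_pos
    positivity

end complete

end Pool.Agent.U282.PW
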